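import Pool.Agent.helper24.BV.Defs

/-!
# BVA-Recur: bounds for the derivatives of `L'/L` from bounds for the derivatives of `L`

PROOF.  Write `L_i = LSeries (χ log^i) s`, `D_j = LSeries (Λ χ log^j) s` (`Re s > 1`).
(`leibniz`) Pointwise, using `log n = ∑_{d e = n} Λ d` (`vonMangoldt_sum`/`convolution_vonMangoldt_const_one`)
and the binomial theorem for `(log n)^j = (log d + log e)^j`:
`χ(n) (log n)^(j+1) = ∑_{r ≤ j} binom(j,r) ((Λ χ log^r) ⍟ (χ log^(j-r)))(n)`, hence by
`LSeries_convolution'`/`LSeries_mul_convolution` (all series absolutely convergent for `Re s > 1`)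
`L_{j+1} = ∑_{r ≤ j} binom(j,r) D_r L_{j-r}`.
(Other way: `L_{i} = (-1)^i L^{(i)}`, `D_0 L_0 = L_1` by `LSeries_twist_vonMangoldt_eq`, Leibniz rule.)
(`logderiv_bound`) Strong induction on `j` with `R = 4M/m ≥ 4`, claim `‖D_j‖ ≤ j! (R k)^(j+1)`:
`m ‖D_j‖ ≤ ‖L_{j+1}‖ + ∑_{r < j} binom(j,r) ‖D_r‖ ‖L_{j-r}‖
 ≤ M j! k^(j+1) ((j+1) + ∑_{r<j} R^(r+1))`, `∑_{r<j} R^(r+1) ≤ (4/3) R^j`, `j + 1 ≤ (8/3) R^j`, so
`‖D_j‖ ≤ (R/4) j! k^(j+1) 4 R^j`.
-/

open Finset ArithmeticFunction Complex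

namespace BVM

private lemma recur_iterate (f : ℕ → ℂ) (i n : ℕ) :
    (LSeries.logMul^[i] f) n = f n * ((Real.log n : ℝ) : ℂ) ^ i := by
  induction i generalizing f with
  | zero => simp
  | succ i ih =>
    rw [Function.iterate_succ_apply, ih]
    simp only [LSeries.logMul]
    rw [natCast_log, pow_succ]
    ring

private lemma recur_summ (f : ℕ → ℂ) (hf : ∀ y : ℝ, 1 < y → LSeriesSummable f y)
    {s : ℂ} (hs : 1 < s.re) (i : ℕ) :
    LSeriesSummable (fun n => f n * ((Real.log n : ℝ) : ℂ) ^ i) s := by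
  have h1 : LSeries.abscissaOfAbsConv f ≤ ((1 : ℝ) : EReal) :=
    LSeries.abscissaOfAbsConv_le_of_forall_lt_LSeriesSummable hf
  have h2 : LSeries.abscissaOfAbsConv (LSeries.logMul^[i] f) < s.re := by
    rw [LSeries.absicssaOfAbsConv_logPowMul]
    exact lt_of_le_of_lt h1 (by exact_mod_cast hs)
  have h3 := LSeriesSummable_of_abscissaOfAbsConv_lt_re h2
  have h4 : LSeries.logMul^[i] f = fun n => f n * ((Real.log n : ℝ) : ℂ) ^ i := by
    funext n
    exact recur_iterate f i n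
  rwa [h4] at h3

private lemma recur_summ_chi {q : ℕ} (χ : DirichletCharacter ℂ q) {s : ℂ} (hs : 1 < s.re)
    (i : ℕ) : LSeriesSummable (fun n => χ (n : ZMod q) * ((Real.log n : ℝ) : ℂ) ^ i) s :=
  recur_summ (fun n => χ (n : ZMod q))
    (fun y hy => DirichletCharacter.LSeriesSummable_of_one_lt_re χ (by simpa using hy)) hs i

private lemma recur_summ_lam {q : ℕ} (χ : DirichletCharacter ℂ q) {s : ℂ} (hs : 1 < s.re)
    (i : ℕ) : LSeriesSummable (fun n => ((vonMangoldt n : ℝ) : ℂ) * χ (n : ZMod q) *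
      ((Real.log n : ℝ) : ℂ) ^ i) s := by
  refine recur_summ (fun n => ((vonMangoldt n : ℝ) : ℂ) * χ (n : ZMod q)) (fun y hy => ?_) hs i
  have h := DirichletCharacter.LSeriesSummable_twist_vonMangoldt χ
    (show 1 < ((y : ℝ) : ℂ).re by simpa using hy)
  have he : (fun n : ℕ => ((vonMangoldt n : ℝ) : ℂ) * χ (n : ZMod q)) =
      (fun n : ℕ => χ (n : ZMod q)) * (fun n : ℕ => ((vonMangoldt n : ℝ) : ℂ)) := by
    funext n
    simp [mul_comm]
  rw [he]
  exact h

private lemma recur_pointwise {q : ℕ} (χ : DirichletCharacter ℂ q) (j n : ℕ) (hn : n ≠ 0) :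
    χ (n : ZMod q) * ((Real.log n : ℝ) : ℂ) ^ (j + 1) =
      ∑ r ∈ range (j + 1), (j.choose r : ℂ) *
        (LSeries.convolution (fun n => ((vonMangoldt n : ℝ) : ℂ) * χ (n : ZMod q) *
            ((Real.log n : ℝ) : ℂ) ^ r)
          (fun n => χ (n : ZMod q) * ((Real.log n : ℝ) : ℂ) ^ (j - r))) n := by
  have h1 : ∀ r, (LSeries.convolution (fun n => ((vonMangoldt n : ℝ) : ℂ) * χ (n : ZMod q) *
            ((Real.log n : ℝ) : ℂ) ^ r)
          (fun n => χ (n : ZMod q) * ((Real.log n : ℝ) : ℂ) ^ (j - r))) n =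
      ∑ p ∈ n.divisorsAntidiagonal, χ (n : ZMod q) * ((vonMangoldt p.1 : ℝ) : ℂ) *
        (((Real.log p.1 : ℝ) : ℂ) ^ r * ((Real.log p.2 : ℝ) : ℂ) ^ (j - r)) := by
    intro r
    rw [LSeries.convolution_def]
    refine Finset.sum_congr rfl fun p hp => ?_
    have hp' := (Nat.mem_divisorsAntidiagonal.mp hp).1
    have : χ (n : ZMod q) = χ (p.1 : ZMod q) * χ (p.2 : ZMod q) := by
      rw [← map_mul, ← Nat.cast_mul, hp']
    rw [this]
    ring
  simp_rw [h1, Finset.mul_sum]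
  rw [Finset.sum_comm]
  have h2 : ∀ p ∈ n.divisorsAntidiagonal,
      (∑ r ∈ range (j + 1), (j.choose r : ℂ) * (χ (n : ZMod q) * ((vonMangoldt p.1 : ℝ) : ℂ) *
        (((Real.log p.1 : ℝ) : ℂ) ^ r * ((Real.log p.2 : ℝ) : ℂ) ^ (j - r)))) =
      χ (n : ZMod q) * ((Real.log n : ℝ) : ℂ) ^ j * ((vonMangoldt p.1 : ℝ) : ℂ) := by
    intro p hp
    have hp' := (Nat.mem_divisorsAntidiagonal.mp hp).1
    have hp1 : p.1 ≠ 0 := by
      rintro h
      rw [h, zero_mul] at hp'
      exact hn hp'.symm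
    have hp2 : p.2 ≠ 0 := by
      rintro h
      rw [h, mul_zero] at hp'
      exact hn hp'.symm
    have hlog : ((Real.log n : ℝ) : ℂ) = ((Real.log p.1 : ℝ) : ℂ) + ((Real.log p.2 : ℝ) : ℂ) := by
      rw [← hp', Nat.cast_mul, Real.log_mul (by exact_mod_cast hp1) (by exact_mod_cast hp2)]
      push_cast
      ring
    rw [hlog, add_pow, Finset.mul_sum, Finset.sum_mul]
    refine Finset.sum_congr rfl fun r _ => ?_
    ring
  rw [Finset.sum_congr rfl h2, ← Finset.mul_sum]
  have h3 : ∑ p ∈ n.divisorsAntidiagonal, ((vonMangoldt p.1 : ℝ) : ℂ) = ((Real.log n : ℝ) : ℂ) := by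
    rw [← Complex.ofReal_sum]
    congr 1
    rw [Nat.sum_divisorsAntidiagonal (fun i _ => vonMangoldt i)]
    exact vonMangoldt_sum
  rw [h3, pow_succ]
  ring

theorem leibniz {q : ℕ} (χ : DirichletCharacter ℂ q) (s : ℂ) (hs : 1 < s.re) (j : ℕ) :
    LSeries (fun n => χ (n : ZMod q) * ((Real.log n : ℝ) : ℂ) ^ (j + 1)) s =
      ∑ r ∈ range (j + 1), (j.choose r : ℂ) *
        (LSeries (fun n => ((vonMangoldt n : ℝ) : ℂ) * χ (n : ZMod q) *
            ((Real.log n : ℝ) : ℂ) ^ r) s *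
         LSeries (fun n => χ (n : ZMod q) * ((Real.log n : ℝ) : ℂ) ^ (j - r)) s) := by
  have h1 : ∀ r, LSeriesSummable (LSeries.convolution (fun n => ((vonMangoldt n : ℝ) : ℂ) *
        χ (n : ZMod q) * ((Real.log n : ℝ) : ℂ) ^ r)
      (fun n => χ (n : ZMod q) * ((Real.log n : ℝ) : ℂ) ^ (j - r))) s := fun r =>
    (recur_summ_lam χ hs r).convolution (recur_summ_chi χ hs (j - r))
  rw [LSeries_congr (fun {n} hn => recur_pointwise χ j n hn) s]
  have h2 : (fun n => ∑ r ∈ range (j + 1), (j.choose r : ℂ) *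
        (LSeries.convolution (fun n => ((vonMangoldt n : ℝ) : ℂ) * χ (n : ZMod q) *
            ((Real.log n : ℝ) : ℂ) ^ r)
          (fun n => χ (n : ZMod q) * ((Real.log n : ℝ) : ℂ) ^ (j - r))) n) =
      ∑ r ∈ range (j + 1), (j.choose r : ℂ) • LSeries.convolution
        (fun n => ((vonMangoldt n : ℝ) : ℂ) * χ (n : ZMod q) * ((Real.log n : ℝ) : ℂ) ^ r)
          (fun n => χ (n : ZMod q) * ((Real.log n : ℝ) : ℂ) ^ (j - r)) := by
    funext n
    simp
  rw [h2, LSeries_sum (fun r _ => (h1 r).smul _)]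
  refine Finset.sum_congr rfl fun r _ => ?_
  rw [LSeries_smul, LSeries_convolution' (recur_summ_lam χ hs r) (recur_summ_chi χ hs (j - r))]

private lemma recur_geom {R : ℝ} (hR : 4 ≤ R) (j : ℕ) :
    ∑ r ∈ range j, R ^ (r + 1) ≤ 4 / 3 * R ^ j := by
  induction j with
  | zero => norm_num
  | succ j ih =>
    rw [Finset.sum_range_succ, pow_succ]
    have hp : 0 < R ^ j := by positivity
    nlinarith

private lemma recur_lin {R : ℝ} (hR : 4 ≤ R) (j : ℕ) : (j : ℝ) + 1 ≤ 8 / 3 * R ^ j := by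
  induction j with
  | zero => norm_num
  | succ j ih =>
    rw [pow_succ]
    have hp : 0 < R ^ j := by positivity
    push_cast
    nlinarith [Nat.cast_nonneg (α := ℝ) j]

theorem logderiv_bound {q : ℕ} (χ : DirichletCharacter ℂ q) (s : ℂ) (hs : 1 < s.re)
    (M k m : ℝ) (hm : 0 < m) (hmM : m ≤ M) (hk : 0 < k)
    (h0 : m ≤ ‖LSeries (fun n => χ (n : ZMod q)) s‖)
    (hi : ∀ i : ℕ, ‖LSeries (fun n => χ (n : ZMod q) * ((Real.log n : ℝ) : ℂ) ^ i) s‖ ≤
      M * i.factorial * k ^ i) (j : ℕ) :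
    ‖LSeries (fun n => ((vonMangoldt n : ℝ) : ℂ) * χ (n : ZMod q) *
        ((Real.log n : ℝ) : ℂ) ^ j) s‖ ≤ j.factorial * (4 * k * M / m) ^ (j + 1) := by
  set R : ℝ := 4 * M / m with hR
  have hM : 0 < M := lt_of_lt_of_le hm hmM
  have hR4 : 4 ≤ R := by
    rw [hR, le_div_iff₀ hm]
    nlinarith
  have hRk : 4 * k * M / m = R * k := by
    rw [hR]
    ring
  rw [hRk]
  induction j using Nat.strong_induction_on with
  | _ j ih =>
    set D : ℕ → ℂ := fun r => LSeries (fun n => ((vonMangoldt n : ℝ) : ℂ) * χ (n : ZMod q) *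
        ((Real.log n : ℝ) : ℂ) ^ r) s with hD
    set Lf : ℕ → ℂ := fun i => LSeries (fun n => χ (n : ZMod q) *
      ((Real.log n : ℝ) : ℂ) ^ i) s with hLf
    have hL0 : Lf 0 = LSeries (fun n => χ (n : ZMod q)) s := by
      simp [hLf]
    have hle := leibniz χ s hs j
    rw [Finset.sum_range_succ] at hle
    have hDj : D j * Lf 0 = Lf (j + 1) - ∑ r ∈ range j, (j.choose r : ℂ) * (D r * Lf (j - r)) := by
      have h5 : Lf (j + 1) = ∑ r ∈ range j, (j.choose r : ℂ) * (D r * Lf (j - r)) +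
          (j.choose j : ℂ) * (D j * Lf (j - j)) := hle
      rw [h5]
      simp
    have hb1 : ‖D j‖ * m ≤ ‖D j * Lf 0‖ := by
      rw [norm_mul, hL0]
      exact mul_le_mul_of_nonneg_left h0 (norm_nonneg _)
    have hterm : ∀ r ∈ range j, ‖(j.choose r : ℂ) * (D r * Lf (j - r))‖ ≤
        M * j.factorial * k ^ (j + 1) * R ^ (r + 1) := by
      intro r hr
      have hrj : r < j := Finset.mem_range.mp hr
      have h6 : ‖D r‖ ≤ r.factorial * (R * k) ^ (r + 1) := ih r hrj
      have h7 : ‖Lf (j - r)‖ ≤ M * (j - r).factorial * k ^ (j - r) := hi (j - r)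
      rw [norm_mul, norm_mul, Complex.norm_natCast]
      have h8 : (j.choose r : ℝ) * (r.factorial * (j - r).factorial) = j.factorial := by
        have := Nat.choose_mul_factorial_mul_factorial hrj.le
        rw [← mul_assoc]
        exact_mod_cast this
      calc (j.choose r : ℝ) * (‖D r‖ * ‖Lf (j - r)‖)
          ≤ (j.choose r : ℝ) * ((r.factorial * (R * k) ^ (r + 1)) *
              (M * (j - r).factorial * k ^ (j - r))) := by
            apply mul_le_mul_of_nonneg_left _ (Nat.cast_nonneg _)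
            apply mul_le_mul h6 h7 (norm_nonneg _)
            positivity
        _ = M * ((j.choose r : ℝ) * (r.factorial * (j - r).factorial)) *
              (k ^ (r + 1) * k ^ (j - r)) * R ^ (r + 1) := by
            rw [mul_pow]
            ring
        _ = M * j.factorial * k ^ (j + 1) * R ^ (r + 1) := by
            rw [h8, ← pow_add]
            congr 3
            omega
    have hb2 : ‖D j * Lf 0‖ ≤ M * j.factorial * k ^ (j + 1) * ((j : ℝ) + 1) +
        M * j.factorial * k ^ (j + 1) * ∑ r ∈ range j, R ^ (r + 1) := by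
      rw [hDj]
      refine (norm_sub_le _ _).trans (add_le_add ?_ ?_)
      · refine (hi (j + 1)).trans (le_of_eq ?_)
        rw [Nat.factorial_succ]
        push_cast
        ring
      · refine (norm_sum_le _ _).trans ?_
        rw [Finset.mul_sum]
        exact Finset.sum_le_sum hterm
    have hb3 : (j : ℝ) + 1 + ∑ r ∈ range j, R ^ (r + 1) ≤ 4 * R ^ j := by
      linarith [recur_geom hR4 j, recur_lin hR4 j]
    have hb4 : ‖D j‖ * m ≤ M * j.factorial * k ^ (j + 1) * (4 * R ^ j) := by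
      refine hb1.trans (hb2.trans ?_)
      rw [← mul_add]
      exact mul_le_mul_of_nonneg_left hb3 (by positivity)
    have hb5 : ‖D j‖ ≤ M * j.factorial * k ^ (j + 1) * (4 * R ^ j) / m := by
      rw [le_div_iff₀ hm]
      exact hb4
    refine hb5.trans (le_of_eq ?_)
    rw [mul_pow, pow_succ R j]
    have : R = 4 * M / m := hR
    rw [show (j.factorial : ℝ) * (R ^ j * R * k ^ (j + 1)) =
      j.factorial * R ^ j * k ^ (j + 1) * R by ring]
    nth_rewrite 3 [this]
    field_simp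

end BVM
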