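import Pool.Agent.helper24.BV.Tail

/-!
# BVA-LTriv: the principal character, `1 < Re s ≤ 2`

PROOF.  (`LTriv_real`) `‖L(σ,χ₀)‖ ≤ ∑ n^(-σ) ≤ 1 + 1/(σ-1) ≤ 2/(σ-1)`.
(`LTriv`) Let `f n = χ₀(n)`, `ρ = φ(q)/q`, `F(u) = ∑_{n ≤ u} f n = ρ u + E(u)`, `|E| ≤ q` (count full
periods), `X = q(|t|+2)`.  For `N → ∞` Abel summation on `(X, N]`:
`∑_{n > X} f n n^(-s) = -F(X) X^(-s) + s ∫_X^∞ F(u) u^(-s-1) du`
`= -F(X) X^(-s) + s ρ X^(1-s)/(s-1) + s ∫_X^∞ E(u) u^(-s-1) du`.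
Norms: `‖F(X) X^(-s)‖ ≤ 1`; `‖s/(s-1)‖ ≤ 1 + 1/|t|`, `‖X^(1-s)‖ ≤ 1`, `ρ ≤ 1`; the last
`≤ ‖s‖ q /X ≤ 1`.  The part `n ≤ X`: `≤ 1 + log X = 1 + ell q t`; and `ell q t ≥ log 2 > 0.69`.
(A variant without integrals: compare block sums over periods `(kq, (k+1)q]` with `ρ ∫`.)
(`L_lower_triv`) `L(s,χ) * LSeries (μ χ) s = 1` (Mathlib `DirichletCharacter.LSeries.mul_mu_eq_one`) and
`‖LSeries (μ χ) s‖ ≤ ∑ n^(-σ) ≤ 2/(σ-1)`.
-/

open Finset ArithmeticFunction Complex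

namespace BVM

private lemma ltriv_tsum {σ : ℝ} (h1 : 1 < σ) (h2 : σ ≤ 2) :
    ∑' n : ℕ, 1 / (n + 1 : ℝ) ^ σ ≤ 2 / (σ - 1) := by
  have h := ZetaAsymptotics.zeta_limit_aux1 h1
  have h0 : 0 ≤ ZetaAsymptotics.termTSum σ :=
    tsum_nonneg fun n => ZetaAsymptotics.term_nonneg _ _
  have h3 : 0 < σ - 1 := by linarith
  have h4 : 2 / (σ - 1) = 1 / (σ - 1) + 1 / (σ - 1) := by ring
  have h5 : 1 ≤ 1 / (σ - 1) := by
    rw [le_div_iff₀ h3]
    linarith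
  have h6 : 0 ≤ σ * ZetaAsymptotics.termTSum σ := mul_nonneg (by linarith) h0
  rw [h4]
  linarith

private lemma ltriv_norm (f : ℕ → ℂ) (hf : ∀ n, ‖f n‖ ≤ 1) (s : ℂ) (h1 : 1 < s.re)
    (h2 : s.re ≤ 2) : ‖LSeries f s‖ ≤ 2 / (s.re - 1) := by
  have hsum : LSeriesSummable f s :=
    LSeriesSummable_of_bounded_of_one_lt_re (m := 1) (fun n _ => hf n) h1
  have hb : ∀ n : ℕ, ‖LSeries.term f s (n + 1)‖ ≤ 1 / (n + 1 : ℝ) ^ s.re := by
    intro n
    rw [LSeries.norm_term_eq, if_neg (Nat.succ_ne_zero n)]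
    push_cast
    gcongr
    exact hf _
  have hs1 : Summable fun n : ℕ => 1 / (n + 1 : ℝ) ^ s.re := by
    have := (summable_nat_add_iff 1).mpr (Real.summable_one_div_nat_rpow.mpr h1)
    simpa using this
  calc ‖LSeries f s‖ ≤ ∑' n, ‖LSeries.term f s n‖ := norm_tsum_le_tsum_norm hsum.norm
    _ = ‖LSeries.term f s 0‖ + ∑' n, ‖LSeries.term f s (n + 1)‖ :=
        hsum.norm.tsum_eq_zero_add
    _ = ∑' n, ‖LSeries.term f s (n + 1)‖ := by simp
    _ ≤ ∑' n : ℕ, 1 / (n + 1 : ℝ) ^ s.re :=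
        Summable.tsum_le_tsum hb ((summable_nat_add_iff 1).mpr hsum.norm) hs1
    _ ≤ 2 / (s.re - 1) := ltriv_tsum h1 h2

theorem LTriv_real (q : ℕ) (σ : ℝ) (h1 : 1 < σ) (h2 : σ ≤ 2) :
    ‖LSeries (fun n => (1 : DirichletCharacter ℂ q) (n : ZMod q)) (σ : ℂ)‖ ≤ 2 / (σ - 1) := by
  have := ltriv_norm (fun n => (1 : DirichletCharacter ℂ q) (n : ZMod q))
    (fun n => DirichletCharacter.norm_le_one _ _) (σ : ℂ) (by simpa using h1) (by simpa using h2)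
  simpa using this

private lemma ltriv_icc (f : ℕ → ℂ) (N : ℕ) :
    ∑ n ∈ Icc 1 N, f n = ∑ n ∈ range N, f (n + 1) := by
  rw [Finset.range_eq_Ico, Finset.sum_Ico_add' f 0 N 1]
  congr 1

private lemma ltriv_periodic (g : ℕ → ℂ) (q : ℕ) (hq : 0 < q) (B : ℝ) (hB : ∀ n, ‖g n‖ ≤ B)
    (hper : ∀ n, g (q + n) = g n) (hz : ∑ n ∈ range q, g (n + 1) = 0) (N : ℕ) :
    ‖∑ n ∈ Icc 1 N, g n‖ ≤ B * q := by
  have hB0 : 0 ≤ B := (norm_nonneg _).trans (hB 0)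
  rw [ltriv_icc]
  induction N using Nat.strong_induction_on with
  | _ N ih =>
    rcases lt_or_ge N q with hN | hN
    · refine (norm_sum_le _ _).trans ?_
      calc ∑ n ∈ range N, ‖g (n + 1)‖ ≤ ∑ n ∈ range N, B :=
            Finset.sum_le_sum fun n _ => hB _
        _ = B * N := by simp [mul_comm]
        _ ≤ B * q := by
            apply mul_le_mul_of_nonneg_left _ hB0
            exact_mod_cast hN.le
    · obtain ⟨m, rfl⟩ := Nat.exists_eq_add_of_le hN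
      rw [Finset.sum_range_add, hz, zero_add]
      have h2 : ∀ x ∈ range m, g (q + x + 1) = g (x + 1) := by
        intro x _
        rw [add_assoc, hper]
      rw [Finset.sum_congr rfl h2]
      exact ih m (by omega)

private lemma ltriv_cpow_sub {s : ℂ} (hs : 1 ≤ s.re) {n : ℕ} (hn : 1 ≤ n) {u : ℝ}
    (hu : u ∈ Set.Icc (n : ℝ) (n + 1)) :
    ‖(u : ℂ) ^ (-s) - ((n : ℝ) : ℂ) ^ (-s)‖ ≤ ‖s‖ / (n : ℝ) ^ 2 := by
  have hn' : (1 : ℝ) ≤ n := by exact_mod_cast hn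
  have hs0 : s ≠ 0 := by
    rintro rfl
    simp at hs
    linarith
  have hd : ∀ x ∈ Set.Icc (n : ℝ) (n + 1),
      HasDerivWithinAt (fun y : ℝ => (y : ℂ) ^ (-s)) (-s * (x : ℂ) ^ (-s - 1))
        (Set.Icc (n : ℝ) (n + 1)) x := by
    intro x hx
    have hx0 : x ≠ 0 := by
      have := hx.1
      linarith
    have h := hasDerivAt_ofReal_cpow_const hx0 (r := -s) (neg_ne_zero.mpr hs0)
    exact h.hasDerivWithinAt
  have hbd : ∀ x ∈ Set.Ico (n : ℝ) (n + 1), ‖-s * (x : ℂ) ^ (-s - 1)‖ ≤ ‖s‖ / (n : ℝ) ^ 2 := by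
    intro x hx
    have hx1 : (n : ℝ) ≤ x := hx.1
    have hx0 : 0 < x := by linarith
    rw [norm_mul, norm_neg, Complex.norm_cpow_eq_rpow_re_of_pos hx0, div_eq_mul_inv]
    apply mul_le_mul_of_nonneg_left _ (norm_nonneg _)
    have h1 : (-s - 1).re ≤ -2 := by
      simp only [sub_re, neg_re, one_re]
      linarith
    calc x ^ (-s - 1).re ≤ x ^ (-2 : ℝ) :=
          Real.rpow_le_rpow_of_exponent_le (by linarith) h1
      _ = (x ^ 2)⁻¹ := by
          rw [Real.rpow_neg hx0.le]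
          norm_num
      _ ≤ ((n : ℝ) ^ 2)⁻¹ := by gcongr
  have h := norm_image_sub_le_of_norm_deriv_le_segment' hd hbd u hu
  refine h.trans ?_
  have h1 : u - n ≤ 1 := by linarith [hu.2]
  calc ‖s‖ / (n : ℝ) ^ 2 * (u - n) ≤ ‖s‖ / (n : ℝ) ^ 2 * 1 :=
        mul_le_mul_of_nonneg_left h1 (by positivity)
    _ = _ := mul_one _

private noncomputable def ltrivG (s : ℂ) (u : ℝ) : ℂ := (u : ℂ) ^ (-s + 1) / (-s + 1)

private lemma ltriv_step {s : ℂ} (hs : 1 ≤ s.re) (ht : s.im ≠ 0) {n : ℕ} (hn : 1 ≤ n) :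
    ‖(n : ℂ) ^ (-s) - (ltrivG s (n + 1) - ltrivG s n)‖ ≤ ‖s‖ / (n : ℝ) ^ 2 := by
  have hn' : (1 : ℝ) ≤ n := by exact_mod_cast hn
  have hs1 : -s + 1 ≠ 0 := by
    intro h
    have : s = 1 := by linear_combination -h
    rw [this] at ht
    simp at ht
  have hd : ∀ x ∈ Set.Icc (n : ℝ) (n + 1),
      HasDerivWithinAt (fun y : ℝ => ltrivG s y - ((y : ℝ) : ℂ) * ((n : ℝ) : ℂ) ^ (-s))
        ((x : ℂ) ^ (-s) - ((n : ℝ) : ℂ) ^ (-s)) (Set.Icc (n : ℝ) (n + 1)) x := by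
    intro x hx
    have hx0 : x ≠ 0 := by
      have := hx.1
      linarith
    have h : HasDerivAt (fun y : ℝ => ltrivG s y) ((x : ℂ) ^ (-s)) x := by
      have h3 := (hasDerivAt_ofReal_cpow_const hx0 hs1).div_const (-s + 1)
      rw [add_sub_cancel_right, mul_div_cancel_left₀ _ hs1] at h3
      exact h3
    have h2 : HasDerivAt (fun y : ℝ => ((y : ℝ) : ℂ) * ((n : ℝ) : ℂ) ^ (-s))
        (1 * ((n : ℝ) : ℂ) ^ (-s)) x :=
      (Complex.ofRealCLM.hasDerivAt (x := x)).mul_const _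
    rw [one_mul] at h2
    exact (h.sub h2).hasDerivWithinAt
  have hbd : ∀ x ∈ Set.Ico (n : ℝ) (n + 1), ‖(x : ℂ) ^ (-s) - ((n : ℝ) : ℂ) ^ (-s)‖ ≤
      ‖s‖ / (n : ℝ) ^ 2 := fun x hx => ltriv_cpow_sub hs hn ⟨hx.1, hx.2.le⟩
  have h := norm_image_sub_le_of_norm_deriv_le_segment' hd hbd (n + 1 : ℝ)
    ⟨by linarith, le_rfl⟩
  rw [show (n + 1 : ℝ) - n = 1 by ring, mul_one] at h
  refine le_trans (le_of_eq ?_) h
  rw [← norm_neg]
  congr 1
  push_cast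
  ring

private lemma ltriv_G_le {s : ℂ} (hs : 1 ≤ s.re) (ht : s.im ≠ 0) {u : ℝ} (hu : 1 ≤ u) :
    ‖ltrivG s u‖ ≤ 1 / |s.im| := by
  unfold ltrivG
  rw [norm_div, Complex.norm_cpow_eq_rpow_re_of_pos (by linarith)]
  have h1 : u ^ (-s + 1).re ≤ 1 := by
    apply Real.rpow_le_one_of_one_le_of_nonpos hu
    simp only [add_re, neg_re, one_re]
    linarith
  have h2 : |s.im| ≤ ‖-s + 1‖ := by
    have := Complex.abs_im_le_norm (-s + 1)
    simpa using this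
  have h3 : 0 < |s.im| := abs_pos.mpr ht
  gcongr

private lemma ltriv_zeta_tail {s : ℂ} (hs : 1 ≤ s.re) (ht : s.im ≠ 0) {X N : ℕ} (hX : 1 ≤ X)
    (hN : X ≤ N) : ‖∑ n ∈ Ioc X N, (n : ℂ) ^ (-s)‖ ≤ 2 / |s.im| + ‖s‖ / X := by
  have hX' : (1 : ℝ) ≤ X := by exact_mod_cast hX
  have key : ‖∑ n ∈ Ioc X N, (n : ℂ) ^ (-s) - (ltrivG s (N + 1) - ltrivG s (X + 1))‖ ≤
      ‖s‖ * (1 / X - 1 / N) := by
    induction N, hN using Nat.le_induction with
    | base => simp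
    | succ N hN ih =>
      have hN' : (1 : ℝ) ≤ N := hX'.trans (by exact_mod_cast hN)
      rw [Finset.sum_Ioc_succ_top (by omega)]
      have h1 := ltriv_step hs ht (n := N + 1) (by omega)
      have h2 : ∑ n ∈ Ioc X N, (n : ℂ) ^ (-s) + ((N + 1 : ℕ) : ℂ) ^ (-s) -
          (ltrivG s (((N + 1 : ℕ) : ℝ) + 1) - ltrivG s (X + 1)) =
          (∑ n ∈ Ioc X N, (n : ℂ) ^ (-s) - (ltrivG s (N + 1) - ltrivG s (X + 1))) +
          (((N + 1 : ℕ) : ℂ) ^ (-s) - (ltrivG s (((N + 1 : ℕ) : ℝ) + 1) -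
            ltrivG s ((N + 1 : ℕ) : ℝ))) := by
        push_cast
        ring
      rw [h2]
      refine (norm_add_le _ _).trans ((add_le_add ih h1).trans ?_)
      have h3 : 1 / (((N + 1 : ℕ) : ℝ)) ^ 2 ≤ 1 / N - 1 / ((N + 1 : ℕ) : ℝ) := by
        push_cast
        rw [div_sub_div _ _ (by linarith) (by linarith), div_le_div_iff₀ (by positivity)
          (by positivity)]
        nlinarith
      have h4 : ‖s‖ / (((N + 1 : ℕ) : ℝ)) ^ 2 ≤ ‖s‖ * (1 / N - 1 / ((N + 1 : ℕ) : ℝ)) := by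
        rw [div_eq_mul_one_div]
        exact mul_le_mul_of_nonneg_left h3 (norm_nonneg _)
      calc ‖s‖ * (1 / X - 1 / N) + ‖s‖ / (((N + 1 : ℕ) : ℝ)) ^ 2
          ≤ ‖s‖ * (1 / X - 1 / N) + ‖s‖ * (1 / N - 1 / ((N + 1 : ℕ) : ℝ)) := by linarith
        _ = ‖s‖ * (1 / X - 1 / ((N + 1 : ℕ) : ℝ)) := by ring
  have hG1 := ltriv_G_le hs ht (u := (N : ℝ) + 1) (by linarith [Nat.cast_nonneg (α := ℝ) N])
  have hG2 := ltriv_G_le hs ht (u := (X : ℝ) + 1) (by linarith)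
  have h5 : ‖s‖ * (1 / X - 1 / N) ≤ ‖s‖ / X := by
    rw [div_eq_mul_one_div ‖s‖]
    apply mul_le_mul_of_nonneg_left _ (norm_nonneg _)
    have : (0 : ℝ) ≤ 1 / N := by positivity
    linarith
  have h6 : ∑ n ∈ Ioc X N, (n : ℂ) ^ (-s) = (∑ n ∈ Ioc X N, (n : ℂ) ^ (-s) -
      (ltrivG s (N + 1) - ltrivG s (X + 1))) + (ltrivG s (N + 1) - ltrivG s (X + 1)) := by ring
  rw [h6]
  refine (norm_add_le _ _).trans ?_
  have h7 := norm_sub_le (ltrivG s (N + 1)) (ltrivG s (X + 1))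
  have h8 : 2 / |s.im| = 1 / |s.im| + 1 / |s.im| := by ring
  rw [h8]
  linarith

theorem LTriv : ∃ C : ℝ, 1 ≤ C ∧ ∀ (q : ℕ), q ≠ 0 → ∀ s : ℂ, 1 < s.re → s.re ≤ 2 → s.im ≠ 0 →
    ‖LSeries (fun n => (1 : DirichletCharacter ℂ q) (n : ZMod q)) s‖ ≤
      C * ell q s.im * (1 + 1 / |s.im|) := by
  refine ⟨40, by norm_num, ?_⟩
  intro q hq s h1 h2 ht
  have hq1 : 0 < q := Nat.pos_of_ne_zero hq
  have hq1' : (1 : ℝ) ≤ q := by exact_mod_cast hq1
  set f : ℕ → ℂ := fun n => (1 : DirichletCharacter ℂ q) (n : ZMod q) with hf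
  have hf1 : ∀ n, ‖f n‖ ≤ 1 := fun n => DirichletCharacter.norm_le_one _ _
  have hper : ∀ n, f (q + n) = f n := by
    intro n
    simp only [hf]
    congr 1
    push_cast
    rw [ZMod.natCast_self, zero_add]
  set ρ : ℂ := (∑ n ∈ range q, f (n + 1)) / q with hρ
  have hρ1 : ‖ρ‖ ≤ 1 := by
    rw [hρ, norm_div, Complex.norm_natCast, div_le_one (by linarith)]
    refine (norm_sum_le _ _).trans ?_
    calc ∑ n ∈ range q, ‖f (n + 1)‖ ≤ ∑ n ∈ range q, (1 : ℝ) :=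
          Finset.sum_le_sum fun n _ => hf1 _
      _ = q := by simp
  have hg : ∀ N : ℕ, ‖∑ n ∈ Icc 1 N, (f n - ρ)‖ ≤ 2 * q := by
    intro N
    refine ltriv_periodic (fun n => f n - ρ) q hq1 2 ?_ ?_ ?_ N
    · intro n
      exact (norm_sub_le _ _).trans (by linarith [hf1 n])
    · intro n
      simp only [hper]
    · rw [Finset.sum_sub_distrib, Finset.sum_const, Finset.card_range, nsmul_eq_mul, hρ,
        mul_div_cancel₀ _ (by exact_mod_cast hq), sub_self]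
  set ℓ := ell q s.im with hℓ
  set Y : ℝ := q * (|s.im| + 2) with hY
  have ht0 : 0 < |s.im| := abs_pos.mpr ht
  have hY2 : 2 ≤ Y := by
    rw [hY]
    nlinarith
  have hℓY : ℓ = Real.log Y := rfl
  have hℓ2 : 0.69 ≤ ℓ := by
    have := Real.log_two_gt_d9
    have h3 : Real.log 2 ≤ Real.log Y := Real.log_le_log (by norm_num) hY2
    rw [hℓY]
    linarith
  set X : ℕ := ⌊Y⌋₊ + 1 with hX
  have hYX : Y < X := by
    have := Nat.lt_floor_add_one Y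
    rw [hX]
    exact_mod_cast this
  have hXY : (X : ℝ) ≤ 2 * Y := by
    have := Nat.floor_le (show 0 ≤ Y by linarith)
    rw [hX]
    push_cast
    linarith
  have hX3 : 3 ≤ X := by
    have : 2 ≤ ⌊Y⌋₊ := Nat.le_floor (by exact_mod_cast hY2)
    omega
  have hX0 : (0 : ℝ) < X := by linarith
  have hlogX : Real.log X ≤ 0.7 + ℓ := by
    have h3 : Real.log X ≤ Real.log (2 * Y) := Real.log_le_log hX0 hXY
    rw [Real.log_mul (by norm_num) (by linarith)] at h3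
    have := Real.log_two_lt_d9
    rw [hℓY]
    linarith
  have hsn : ‖s‖ ≤ |s.im| + 2 := by
    refine (Complex.norm_le_abs_re_add_abs_im s).trans ?_
    rw [abs_of_pos (by linarith : 0 < s.re)]
    linarith
  have hsX : ‖s‖ * q ≤ X := by
    calc ‖s‖ * q ≤ (|s.im| + 2) * q := mul_le_mul_of_nonneg_right hsn (by linarith)
      _ = Y := by
          rw [hY]
          ring
      _ ≤ X := hYX.le
  have hsum : LSeriesSummable f s :=
    LSeriesSummable_of_bounded_of_one_lt_re (m := 1) (fun n _ => hf1 n) h1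
  -- first part
  have hA : ‖∑ n ∈ Icc 1 X, LSeries.term f s n‖ ≤ 1.7 + ℓ := by
    refine (norm_sum_le _ _).trans ?_
    have hb : ∀ n ∈ Icc 1 X, ‖LSeries.term f s n‖ ≤ 1 / (n : ℝ) := by
      intro n hn
      obtain ⟨hn1, hnX⟩ := Finset.mem_Icc.mp hn
      have hn0 : n ≠ 0 := by omega
      have hn1' : (1 : ℝ) ≤ n := by exact_mod_cast hn1
      rw [LSeries.norm_term_eq, if_neg hn0]
      have hpow : (n : ℝ) ≤ (n : ℝ) ^ s.re := by
        calc (n : ℝ) = (n : ℝ) ^ (1 : ℝ) := (Real.rpow_one _).symm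
          _ ≤ (n : ℝ) ^ s.re := Real.rpow_le_rpow_of_exponent_le hn1' h1.le
      have := hf1 n
      gcongr
    refine (Finset.sum_le_sum hb).trans ?_
    have hh := harmonic_le_one_add_log X
    have he : ((harmonic X : ℚ) : ℝ) = ∑ n ∈ Icc 1 X, 1 / (n : ℝ) := by
      rw [harmonic_eq_sum_Icc]
      push_cast
      simp
    rw [← he]
    linarith
  have hB : ∀ N : ℕ, X ≤ N → ‖∑ n ∈ Ioc X N, LSeries.term f s n‖ ≤ 19 + 2 / |s.im| := by
    intro N hN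
    have h3 := tail_bound (fun n => f n - ρ) (2 * q) hg 0 X N hX3 s h1.le
    have h4 := ltriv_zeta_tail h1.le ht (X := X) (N := N) (by omega) hN
    have he : ∑ n ∈ Ioc X N, LSeries.term f s n =
        ∑ n ∈ Ioc X N, (f n - ρ) * ((Real.log n : ℝ) : ℂ) ^ 0 * (n : ℂ) ^ (-s) +
          ρ * ∑ n ∈ Ioc X N, (n : ℂ) ^ (-s) := by
      rw [Finset.mul_sum, ← Finset.sum_add_distrib]
      refine Finset.sum_congr rfl fun n hn => ?_
      have hn0 : n ≠ 0 := by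
        have := (Finset.mem_Ioc.mp hn).1
        omega
      rw [LSeries.term_of_ne_zero hn0, cpow_neg, div_eq_mul_inv]
      ring
    rw [he]
    refine (norm_add_le _ _).trans ?_
    have h5 : 9 * (2 * (q : ℝ)) * (‖s‖ + ((0 : ℕ) : ℝ)) * ((Nat.factorial 0 : ℕ) : ℝ) *
        Real.log X ^ 0 / X ≤ 18 := by
      rw [div_le_iff₀ hX0]
      simp
      nlinarith
    have h6 : ‖s‖ / X ≤ 1 := by
      rw [div_le_one hX0]
      nlinarith [norm_nonneg s]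
    have h7 : ‖ρ * ∑ n ∈ Ioc X N, (n : ℂ) ^ (-s)‖ ≤ 1 + 2 / |s.im| := by
      rw [norm_mul]
      calc ‖ρ‖ * ‖∑ n ∈ Ioc X N, (n : ℂ) ^ (-s)‖ ≤ 1 * (2 / |s.im| + ‖s‖ / X) :=
            mul_le_mul hρ1 h4 (norm_nonneg _) (by norm_num)
        _ ≤ 1 + 2 / |s.im| := by linarith
    have h8 := h3.trans h5
    linarith
  have hC : ∀ N : ℕ, X ≤ N → ‖∑ n ∈ range (N + 1), LSeries.term f s n‖ ≤
      40 * ℓ * (1 + 1 / |s.im|) := by
    intro N hN
    have he : ∑ n ∈ range (N + 1), LSeries.term f s n =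
        ∑ n ∈ Icc 1 X, LSeries.term f s n + ∑ n ∈ Ioc X N, LSeries.term f s n := by
      rw [Finset.sum_range_succ', LSeries.term_zero, add_zero, ← ltriv_icc]
      have : Icc 1 N = Ioc 0 N := by
        ext
        simp [Finset.mem_Icc, Finset.mem_Ioc, Nat.succ_le_iff]
      have h' : Icc 1 X = Ioc 0 X := by
        ext
        simp [Finset.mem_Icc, Finset.mem_Ioc, Nat.succ_le_iff]
      rw [this, h', Finset.sum_Ioc_consecutive _ (Nat.zero_le _) hN]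
    rw [he]
    refine (norm_add_le _ _).trans ((add_le_add hA (hB N hN)).trans ?_)
    have hi : 0 < 1 / |s.im| := by positivity
    have h9 : 2 / |s.im| = 2 * (1 / |s.im|) := by ring
    rw [h9]
    nlinarith
  have hlim := (hsum.hasSum.tendsto_sum_nat.comp (Filter.tendsto_add_atTop_nat 1)).norm
  refine le_of_tendsto hlim ?_
  filter_upwards [Filter.eventually_ge_atTop X] with N hN
  exact hC N hN

theorem L_lower_triv {q : ℕ} (χ : DirichletCharacter ℂ q) (s : ℂ) (h1 : 1 < s.re)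
    (h2 : s.re ≤ 2) : (s.re - 1) / 2 ≤ ‖LSeries (fun n => χ (n : ZMod q)) s‖ := by
  have h := DirichletCharacter.LSeries.mul_mu_eq_one χ h1
  set g : ℕ → ℂ := (fun n : ℕ => χ (n : ZMod q)) * (fun n : ℕ => ((ArithmeticFunction.moebius n : ℤ) : ℂ))
    with hg
  have hg1 : ∀ n, ‖g n‖ ≤ 1 := by
    intro n
    simp only [hg, Pi.mul_apply, norm_mul]
    have h3 : ‖((ArithmeticFunction.moebius n : ℤ) : ℂ)‖ ≤ 1 := by
      rw [Complex.norm_intCast]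
      exact_mod_cast ArithmeticFunction.abs_moebius_le_one
    exact mul_le_one₀ (χ.norm_le_one _) (norm_nonneg _) h3
  have h4 := ltriv_norm g hg1 s h1 h2
  have h5 : ‖LSeries (fun n : ℕ => χ (n : ZMod q)) s‖ * ‖LSeries g s‖ = 1 := by
    rw [← norm_mul]
    have : LSeries (fun n : ℕ => χ (n : ZMod q)) s * LSeries g s = 1 := h
    rw [this, norm_one]
  have h6 : 0 < s.re - 1 := by linarith
  have h7 : 0 < ‖LSeries (fun n : ℕ => χ (n : ZMod q)) s‖ := by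
    rcases (norm_nonneg (LSeries (fun n : ℕ => χ (n : ZMod q)) s)).eq_or_lt with h8 | h8
    · rw [← h8, zero_mul] at h5
      norm_num at h5
    · exact h8
  rw [le_div_iff₀ h6] at h4
  rw [div_le_iff₀ (by norm_num)]
  nlinarith

end BVM
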