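import Pool.Agent.helper24.BV.ZUp
import Pool.Agent.helper24.BV.LTriv

/-!
# BVA-ZLow: lower bound for zeta, `1 < Re s ≤ 2`, `|Im s| ≥ 1`

PROOF.  Same as LLow with `q = 1`, `ℓ = ell 1 t ≥ 1`: Mathlib `norm_LSeries_product_ge_one` for the
character `1` modulo 1 (`χ n = 1` for all `n ≥ 1`, so its LSeries is that of the constant function 1):
`1 ≤ (2/(σ-1))³ ‖ζ(s)‖⁴ ‖ζ(σ+2it)‖`, `‖ζ(σ+2it)‖ ≤ C ell 1 (2t) ≤ 2Cℓ` (`ZUp`, `i = 0`), so
`‖ζ(s)‖⁴ ≥ c (σ-1)³/ℓ`.  With `σ₁ = 1 + c₁/ℓ⁹` and `‖ζ'‖ ≤ 2Cℓ²` (`ZUp`, `i = 1`; horizontal segment)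
as in `lift`: `‖ζ(s)‖ ≥ c'/ℓ⁷`.
-/

open Finset ArithmeticFunction Complex

namespace BVM

namespace ZLowAux

theorem chi_one (n : ℕ) : (1 : DirichletCharacter ℂ 1) (n : ZMod 1) = 1 := by
  apply MulChar.one_apply
  exact isUnit_of_subsingleton _

theorem ell_ge {t : ℝ} (ht : 1 ≤ |t|) : 1 ≤ ell 1 t := by
  unfold ell
  rw [Real.le_log_iff_exp_le (by positivity)]
  have := Real.exp_one_lt_d9
  push_cast
  linarith

theorem ell_two {t : ℝ} (ht : 1 ≤ |t|) : ell 1 (2 * t) ≤ 2 * ell 1 t := by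
  unfold ell
  have h1 : (2 : ℝ) * Real.log (((1 : ℕ) : ℝ) * (|t| + 2)) =
      Real.log ((((1 : ℕ) : ℝ) * (|t| + 2)) ^ 2) := by
    rw [Real.log_pow]; push_cast; ring
  rw [h1]
  apply Real.log_le_log (by positivity)
  rw [abs_mul, abs_two]
  push_cast
  nlinarith [abs_nonneg t]

theorem hasDeriv (t x : ℝ) (hx : 1 < x) :
    HasDerivAt (fun y : ℝ => LSeries (fun _ => (1 : ℂ)) ((y : ℂ) + t * I))
      (-LSeries (fun n => ((Real.log n : ℝ) : ℂ) ^ 1) ((x : ℂ) + t * I)) x := by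
  have hre : ((x : ℂ) + t * I).re = x := by simp
  have h0 : LSeries.abscissaOfAbsConv (fun _ : ℕ => (1 : ℂ)) < ((x : ℂ) + t * I).re := by
    have h1 : LSeries.abscissaOfAbsConv (fun _ : ℕ => (1 : ℂ)) = 1 :=
      LSeries.abscissaOfAbsConv_one
    rw [h1, hre]
    exact_mod_cast hx
  have h1 := LSeries_hasDerivAt h0
  have h2 : LSeries (LSeries.logMul (fun _ : ℕ => (1 : ℂ))) ((x : ℂ) + t * I) =
      LSeries (fun n => ((Real.log n : ℝ) : ℂ) ^ 1) ((x : ℂ) + t * I) := by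
    apply LSeries_congr
    intro n hn
    simp [LSeries.logMul, Complex.natCast_log]
  rw [h2] at h1
  have h3 : HasDerivAt (fun z : ℂ => z + t * I) 1 (x : ℂ) := by
    simpa using (hasDerivAt_id (x : ℂ)).add_const ((t : ℂ) * I)
  have h4 := (HasDerivAt.comp (x : ℂ) h1 h3).comp_ofReal
  simpa using h4

theorem key (C : ℝ) (hC : 1 ≤ C)
    (hU : ∀ (i : ℕ) (s : ℂ), 1 < s.re → s.re ≤ 2 → 1 ≤ |s.im| →
    ‖LSeries (fun n => ((Real.log n : ℝ) : ℂ) ^ i) s‖ ≤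
      C * i.factorial * (2 * ell 1 s.im) ^ i * ell 1 s.im)
    (t : ℝ) (ht : 1 ≤ |t|) (x : ℝ) (h1 : 1 < x) (h2 : x ≤ 2) :
    1 / (16 * C) * (x - 1) ^ 3 / ell 1 t ≤
      ‖LSeries (fun _ => (1 : ℂ)) ((x : ℂ) + t * I)‖ ^ 4 := by
  have hl := ell_ge ht
  have hl0 : 0 < ell 1 t := by linarith
  have hx0 : 0 < x - 1 := by linarith
  have h3 := DirichletCharacter.norm_LSeries_product_ge_one (1 : DirichletCharacter ℂ 1) hx0 t
  have e1 : (fun n : ℕ => (1 : DirichletCharacter ℂ 1) (n : ZMod 1)) = fun _ => (1 : ℂ) := by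
    funext n; exact chi_one n
  have e2 : (1 : DirichletCharacter ℂ 1) ^ 2 = 1 := one_pow 2
  rw [e2, norm_mul, norm_mul, norm_pow, norm_pow] at h3
  have a1 : (1 : ℂ) + ((x - 1 : ℝ) : ℂ) = (x : ℂ) := by push_cast; ring
  rw [a1] at h3
  have hA := LTriv_real 1 x h1 h2
  rw [e1] at h3 hA
  have hB := hU 0 ((x : ℂ) + 2 * I * t) (by simpa using h1) (by simpa using h2) (by
    simp only [add_im, ofReal_im, mul_im, I_im, I_re, mul_re, ofReal_re]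
    norm_num
    linarith)
  simp only [pow_zero, Nat.factorial_zero, Nat.cast_one, mul_one] at hB
  have him : ((x : ℂ) + 2 * I * t).im = 2 * t := by simp
  rw [him] at hB
  have hB2 : ‖LSeries (fun _ => (1 : ℂ)) ((x : ℂ) + 2 * I * t)‖ ≤ C * (2 * ell 1 t) :=
    hB.trans (mul_le_mul_of_nonneg_left (ell_two ht) (by linarith))
  have e3 : (x : ℂ) + I * t = (x : ℂ) + t * I := by ring
  rw [e3] at h3
  set A := ‖LSeries (fun _ => (1 : ℂ)) (x : ℂ)‖ with hAdef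
  set F := ‖LSeries (fun _ => (1 : ℂ)) ((x : ℂ) + t * I)‖ with hF
  set B := ‖LSeries (fun _ => (1 : ℂ)) ((x : ℂ) + 2 * I * t)‖ with hBdef
  have hA0 : 0 ≤ A := norm_nonneg _
  have hB0 : 0 ≤ B := norm_nonneg _
  have hF0 : 0 ≤ F := norm_nonneg _
  have h4 : A ^ 3 * F ^ 4 * B ≤ (2 / (x - 1)) ^ 3 * F ^ 4 * (C * (2 * ell 1 t)) := by
    gcongr
  have h5 : 1 ≤ (2 / (x - 1)) ^ 3 * F ^ 4 * (C * (2 * ell 1 t)) := le_trans h3 h4
  have h6 : (2 / (x - 1)) ^ 3 * F ^ 4 * (C * (2 * ell 1 t)) =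
      F ^ 4 * (16 * C * ell 1 t / (x - 1) ^ 3) := by
    field_simp
    ring
  rw [h6] at h5
  have hC0 : 0 < C := by linarith
  have h7 : 0 < 16 * C * ell 1 t / (x - 1) ^ 3 := by positivity
  have h8 : 1 / (16 * C) * (x - 1) ^ 3 / ell 1 t = 1 / (16 * C * ell 1 t / (x - 1) ^ 3) := by
    field_simp
  rw [h8, div_le_iff₀ h7]
  exact h5

end ZLowAux

open ZLowAux in
theorem ZLow : ∃ c : ℝ, 0 < c ∧ ∀ s : ℂ, 1 < s.re → s.re ≤ 2 → 1 ≤ |s.im| →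
    c / ell 1 s.im ^ 7 ≤ ‖LSeries (fun _ => (1 : ℂ)) s‖ := by
  obtain ⟨C, hC, hU⟩ := ZUp
  have hC0 : 0 < C := by linarith
  set c₁ : ℝ := 1 / (16 * C) / (4 * C) ^ 4 with hc₁
  have hc₁0 : 0 < c₁ := by positivity
  have hc₁1 : c₁ ≤ 1 := by
    rw [hc₁, div_div, div_le_one (by positivity)]
    have h1 : 1 ≤ 16 * C := by linarith
    have h2 : 1 ≤ (4 * C) ^ 4 := one_le_pow₀ (by linarith)
    exact one_le_mul_of_one_le_of_one_le h1 h2
  refine ⟨2 * C * c₁, by positivity, fun s hs1 hs2 ht => ?_⟩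
  set t := s.im with htdef
  set σ := s.re with hσdef
  have hs : s = (σ : ℂ) + t * I := (re_add_im s).symm
  set ℓ := ell 1 t with hℓ
  have hl : 1 ≤ ℓ := ell_ge ht
  have hl0 : 0 < ℓ := by linarith
  rw [hs]
  set σ₁ : ℝ := 1 + c₁ / ℓ ^ 9 with hσ₁
  have hd0 : 0 < c₁ / ℓ ^ 9 := by positivity
  have hd1 : c₁ / ℓ ^ 9 ≤ 1 := by
    rw [div_le_one (by positivity)]
    exact hc₁1.trans (one_le_pow₀ hl)
  -- lower bound for x ≥ σ₁
  have hlow : ∀ x : ℝ, σ₁ ≤ x → x ≤ 2 → 4 * C * c₁ / ℓ ^ 7 ≤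
      ‖LSeries (fun _ => (1 : ℂ)) ((x : ℂ) + t * I)‖ := by
    intro x hx1 hx2
    have h1 := key C hC hU t ht x (by linarith) hx2
    have h2 : (4 * C * c₁ / ℓ ^ 7) ^ 4 ≤ 1 / (16 * C) * (x - 1) ^ 3 / ℓ := by
      have h3 : 1 / (16 * C) * (c₁ / ℓ ^ 9) ^ 3 / ℓ ≤ 1 / (16 * C) * (x - 1) ^ 3 / ℓ := by
        have : c₁ / ℓ ^ 9 ≤ x - 1 := by linarith
        gcongr
      refine le_trans (le_of_eq ?_) h3
      have h4 : (4 * C) ^ 4 * c₁ = 1 / (16 * C) := by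
        rw [hc₁]; field_simp
      rw [← h4]
      field_simp
    have h3 := h2.trans h1
    exact le_of_pow_le_pow_left₀ (by norm_num) (norm_nonneg _) h3
  rcases le_or_gt σ₁ σ with hcase | hcase
  · refine le_trans ?_ (hlow σ hcase hs2)
    have : 2 * C * c₁ ≤ 4 * C * c₁ := by nlinarith
    gcongr
  · have h1 := hlow σ₁ le_rfl (by linarith)
    have h2 : ‖LSeries (fun _ => (1 : ℂ)) ((σ₁ : ℂ) + t * I) -
        LSeries (fun _ => (1 : ℂ)) ((σ : ℂ) + t * I)‖ ≤ (2 * C * ℓ ^ 2) * ‖σ₁ - σ‖ := by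
      have := Convex.norm_image_sub_le_of_norm_hasDerivWithin_le
        (f := fun y : ℝ => LSeries (fun _ => (1 : ℂ)) ((y : ℂ) + t * I))
        (f' := fun y : ℝ => -LSeries (fun n => ((Real.log n : ℝ) : ℂ) ^ 1) ((y : ℂ) + t * I))
        (s := Set.Icc σ σ₁) (x := σ) (y := σ₁) (C := 2 * C * ℓ ^ 2)
        (fun y hy => (hasDeriv t y (lt_of_lt_of_le hs1 hy.1)).hasDerivWithinAt)
        (fun y hy => by
          rw [norm_neg]
          have h3 := hU 1 ((y : ℂ) + t * I) (by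
            have := lt_of_lt_of_le hs1 hy.1; simpa using this) (by
            have : y ≤ 2 := le_trans hy.2 (by linarith)
            simpa using this) (by simpa using ht)
          have h4 : ((y : ℂ) + t * I).im = t := by simp
          rw [h4] at h3
          refine h3.trans (le_of_eq ?_)
          simp only [Nat.factorial_one, Nat.cast_one, pow_one]
          ring)
        (convex_Icc σ σ₁) (Set.left_mem_Icc.mpr hcase.le) (Set.right_mem_Icc.mpr hcase.le)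
      exact this
    have h3 : ‖σ₁ - σ‖ ≤ c₁ / ℓ ^ 9 := by
      rw [Real.norm_eq_abs, abs_of_pos (by linarith)]
      linarith
    have h4 : (2 * C * ℓ ^ 2) * ‖σ₁ - σ‖ ≤ 2 * C * c₁ / ℓ ^ 7 := by
      calc (2 * C * ℓ ^ 2) * ‖σ₁ - σ‖ ≤ (2 * C * ℓ ^ 2) * (c₁ / ℓ ^ 9) := by gcongr
        _ = 2 * C * c₁ / ℓ ^ 7 := by field_simp
    have h5 := norm_sub_norm_le (LSeries (fun _ => (1 : ℂ)) ((σ₁ : ℂ) + t * I))
      (LSeries (fun _ => (1 : ℂ)) ((σ : ℂ) + t * I))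
    have h6 : 4 * C * c₁ / ℓ ^ 7 = 2 * (2 * C * c₁ / ℓ ^ 7) := by ring
    linarith

end BVM
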