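import Pool.Agent.helper24.BV.Defs

/-!
# BVA-ZNear: `-ζ'/ζ - ζ` and its derivatives near `s = 1`

PROOF.  Let `Z s = (s-1) ζ(s)` for `s ≠ 1`, `Z 1 = 1`: entire (Mathlib: `riemannZeta_residue_one`,
`differentiableAt_riemannZeta`, removable singularity; or Mathlib's function for `(s-1)ζ(s)` used in
`NumberTheory/LSeries/...`), and `Z s ≠ 0` for `Re s ≥ 1` (`riemannZeta_ne_zero_of_one_le_re`).  For `Re s > 1`
`G(s) := -ζ'/ζ(s) - ζ(s) = -Z'(s)/Z(s) - (Z(s) - 1)/(s-1)`
and the right side (with the difference quotient `dslope Z 1`, entire) is analytic on the open set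
`{Z ≠ 0}`, which contains the compact set `K = {1 ≤ Re s ≤ 2, |Im s| ≤ 1}`.  So every iterated derivative
of the right side is continuous, hence bounded, on `K`.  For `Re s > 1` the `j`-th derivative of `G` is
`(-1)^j LSeries ((Λ - 1) log^j) s` (`LSeries_iteratedDeriv`; `LSeries_vonMangoldt_eq_deriv_riemannZeta_div`,
`LSeries_one_eq_riemannZeta`).
-/

open Finset ArithmeticFunction Complex

namespace BVM

private noncomputable def znZ : ℂ → ℂ := Function.update (fun s ↦ (s - 1) * riemannZeta s) 1 1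

private lemma znZ_one : znZ 1 = 1 := by simp [znZ]

private lemma znZ_of_ne {s : ℂ} (hs : s ≠ 1) : znZ s = (s - 1) * riemannZeta s := by
  simp [znZ, hs]

private lemma znZ_diff : Differentiable ℂ znZ := by
  unfold znZ
  rw [← differentiableOn_univ,
    ← differentiableOn_compl_singleton_and_continuousAt_iff (c := 1) Filter.univ_mem]
  refine ⟨DifferentiableOn.congr (f := fun s ↦ (s - 1) * riemannZeta s)
    (fun s hs ↦ DifferentiableAt.differentiableWithinAt
      ((differentiableAt_id.sub_const 1).mul (differentiableAt_riemannZeta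
        (Set.mem_sdiff_singleton.mp hs).2)))
    fun _ hs ↦ Function.update_of_ne (Set.mem_sdiff_singleton.mp hs).2 .., ?_⟩
  rw [continuousAt_update_same]
  exact riemannZeta_residue_one

private noncomputable def znF : ℂ → ℂ := fun s ↦ -(deriv znZ s / znZ s) - dslope znZ 1 s

private lemma znZ_ne {s : ℂ} (hs : 1 ≤ s.re) : znZ s ≠ 0 := by
  rcases eq_or_ne s 1 with rfl | h
  · rw [znZ_one]; exact one_ne_zero
  · rw [znZ_of_ne h]
    exact mul_ne_zero (sub_ne_zero_of_ne h) (riemannZeta_ne_zero_of_one_le_re hs)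

private lemma znF_analytic : AnalyticOnNhd ℂ znF {s | znZ s ≠ 0} := by
  intro s hs
  have h1 : AnalyticAt ℂ znZ s := znZ_diff.analyticAt s
  have h2 : AnalyticAt ℂ (dslope znZ 1) s := by
    have h3 : Differentiable ℂ (dslope znZ 1) := by
      rw [← differentiableOn_univ]
      rw [Complex.differentiableOn_dslope Filter.univ_mem]
      exact znZ_diff.differentiableOn
    exact h3.analyticAt s
  exact ((h1.deriv.div h1 hs).neg).sub h2

private lemma znF_eq {s : ℂ} (hs : 1 < s.re) :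
    LSeries (fun n => ((vonMangoldt n : ℝ) : ℂ) - 1) s = znF s := by
  have hs1 : s ≠ 1 := by
    rintro rfl
    simp at hs
  have h1 : LSeriesSummable (fun n => ((vonMangoldt n : ℝ) : ℂ)) s := LSeriesSummable_vonMangoldt hs
  have h2 : LSeriesSummable (1 : ℕ → ℂ) s := LSeriesSummable_one_iff.mpr hs
  have h3 : LSeries (fun n => ((vonMangoldt n : ℝ) : ℂ) - 1) s
      = LSeries (fun n => ((vonMangoldt n : ℝ) : ℂ)) s - LSeries 1 s := by
    have := LSeries_sub h1 h2
    rw [← this]
    rfl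
  have h4 : LSeries (fun n => ((vonMangoldt n : ℝ) : ℂ)) s
      = - deriv riemannZeta s / riemannZeta s := LSeries_vonMangoldt_eq_deriv_riemannZeta_div hs
  rw [h3, h4, LSeries_one_eq_riemannZeta hs]
  have hz : riemannZeta s ≠ 0 := riemannZeta_ne_zero_of_one_le_re hs.le
  have hs2 : s - 1 ≠ 0 := sub_ne_zero_of_ne hs1
  have h5 : deriv znZ s = riemannZeta s + (s - 1) * deriv riemannZeta s := by
    have h6 : znZ =ᶠ[nhds s] fun s ↦ (s - 1) * riemannZeta s := by
      filter_upwards [isOpen_ne.mem_nhds hs1] with w hw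
      exact znZ_of_ne hw
    rw [h6.deriv_eq]
    have h7 : HasDerivAt (fun s : ℂ ↦ (s - 1) * riemannZeta s)
        (1 * riemannZeta s + (s - 1) * deriv riemannZeta s) s :=
      ((hasDerivAt_id s).sub_const 1).mul (differentiableAt_riemannZeta hs1).hasDerivAt
    rw [h7.deriv, one_mul]
  have h8 : dslope znZ 1 s = (s - 1)⁻¹ * ((s - 1) * riemannZeta s - 1) := by
    rw [dslope_of_ne _ hs1, slope_def_field, znZ_one, znZ_of_ne hs1]
    field_simp
  unfold znF
  rw [h5, h8, znZ_of_ne hs1]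
  field_simp
  ring

private lemma zn_logMul (f : ℕ → ℂ) (j : ℕ) (n : ℕ) :
    (LSeries.logMul^[j] f) n = ((Real.log n : ℝ) : ℂ) ^ j * f n := by
  induction j generalizing n with
  | zero => simp
  | succ j ih =>
    rw [Function.iterate_succ', Function.comp_apply]
    unfold LSeries.logMul
    rw [ih, Complex.natCast_log, pow_succ]
    ring

theorem ZNear (j : ℕ) : ∃ C : ℝ, ∀ s : ℂ, 1 < s.re → s.re ≤ 2 → |s.im| ≤ 1 →
    ‖LSeries (fun n => (((vonMangoldt n : ℝ) : ℂ) - 1) * ((Real.log n : ℝ) : ℂ) ^ j) s‖ ≤ C := by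
  have hK : IsCompact (Set.Icc (1:ℝ) 2 ×ℂ Set.Icc (-1:ℝ) 1) :=
    isCompact_Icc.reProdIm isCompact_Icc
  have han : AnalyticOnNhd ℂ (iteratedDeriv j znF) {s | znZ s ≠ 0} := by
    rw [iteratedDeriv_eq_iterate]
    exact znF_analytic.iterated_deriv j
  have hc : ContinuousOn (iteratedDeriv j znF) (Set.Icc (1:ℝ) 2 ×ℂ Set.Icc (-1:ℝ) 1) := by
    refine han.continuousOn.mono ?_
    intro s hs
    exact znZ_ne hs.1.1
  obtain ⟨C, hC⟩ := hK.exists_bound_of_continuousOn hc
  refine ⟨C, fun s hs1 hs2 hs3 => ?_⟩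
  have hmem : s ∈ (Set.Icc (1:ℝ) 2 ×ℂ Set.Icc (-1:ℝ) 1) := by
    refine ⟨⟨hs1.le, hs2⟩, ?_⟩
    exact abs_le.mp hs3
  have h1 := hC s hmem
  have hopen : IsOpen {z : ℂ | 1 < z.re} := isOpen_lt continuous_const continuous_re
  have hev : LSeries (fun n => ((vonMangoldt n : ℝ) : ℂ) - 1) =ᶠ[nhds s] znF := by
    filter_upwards [hopen.mem_nhds hs1] with w hw
    exact znF_eq hw
  have h2 : iteratedDeriv j (LSeries (fun n => ((vonMangoldt n : ℝ) : ℂ) - 1)) s
      = iteratedDeriv j znF s := hev.iteratedDeriv_eq j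
  have habs : LSeries.abscissaOfAbsConv (fun n => ((vonMangoldt n : ℝ) : ℂ) - 1) < s.re := by
    have h3 : LSeries.abscissaOfAbsConv (fun n => ((vonMangoldt n : ℝ) : ℂ) - 1) ≤ (1 : ℝ) := by
      refine LSeries.abscissaOfAbsConv_le_of_forall_lt_LSeriesSummable' fun y hy => ?_
      have hy' : 1 < ((y : ℝ) : ℂ).re := by
        rw [Complex.ofReal_re]
        exact_mod_cast hy
      have h4 : LSeriesSummable (fun n => ((vonMangoldt n : ℝ) : ℂ)) (y : ℂ) :=
        LSeriesSummable_vonMangoldt hy'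
      have h5 : LSeriesSummable (1 : ℕ → ℂ) (y : ℂ) := LSeriesSummable_one_iff.mpr hy'
      have h6 := LSeriesSummable.sub h4 h5
      exact h6
    refine lt_of_le_of_lt h3 ?_
    exact_mod_cast hs1
  have h3 := LSeries_iteratedDeriv j habs
  have h4 : LSeries (fun n => (((vonMangoldt n : ℝ) : ℂ) - 1) * ((Real.log n : ℝ) : ℂ) ^ j) s
      = LSeries (LSeries.logMul^[j] (fun n => ((vonMangoldt n : ℝ) : ℂ) - 1)) s := by
    congr 1
    funext n
    rw [zn_logMul]
    ring
  rw [h4]
  rw [h2] at h3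
  rw [h3, norm_mul, norm_pow, norm_neg, norm_one, one_pow, one_mul] at h1
  exact h1

end BVM
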