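import Pool.Agent.helper24.BV.LogTrick
import Pool.Agent.helper24.BV.ZLow
import Pool.Agent.helper24.BV.ZNear
import Pool.Agent.helper24.BV.Recur

/-!
# BVA-PNTerr: the prime number theorem with error `O(x/(log x)^A)`

PROOF.  `b n = Λ n - 1`, `‖b n‖ ≤ 1 + log n`; `k = A + 1`, `j = 8k`, `l = log x ≥ 1`.  On `σ = 1 + 1/l`:
for `|ξ| ≤ 1` the series `∑ b n (log n)^j n^(-s)` is `≤ C` (`ZNear`).  For `1 ≤ |ξ| ≤ l^(8k+2)`:
`LSeries (Λ log^j)` is `≤ j! (4 (2ℓ)(Cℓ) ℓ⁷/c)^(j+1)` by `logderiv_bound` for the character 1 modulo 1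
(`ZUp`, `ZLow`), `LSeries (log^j)` is `≤ C j! (2ℓ)^j ℓ` (`ZUp`), `ℓ = ell 1 ξ ≤ C log (l+2)`; so the
difference is `≤ C l ≤ K l^(6k+1)`.  `log_trick` gives `‖∑_{n ≤ y} (Λ n - 1)‖ ≤ C K x l/l^(A+1)`, and
`∑_{n ≤ y} (Λ n - 1) = ψ(y) - y`.
-/

open Finset ArithmeticFunction Complex

namespace BVM

/-- powers of `ell 1 t` against `l`, for `|t| ≤ l^m` -/
private theorem PNTerr_polylog (N m : ℕ) (hm : 1 ≤ m) : ∃ C : ℝ, 0 ≤ C ∧ ∀ l : ℝ, 1 ≤ l →
    ∀ t : ℝ, |t| ≤ l ^ m → ell 1 t ^ N ≤ C * l := by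
  have hmpos : (0 : ℝ) < m := by exact_mod_cast hm
  have hm1 : (1 : ℝ) ≤ m := by exact_mod_cast hm
  set δ : ℝ := 1 / ((N + 1) * m) with hδ
  have hδpos : 0 < δ := by positivity
  refine ⟨3 / δ ^ N, by positivity, fun l hl t ht => ?_⟩
  have hl0 : 0 < l := by linarith
  have hlm : 1 ≤ l ^ m := one_le_pow₀ hl
  have h1 : |t| + 2 ≤ 3 * l ^ m := by linarith
  have h0 : 0 ≤ |t| + 2 := by positivity
  have hell0 : 0 ≤ ell 1 t := by
    unfold ell
    apply Real.log_nonneg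
    push_cast
    have := abs_nonneg t
    linarith
  have h2 : ell 1 t ≤ (3 * l ^ m) ^ δ / δ := by
    have h : ell 1 t ≤ (|t| + 2) ^ δ / δ := by
      have := Real.log_le_rpow_div h0 hδpos
      simpa [ell] using this
    refine h.trans ?_
    gcongr
  have h3 : ell 1 t ^ N ≤ ((3 * l ^ m) ^ δ / δ) ^ N := pow_le_pow_left₀ hell0 h2 N
  have h4 : ((3 * l ^ m) ^ δ) ^ N ≤ 3 * l := by
    rw [← Real.rpow_natCast, ← Real.rpow_mul (by positivity)]
    have h5 : δ * N ≤ (m : ℝ)⁻¹ := by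
      rw [hδ]
      have h6 : (1 / (((N : ℝ) + 1) * m)) * N = (N / (N + 1)) * (m : ℝ)⁻¹ := by
        field_simp
      rw [h6]
      have h7 : (N : ℝ) / (N + 1) ≤ 1 := by
        rw [div_le_one (by positivity)]
        linarith
      have h8 : 0 ≤ (m : ℝ)⁻¹ := by positivity
      nlinarith
    calc (3 * l ^ m) ^ (δ * N) ≤ (3 * l ^ m) ^ ((m : ℝ)⁻¹) :=
          Real.rpow_le_rpow_of_exponent_le (by linarith) h5
      _ = 3 ^ ((m : ℝ)⁻¹) * (l ^ m) ^ ((m : ℝ)⁻¹) :=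
          Real.mul_rpow (by norm_num) (by positivity)
      _ ≤ 3 * l := by
        rw [Real.pow_rpow_inv_natCast hl0.le (by omega)]
        have h9 : (3 : ℝ) ^ ((m : ℝ)⁻¹) ≤ 3 := by
          calc (3 : ℝ) ^ ((m : ℝ)⁻¹) ≤ 3 ^ (1 : ℝ) :=
                Real.rpow_le_rpow_of_exponent_le (by norm_num) (inv_le_one_of_one_le₀ hm1)
            _ = 3 := Real.rpow_one 3
        exact mul_le_mul_of_nonneg_right h9 hl0.le
  calc ell 1 t ^ N ≤ ((3 * l ^ m) ^ δ / δ) ^ N := h3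
    _ = ((3 * l ^ m) ^ δ) ^ N / δ ^ N := div_pow _ _ _
    _ ≤ 3 * l / δ ^ N := by gcongr
    _ = 3 / δ ^ N * l := by ring

private theorem PNTerr_one_le_ell {t : ℝ} (ht : 1 ≤ |t|) : 1 ≤ ell 1 t := by
  unfold ell
  rw [Real.le_log_iff_exp_le (by positivity)]
  have := Real.exp_one_lt_d9
  push_cast
  linarith

private theorem PNTerr_far (j : ℕ) : ∃ D : ℝ, 0 ≤ D ∧ ∀ s : ℂ, 1 < s.re → s.re ≤ 2 →
    1 ≤ |s.im| →
    ‖LSeries (fun n => (((vonMangoldt n : ℝ) : ℂ) - 1) * ((Real.log n : ℝ) : ℂ) ^ j) s‖ ≤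
      D * ell 1 s.im ^ (9 * (j + 1)) := by
  obtain ⟨Cu, hCu1, hCu⟩ := ZUp
  obtain ⟨cl, hcl, hlow⟩ := ZLow
  set c := min cl 1 with hc
  have hc0 : 0 < c := lt_min hcl one_pos
  have hc1 : c ≤ 1 := min_le_right _ _
  refine ⟨j.factorial * (8 * Cu / c) ^ (j + 1) + Cu * j.factorial * 2 ^ j, by positivity, ?_⟩
  intro s hs1 hs2 hsi
  set ℓ := ell 1 s.im with hℓ
  have hℓ1 : 1 ≤ ℓ := PNTerr_one_le_ell hsi
  have hℓ0 : 0 < ℓ := by linarith
  have hchi : ∀ n : ℕ, (1 : DirichletCharacter ℂ 1) (n : ZMod 1) = 1 := by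
    intro n
    rw [Subsingleton.elim (n : ZMod 1) 1, map_one]
  have hb1 : ∀ n : ℕ, 1 ≤ n → ‖(((vonMangoldt n : ℝ) : ℂ))‖ ≤ 1 + Real.log n := by
    intro n _
    rw [Complex.norm_real, Real.norm_of_nonneg vonMangoldt_nonneg]
    have := vonMangoldt_le_log (n := n)
    linarith
  have hb2 : ∀ n : ℕ, 1 ≤ n → ‖(fun _ : ℕ => (1 : ℂ)) n‖ ≤ 1 + Real.log n := by
    intro n hn
    have : 0 ≤ Real.log n := Real.log_nonneg (by exact_mod_cast hn)
    simp only [norm_one]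
    linarith
  have hS1 := trivD_summable j _ hb1 s hs1
  have hS2 := trivD_summable j _ hb2 s hs1
  have hsub : LSeries (fun n => (((vonMangoldt n : ℝ) : ℂ) - 1) * ((Real.log n : ℝ) : ℂ) ^ j) s =
      LSeries (fun n => ((vonMangoldt n : ℝ) : ℂ) * ((Real.log n : ℝ) : ℂ) ^ j) s -
        LSeries (fun n => ((Real.log n : ℝ) : ℂ) ^ j) s := by
    have h := LSeries_sub hS1 hS2
    have e1 : (fun n : ℕ => (((vonMangoldt n : ℝ) : ℂ) - 1) * ((Real.log n : ℝ) : ℂ) ^ j) =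
        (fun n : ℕ => ((vonMangoldt n : ℝ) : ℂ) * ((Real.log n : ℝ) : ℂ) ^ j) -
          fun n : ℕ => (fun _ : ℕ => (1 : ℂ)) n * ((Real.log n : ℝ) : ℂ) ^ j := by
      funext n
      simp only [Pi.sub_apply]
      ring
    rw [e1, h]
    simp only [one_mul]
  have h1 : ‖LSeries (fun n => ((vonMangoldt n : ℝ) : ℂ) * ((Real.log n : ℝ) : ℂ) ^ j) s‖ ≤
      j.factorial * (8 * Cu / c) ^ (j + 1) * ℓ ^ (9 * (j + 1)) := by
    have h := logderiv_bound (1 : DirichletCharacter ℂ 1) s hs1 (Cu * ℓ) (2 * ℓ) (c / ℓ ^ 7)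
      (by positivity) (by
        have h7 : c / ℓ ^ 7 ≤ 1 := by
          rw [div_le_one (by positivity)]
          exact hc1.trans (one_le_pow₀ hℓ1)
        nlinarith) (by positivity) (by
        simp only [hchi]
        refine le_trans ?_ (hlow s hs1 hs2 hsi)
        have : c ≤ cl := min_le_left _ _
        gcongr) (by
        intro i
        simp only [hchi, one_mul]
        refine (hCu i s hs1 hs2 hsi).trans (le_of_eq ?_)
        ring) j
    simp only [hchi, mul_one] at h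
    refine h.trans (le_of_eq ?_)
    have e : 4 * (2 * ℓ) * (Cu * ℓ) / (c / ℓ ^ 7) = 8 * Cu / c * ℓ ^ 9 := by
      field_simp
      ring
    rw [e, mul_pow, ← pow_mul]
    ring
  have h2 : ‖LSeries (fun n => ((Real.log n : ℝ) : ℂ) ^ j) s‖ ≤
      Cu * j.factorial * 2 ^ j * ℓ ^ (9 * (j + 1)) := by
    refine (hCu j s hs1 hs2 hsi).trans ?_
    have e : Cu * j.factorial * (2 * ℓ) ^ j * ℓ = Cu * j.factorial * 2 ^ j * ℓ ^ (j + 1) := by
      rw [mul_pow, pow_succ]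
      ring
    rw [← hℓ, e]
    have h3 : ℓ ^ (j + 1) ≤ ℓ ^ (9 * (j + 1)) := pow_le_pow_right₀ hℓ1 (by omega)
    gcongr
  rw [hsub]
  refine (norm_sub_le _ _).trans ?_
  rw [add_mul]
  exact add_le_add h1 h2

theorem pnt_err (A : ℕ) : ∃ C : ℝ, ∀ x : ℝ, 3 ≤ x → ∀ y : ℕ, (y : ℝ) ≤ x →
    |Chebyshev.psi y - y| ≤ C * x / Real.log x ^ A := by
  obtain ⟨Cz, hCz⟩ := ZNear (8 * (A + 1))
  obtain ⟨D, hD0, hD⟩ := PNTerr_far (8 * (A + 1))
  obtain ⟨Ct, hCt, hlog⟩ := log_trick (A + 1)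
  obtain ⟨Cp, hCp0, hCp⟩ := PNTerr_polylog (9 * (8 * (A + 1) + 1)) (8 * (A + 1) + 2) (by omega)
  set K : ℝ := max 1 (max Cz (D * Cp)) with hK
  have hK1 : 1 ≤ K := le_max_left _ _
  have hKz : Cz ≤ K := (le_max_left _ _).trans (le_max_right _ _)
  have hKp : D * Cp ≤ K := (le_max_right _ _).trans (le_max_right _ _)
  refine ⟨Ct * K, fun x hx y hy => ?_⟩
  have hx0 : 0 < x := by linarith
  have hl1 : 1 ≤ Real.log x := by
    rw [Real.le_log_iff_exp_le hx0]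
    have := Real.exp_one_lt_d9
    linarith
  have hl0 : 0 < Real.log x := by linarith
  have hb : ∀ n : ℕ, 1 ≤ n → ‖(((vonMangoldt n : ℝ) : ℂ) - 1)‖ ≤ 1 + Real.log n := by
    intro n hn
    have h1 : (((vonMangoldt n : ℝ) : ℂ) - 1) = ((vonMangoldt n - 1 : ℝ) : ℂ) := by push_cast; rfl
    rw [h1, Complex.norm_real, Real.norm_eq_abs, abs_le]
    have h2 := vonMangoldt_le_log (n := n)
    have h3 := vonMangoldt_nonneg (n := n)
    have h4 : 0 ≤ Real.log n := Real.log_nonneg (by exact_mod_cast hn)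
    constructor <;> linarith
  have h := hlog (fun n => (((vonMangoldt n : ℝ) : ℂ) - 1)) x K hx hK1 hb ?_ y hy
  · have e1 : ∑ n ∈ Icc 1 y, (((vonMangoldt n : ℝ) : ℂ) - 1) =
        ((Chebyshev.psi y - y : ℝ) : ℂ) := by
      rw [Finset.sum_sub_distrib]
      have e2 : Chebyshev.psi y = ∑ n ∈ Icc 1 y, vonMangoldt n := by
        rw [Chebyshev.psi, Nat.floor_natCast]
        rfl
      rw [e2]
      push_cast
      simp
    rw [e1, Complex.norm_real, Real.norm_eq_abs] at h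
    refine h.trans (le_of_eq ?_)
    rw [pow_succ]
    field_simp
  · intro ξ hξ
    set s : ℂ := (((1 + 1 / Real.log x : ℝ) : ℂ) + ξ * I) with hs
    have hre : s.re = 1 + 1 / Real.log x := by simp [hs]
    have him : s.im = ξ := by simp [hs]
    have hs1 : 1 < s.re := by
      rw [hre]
      have : 0 < 1 / Real.log x := by positivity
      linarith
    have hs2 : s.re ≤ 2 := by
      rw [hre]
      have : 1 / Real.log x ≤ 1 := by
        rw [div_le_one hl0]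
        exact hl1
      linarith
    have hpow : Real.log x ≤ Real.log x ^ (6 * (A + 1) + 1) :=
      le_self_pow₀ hl1 (by omega)
    have hpow1 : 1 ≤ Real.log x ^ (6 * (A + 1) + 1) := one_le_pow₀ hl1
    by_cases h1 : |ξ| ≤ 1
    · refine (hCz s hs1 hs2 (by rwa [him])).trans ?_
      nlinarith
    · push Not at h1
      refine (hD s hs1 hs2 (by rw [him]; exact h1.le)).trans ?_
      rw [him]
      have h2 := hCp (Real.log x) hl1 ξ hξ
      calc D * ell 1 ξ ^ (9 * (8 * (A + 1) + 1)) ≤ D * (Cp * Real.log x) :=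
            mul_le_mul_of_nonneg_left h2 hD0
        _ = D * Cp * Real.log x := by ring
        _ ≤ K * Real.log x ^ (6 * (A + 1) + 1) :=
            mul_le_mul hKp hpow hl0.le (by linarith)

end BVM
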