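import Pool.Agent.helper24.BV.LUp
import Pool.Agent.helper24.BV.LTriv

/-!
# BVA-LLow: lower bounds for `|L(s,χ)|`, `1 < Re s ≤ 2`

PROOF.  `s = σ + it`, `ℓ = ell q t ≥ 1`, `ell q (2t) ≤ 2 ℓ`.
(`t341c`, `t341r`) Mathlib `DirichletCharacter.norm_LSeries_product_ge_one` with `x = σ - 1`, `y = t`:
`1 ≤ ‖L(σ,χ₀)‖³ ‖L(s,χ)‖⁴ ‖L(σ+2it,χ²)‖`, `‖L(σ,χ₀)‖ ≤ 2/(σ-1)` (`LTriv_real`).
If `χ² ≠ 1`: `‖L(σ+2it,χ²)‖ ≤ C ell q (2t) ≤ 2Cℓ` (`LUp`, `i = 0`).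
If `χ² = 1`, `t ≠ 0`: `‖L(σ+2it,χ₀)‖ ≤ C ell q (2t)(1+1/(2|t|)) ≤ 4Cℓ/min(1,|t|)` (`LTriv`).
(`lift`) Let `w ∈ (0,1]` and suppose `c (σ-1)³ w/ℓ ≤ ‖L(σ+it)‖⁴` for all `σ ∈ (1,2]`.  Let `C` be the
constant of `LUp` (`‖L'‖ ≤ 2C ℓ²`, the derivative of the LSeries is `-LSeries (χ log)`, `LSeries_hasDerivAt`
or `LSeries_deriv`) and `σ₁ = 1 + c₁ w/ℓ⁹` with `c₁ ∈ (0,1]` so small that `c c₁³ ≥ (4 C c₁)⁴`
(`c₁ ≤ c/(4C)⁴`).  For `σ ≥ σ₁`: `‖L‖⁴ ≥ c c₁³ w⁴/ℓ²⁸ ≥ (4 C c₁ w/ℓ⁷)⁴`.  For `σ < σ₁`: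
`‖L(σ+it)‖ ≥ ‖L(σ₁+it)‖ - (σ₁-σ) 2Cℓ² ≥ 4Cc₁w/ℓ⁷ - 2Cc₁w/ℓ⁷`.  So `‖L(σ+it)‖ ≥ 2Cc₁ w/ℓ⁷` always.
(`LLow`) `χ² ≠ 1`: `w = 1`.  `χ² = 1`: let `t₀ = κ/(4Cℓ²)` (`≤ 1`).  If `|t| ≥ t₀`: `lift` with
`w = min(1,|t|) ≥ t₀` gives `≥ c κ/ℓ⁹`.  If `|t| < t₀`: `‖L(σ+it) - L(σ)‖ ≤ |t| 2Cℓ² ≤ κ/2`
(vertical segment, `ell q t' ≤ ell q t` on it), and `‖L(σ)‖ ≥ κ`, so `‖L‖ ≥ κ/2`.
-/

open Finset ArithmeticFunction Complex

namespace BVM

private theorem LLow_ell_two {q : ℕ} (hq : 3 ≤ q) (t : ℝ) : ell q (2 * t) ≤ 2 * ell q t := by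
  have h1 := one_le_ell hq t
  have hq' : (3 : ℝ) ≤ q := by exact_mod_cast hq
  have ht := abs_nonneg t
  have hz : (0 : ℝ) < q * (|t| + 2) := by positivity
  have h2 : ell q (2 * t) ≤ Real.log (2 * (q * (|t| + 2))) := by
    refine Real.log_le_log (by positivity) ?_
    rw [abs_mul, abs_two]
    nlinarith
  have h3 : Real.log (2 * (q * (|t| + 2))) = Real.log 2 + ell q t := by
    rw [Real.log_mul two_ne_zero hz.ne', ell]
  have h4 := Real.log_two_lt_d9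
  linarith

private theorem LLow_ell_mono {q : ℕ} (hq : 3 ≤ q) {t t' : ℝ} (h : |t'| ≤ |t|) :
    ell q t' ≤ ell q t := by
  have hq' : (3 : ℝ) ≤ q := by exact_mod_cast hq
  have ht := abs_nonneg t'
  refine Real.log_le_log (by positivity) ?_
  gcongr

private theorem LLow_prod {q : ℕ} (χ : DirichletCharacter ℂ q) (s : ℂ) (h1 : 1 < s.re)
    (h2 : s.re ≤ 2) :
    1 ≤ (2 / (s.re - 1)) ^ 3 * ‖LSeries (fun n => χ (n : ZMod q)) s‖ ^ 4 *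
      ‖LSeries (fun n => (χ ^ 2) (n : ZMod q)) ((s.re : ℂ) + 2 * I * s.im)‖ := by
  have hx : 0 < s.re - 1 := by linarith
  have h := DirichletCharacter.norm_LSeries_product_ge_one χ hx s.im
  have e1 : (1 + ((s.re - 1 : ℝ) : ℂ)) = ((s.re : ℝ) : ℂ) := by
    push_cast; ring
  have e2 : ((s.re : ℝ) : ℂ) + I * s.im = s := by
    rw [mul_comm I]; exact Complex.re_add_im s
  rw [e1, e2, norm_mul, norm_mul, norm_pow, norm_pow] at h
  refine h.trans ?_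
  have h3 := LTriv_real q s.re h1 h2
  gcongr

theorem t341c : ∃ c : ℝ, 0 < c ∧ ∀ (q : ℕ) [NeZero q] (χ : DirichletCharacter ℂ q), χ ≠ 1 →
    χ ^ 2 ≠ 1 → ∀ s : ℂ, 1 < s.re → s.re ≤ 2 →
      c * (s.re - 1) ^ 3 / ell q s.im ≤ ‖LSeries (fun n => χ (n : ZMod q)) s‖ ^ 4 := by
  obtain ⟨C, hC, hL⟩ := LUp
  refine ⟨1 / (16 * C), by positivity, fun q _ χ hχ hχ2 s h1 h2 => ?_⟩
  have hq := three_le_of_ne_one hχ
  have hℓ := one_le_ell hq s.im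
  have hx : 0 < s.re - 1 := by linarith
  have hre : ((s.re : ℂ) + 2 * I * s.im).re = s.re := by simp
  have him : ((s.re : ℂ) + 2 * I * s.im).im = 2 * s.im := by simp
  have hp := LLow_prod χ s h1 h2
  have hu := hL q (χ ^ 2) hχ2 0 ((s.re : ℂ) + 2 * I * s.im) (by rw [hre]; exact h1)
    (by rw [hre]; exact h2)
  simp only [pow_zero, mul_one, Nat.factorial_zero, Nat.cast_one] at hu
  rw [him] at hu
  have he := LLow_ell_two hq s.im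
  set X := ‖LSeries (fun n => χ (n : ZMod q)) s‖ ^ 4 with hX
  have hX0 : 0 ≤ X := by positivity
  set Y := ‖LSeries (fun n => (χ ^ 2) (n : ZMod q)) ((s.re : ℂ) + 2 * I * s.im)‖
  have hY : Y ≤ 2 * C * ell q s.im := by nlinarith
  have hp2 : 1 ≤ (2 / (s.re - 1)) ^ 3 * X * (2 * C * ell q s.im) := by
    refine hp.trans ?_
    gcongr
  rw [div_le_iff₀ (by positivity)]
  have e : (2 / (s.re - 1)) ^ 3 * X * (2 * C * ell q s.im) =
      16 * C * (X * ell q s.im) / (s.re - 1) ^ 3 := by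
    field_simp; ring
  rw [e, le_div_iff₀ (by positivity)] at hp2
  rw [div_mul_eq_mul_div, div_le_iff₀ (by positivity)]
  nlinarith

theorem t341r : ∃ c : ℝ, 0 < c ∧ ∀ (q : ℕ) [NeZero q] (χ : DirichletCharacter ℂ q), 3 ≤ q →
    χ ^ 2 = 1 → ∀ s : ℂ, 1 < s.re → s.re ≤ 2 → s.im ≠ 0 →
      c * (s.re - 1) ^ 3 * min 1 |s.im| / ell q s.im ≤
        ‖LSeries (fun n => χ (n : ZMod q)) s‖ ^ 4 := by
  obtain ⟨C, hC, hL⟩ := LTriv
  refine ⟨1 / (32 * C), by positivity, fun q _ χ hq hχ2 s h1 h2 ht => ?_⟩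
  have hℓ := one_le_ell hq s.im
  have hx : 0 < s.re - 1 := by linarith
  have hta : 0 < |s.im| := abs_pos.2 ht
  have hre : ((s.re : ℂ) + 2 * I * s.im).re = s.re := by simp
  have him : ((s.re : ℂ) + 2 * I * s.im).im = 2 * s.im := by simp
  have hp := LLow_prod χ s h1 h2
  rw [hχ2] at hp
  have hu := hL q (by omega) ((s.re : ℂ) + 2 * I * s.im) (by rw [hre]; exact h1)
    (by rw [hre]; exact h2) (by rw [him]; simpa using ht)
  rw [him] at hu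
  have he := LLow_ell_two hq s.im
  set X := ‖LSeries (fun n => χ (n : ZMod q)) s‖ ^ 4 with hX
  have hX0 : 0 ≤ X := by positivity
  set Y := ‖LSeries (fun n => (1 : DirichletCharacter ℂ q) (n : ZMod q))
    ((s.re : ℂ) + 2 * I * s.im)‖
  have hm0 : 0 < min 1 |s.im| := lt_min one_pos hta
  have hm : 1 + 1 / |2 * s.im| ≤ 2 / min 1 |s.im| := by
    rw [le_div_iff₀ hm0, abs_mul, abs_two]
    have a1 : min 1 |s.im| ≤ 1 := min_le_left _ _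
    have a2 : min 1 |s.im| ≤ |s.im| := min_le_right _ _
    have a3 : 1 / (2 * |s.im|) * min 1 |s.im| ≤ 1 / 2 := by
      rw [div_mul_eq_mul_div, div_le_div_iff₀ (by positivity) two_pos]
      nlinarith
    nlinarith
  have hY : Y ≤ C * (2 * ell q s.im) * (2 / min 1 |s.im|) := by
    refine hu.trans ?_
    gcongr
  have hp2 : 1 ≤ (2 / (s.re - 1)) ^ 3 * X * (C * (2 * ell q s.im) * (2 / min 1 |s.im|)) := by
    refine hp.trans ?_
    gcongr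
  rw [div_le_iff₀ (by positivity)]
  have e : (2 / (s.re - 1)) ^ 3 * X * (C * (2 * ell q s.im) * (2 / min 1 |s.im|)) =
      32 * C * (X * ell q s.im) / ((s.re - 1) ^ 3 * min 1 |s.im|) := by
    field_simp; ring
  rw [e, le_div_iff₀ (by positivity)] at hp2
  rw [mul_assoc, div_mul_eq_mul_div, div_le_iff₀ (by positivity)]
  nlinarith

private theorem LLow_lip : ∃ C : ℝ, 1 ≤ C ∧ ∀ (q : ℕ) [NeZero q] (χ : DirichletCharacter ℂ q),
    χ ≠ 1 → ∀ (t : ℝ) (z w : ℂ), 1 < z.re → z.re ≤ 2 → |z.im| ≤ |t| → 1 < w.re → w.re ≤ 2 →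
      |w.im| ≤ |t| →
      ‖LSeries (fun n => χ (n : ZMod q)) z - LSeries (fun n => χ (n : ZMod q)) w‖ ≤
        2 * C * ell q t ^ 2 * ‖z - w‖ := by
  obtain ⟨C, hC, hL⟩ := LUp
  refine ⟨C, hC, fun q _ χ hχ t z w hz1 hz2 hz3 hw1 hw2 hw3 => ?_⟩
  have hq := three_le_of_ne_one hχ
  have hℓ := one_le_ell hq t
  set S : Set ℂ := {z | z.re ∈ Set.Ioc (1 : ℝ) 2 ∧ z.im ∈ Set.Icc (-|t|) |t|} with hS
  have hSc : Convex ℝ S := by
    have c1 : Convex ℝ ((Complex.reLm : ℂ →ₗ[ℝ] ℝ) ⁻¹' Set.Ioc (1 : ℝ) 2) :=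
      (convex_Ioc 1 2).linear_preimage _
    have c2 : Convex ℝ ((Complex.imLm : ℂ →ₗ[ℝ] ℝ) ⁻¹' Set.Icc (-|t|) |t|) :=
      (convex_Icc _ _).linear_preimage _
    exact c1.inter c2
  have hab : ∀ z : ℂ, 1 < z.re → LSeries.abscissaOfAbsConv (fun n => χ (n : ZMod q)) < z.re := by
    intro z hz
    have h : LSeries.abscissaOfAbsConv (fun n => χ (n : ZMod q)) = 1 :=
      DirichletCharacter.absicssaOfAbsConv_eq_one (NeZero.ne q) χ
    rw [h]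
    exact_mod_cast hz
  refine hSc.norm_image_sub_le_of_norm_hasDerivWithin_le (f := LSeries (fun n => χ (n : ZMod q)))
    (f' := fun z => -LSeries (LSeries.logMul (fun n => χ (n : ZMod q))) z)
    (fun x hx => (LSeries_hasDerivAt (hab x hx.1.1)).hasDerivWithinAt) (fun x hx => ?_)
    ⟨⟨hw1, hw2⟩, abs_le.1 hw3⟩ ⟨⟨hz1, hz2⟩, abs_le.1 hz3⟩
  have h := hL q χ hχ 1 x hx.1.1 hx.1.2
  have e : LSeries (LSeries.logMul (fun n => χ (n : ZMod q))) x =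
      LSeries (fun n => χ (n : ZMod q) * ((Real.log n : ℝ) : ℂ) ^ 1) x := by
    congr 1
    ext n
    simp only [LSeries.logMul, pow_one]
    rw [mul_comm, Complex.ofReal_log (Nat.cast_nonneg n), Complex.ofReal_natCast]
  rw [norm_neg, e]
  refine h.trans ?_
  have hm := LLow_ell_mono hq (t := t) (t' := x.im) (abs_le.2 hx.2)
  have h0 := one_le_ell hq x.im
  simp only [Nat.factorial_one, Nat.cast_one, mul_one, pow_one]
  nlinarith [mul_le_mul hm hm (by linarith) (by linarith)]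

theorem lift (c : ℝ) (hc : 0 < c) : ∃ c' : ℝ, 0 < c' ∧ ∀ (q : ℕ) [NeZero q]
    (χ : DirichletCharacter ℂ q), χ ≠ 1 → ∀ (t w : ℝ), 0 < w → w ≤ 1 →
    (∀ σ : ℝ, 1 < σ → σ ≤ 2 → c * (σ - 1) ^ 3 * w / ell q t ≤
      ‖LSeries (fun n => χ (n : ZMod q)) ((σ : ℂ) + t * I)‖ ^ 4) →
    ∀ σ : ℝ, 1 < σ → σ ≤ 2 →
      c' * w / ell q t ^ 7 ≤ ‖LSeries (fun n => χ (n : ZMod q)) ((σ : ℂ) + t * I)‖ := by
  obtain ⟨C, hC, hlip⟩ := LLow_lip
  set c₁ : ℝ := min 1 (c / (4 * C) ^ 4) with hc₁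
  have hC0 : 0 < C := by linarith
  have h10 : 0 < c₁ := lt_min one_pos (by positivity)
  have h11 : c₁ ≤ 1 := min_le_left _ _
  have h12 : c₁ * (4 * C) ^ 4 ≤ c := by
    have := min_le_right 1 (c / (4 * C) ^ 4)
    rwa [le_div_iff₀ (by positivity)] at this
  refine ⟨2 * C * c₁, by positivity, fun q _ χ hχ t w hw0 hw1 H σ hσ1 hσ2 => ?_⟩
  have hq := three_le_of_ne_one hχ
  have hℓ := one_le_ell hq t
  set ℓ := ell q t with hell
  have hℓ0 : 0 < ℓ := by linarith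
  -- the bound for `σ ≥ σ₁`
  have key : ∀ σ : ℝ, 1 + c₁ * w / ℓ ^ 9 ≤ σ → σ ≤ 2 →
      4 * C * c₁ * w / ℓ ^ 7 ≤ ‖LSeries (fun n => χ (n : ZMod q)) ((σ : ℂ) + t * I)‖ := by
    intro σ h1 h2
    have hp : 0 < c₁ * w / ℓ ^ 9 := by positivity
    have h3 := H σ (by linarith) h2
    refine le_of_pow_le_pow_left₀ (n := 4) (by norm_num) (norm_nonneg _) (le_trans ?_ h3)
    have h4 : c₁ * w / ℓ ^ 9 ≤ σ - 1 := by linarith
    calc (4 * C * c₁ * w / ℓ ^ 7) ^ 4 = (c₁ * (4 * C) ^ 4) * (c₁ * w / ℓ ^ 9) ^ 3 * w / ℓ := by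
          field_simp
      _ ≤ c * (σ - 1) ^ 3 * w / ℓ := by gcongr
  rcases le_or_gt (1 + c₁ * w / ℓ ^ 9) σ with h | h
  · refine le_trans ?_ (key σ h hσ2)
    gcongr
    linarith
  · set σ₁ : ℝ := 1 + c₁ * w / ℓ ^ 9 with hσ₁
    have hp : 0 < c₁ * w / ℓ ^ 9 := by positivity
    have hle : c₁ * w / ℓ ^ 9 ≤ 1 := by
      rw [div_le_one (by positivity)]
      have : (1 : ℝ) ≤ ℓ ^ 9 := one_le_pow₀ hℓ
      nlinarith
    have h2 : σ₁ ≤ 2 := by linarith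
    have k := key σ₁ le_rfl h2
    have hl := hlip q χ hχ t ((σ₁ : ℂ) + t * I) ((σ : ℂ) + t * I) (by simp; linarith)
      (by simpa using h2) (by simp) (by simpa using hσ1) (by simpa using hσ2) (by simp)
    have e : ((σ₁ : ℂ) + t * I) - ((σ : ℂ) + t * I) = ((σ₁ - σ : ℝ) : ℂ) := by
      push_cast; ring
    rw [e, Complex.norm_real, Real.norm_of_nonneg (by linarith)] at hl
    have h5 : 2 * C * ℓ ^ 2 * (σ₁ - σ) ≤ 2 * C * c₁ * w / ℓ ^ 7 := by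
      have : σ₁ - σ ≤ c₁ * w / ℓ ^ 9 := by linarith
      calc 2 * C * ℓ ^ 2 * (σ₁ - σ) ≤ 2 * C * ℓ ^ 2 * (c₁ * w / ℓ ^ 9) := by gcongr
        _ = 2 * C * c₁ * w / ℓ ^ 7 := by field_simp
    have h6 := norm_sub_norm_le (LSeries (fun n => χ (n : ZMod q)) ((σ₁ : ℂ) + t * I))
      (LSeries (fun n => χ (n : ZMod q)) ((σ : ℂ) + t * I))
    have h7 : 4 * C * c₁ * w / ℓ ^ 7 = 2 * C * c₁ * w / ℓ ^ 7 + 2 * C * c₁ * w / ℓ ^ 7 := by
      ring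
    linarith

theorem LLow : ∃ c : ℝ, 0 < c ∧ ∀ (q : ℕ) [NeZero q] (χ : DirichletCharacter ℂ q), χ ≠ 1 →
    ∀ κ : ℝ, 0 < κ → κ ≤ 1 →
    (χ ^ 2 = 1 → ∀ σ : ℝ, 1 < σ → σ ≤ 2 → κ ≤ ‖LSeries (fun n => χ (n : ZMod q)) (σ : ℂ)‖) →
    ∀ s : ℂ, 1 < s.re → s.re ≤ 2 →
      c * κ / ell q s.im ^ 9 ≤ ‖LSeries (fun n => χ (n : ZMod q)) s‖ := by
  obtain ⟨ca, hca, Ha⟩ := t341c
  obtain ⟨ca', hca', Ha'⟩ := lift ca hca
  obtain ⟨cb, hcb, Hb⟩ := t341r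
  obtain ⟨cb', hcb', Hb'⟩ := lift cb hcb
  obtain ⟨C, hC, hlip⟩ := LLow_lip
  have hC0 : 0 < C := by linarith
  refine ⟨min ca' (min (cb' / (4 * C)) (1 / 2)), lt_min hca' (lt_min (by positivity) (by norm_num)),
    fun q _ χ hχ κ hκ0 hκ1 hreal s h1 h2 => ?_⟩
  have hq := three_le_of_ne_one hχ
  have hℓ := one_le_ell hq s.im
  set ℓ := ell q s.im with hell
  have hℓ0 : 0 < ℓ := by linarith
  have m1 : min ca' (min (cb' / (4 * C)) (1 / 2)) ≤ ca' := min_le_left _ _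
  have m2 : min ca' (min (cb' / (4 * C)) (1 / 2)) ≤ cb' / (4 * C) :=
    (min_le_right _ _).trans (min_le_left _ _)
  have m3 : min ca' (min (cb' / (4 * C)) (1 / 2)) ≤ 1 / 2 :=
    (min_le_right _ _).trans (min_le_right _ _)
  set c := min ca' (min (cb' / (4 * C)) (1 / 2)) with hcdef
  have hs : ((s.re : ℝ) : ℂ) + (s.im : ℝ) * I = s := Complex.re_add_im s
  by_cases hχ2 : χ ^ 2 = 1
  · rcases le_or_gt (κ / (4 * C * ℓ ^ 2)) |s.im| with ht | ht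
    · have ht0 : 0 < κ / (4 * C * ℓ ^ 2) := by positivity
      have hta : 0 < |s.im| := lt_of_lt_of_le ht0 ht
      have htne : s.im ≠ 0 := abs_pos.1 hta
      have hle1 : κ / (4 * C * ℓ ^ 2) ≤ 1 := by
        rw [div_le_one (by positivity)]
        have : (1 : ℝ) ≤ ℓ ^ 2 := one_le_pow₀ hℓ
        nlinarith [mul_le_mul hC this (by norm_num) hC0.le]
      have hw : κ / (4 * C * ℓ ^ 2) ≤ min 1 |s.im| := le_min hle1 ht
      have k := Hb' q χ hχ s.im (min 1 |s.im|) (lt_min one_pos hta) (min_le_left _ _)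
        (fun σ a b => by
          have := Hb q χ hq hχ2 ((σ : ℂ) + s.im * I) (by simpa using a) (by simpa using b)
            (by simpa using htne)
          simpa using this) s.re h1 h2
      rw [hs] at k
      refine le_trans ?_ k
      calc c * κ / ℓ ^ 9 ≤ cb' / (4 * C) * κ / ℓ ^ 9 := by gcongr
        _ = cb' * (κ / (4 * C * ℓ ^ 2)) / ℓ ^ 7 := by field_simp
        _ ≤ cb' * min 1 |s.im| / ℓ ^ 7 := by gcongr
    · have hr := hreal hχ2 s.re h1 h2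
      have hl := hlip q χ hχ s.im ((s.re : ℝ) : ℂ) s (by simpa using h1) (by simpa using h2)
        (by simp) h1 h2 le_rfl
      have e : ((s.re : ℝ) : ℂ) - s = -((s.im : ℝ) * I) := by
        have := hs
        linear_combination this
      rw [e, norm_neg, norm_mul, Complex.norm_I, mul_one, Complex.norm_real, Real.norm_eq_abs] at hl
      have h5 : 2 * C * ℓ ^ 2 * |s.im| ≤ κ / 2 := by
        rw [lt_div_iff₀ (by positivity)] at ht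
        nlinarith
      have h6 := norm_sub_norm_le (LSeries (fun n => χ (n : ZMod q)) ((s.re : ℝ) : ℂ))
        (LSeries (fun n => χ (n : ZMod q)) s)
      have h7 : κ / 2 ≤ ‖LSeries (fun n => χ (n : ZMod q)) s‖ := by linarith
      refine le_trans ?_ h7
      have h8 : (1 : ℝ) ≤ ℓ ^ 9 := one_le_pow₀ hℓ
      rw [div_le_iff₀ (by positivity)]
      nlinarith [mul_le_mul h8 m3 (lt_min hca' (lt_min (by positivity) (by norm_num))).le
        (by positivity)]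
  · have k := Ha' q χ hχ s.im 1 one_pos le_rfl
      (fun σ a b => by
        have := Ha q χ hχ hχ2 ((σ : ℂ) + s.im * I) (by simpa using a) (by simpa using b)
        simpa using this) s.re h1 h2
    rw [hs] at k
    refine le_trans ?_ k
    have h8 : ℓ ^ 7 ≤ ℓ ^ 9 := pow_le_pow_right₀ hℓ (by norm_num)
    rw [mul_one]
    have h9 : c * κ ≤ ca' := by nlinarith
    calc c * κ / ℓ ^ 9 ≤ ca' / ℓ ^ 9 := by gcongr
      _ ≤ ca' / ℓ ^ 7 := by gcongr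

end BVM
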