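import Pool.Agent.helper24.BV.Rep

/-!
# BVA-ExistsGood: there are arbitrarily large good scales

PROOF.  (`pos_inf`) For a nonprincipal `χ` the function `σ ↦ L(σ,χ)` extends continuously to `[1,2]`
(Mathlib `DirichletCharacter.LFunction`, `LFunction_eq_LSeries` for `σ > 1`, `differentiable_LFunction`)
and has no zero there (`LFunction_ne_zero_of_one_le_re`), so on the compact interval
its norm has a positive minimum.
(`exists_good`) Let `c` be the constant of `repulsion`.  Take `x₀` large (we may enlarge it).  If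
`Good B x₀` we are done.  Otherwise there is a real primitive `χ₁ ≠ 1` mod `q₁ ≤ (log x₀)^B` and `σ₁` with
`‖L(σ₁,χ₁)‖ < 1/√(log x₀)`.  Let `η` be the infimum of `‖L(σ,χ₁)‖` over `(1,2]`: `0 < η < 1/√(log x₀)`; choose
`σ₁'` with `‖L(σ₁',χ₁)‖ ≤ 2η`.  `x := ⌈exp (1/η²)⌉₊`: then `log x ≥ 1/η²`, so `1/√(log x) ≤ η`, `x ≥ x₀`, and
`log x ≤ 1/η² + 1`.  Claim `Good B x`: let `χ₂ ≠ 1` be real primitive mod `q₂ ≤ (log x)^B` with
`‖L(σ₂,χ₂)‖ < 1/√(log x) ≤ η`.  Then `χ₂` is not `χ₁` (values of `χ₁` are `≥ η`; if `q₁ = q₂` and the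
transported character equals `χ₂` the LSeries are equal).  With
`Z = (log x)^B + 3 + (log x₀)^B ≤ (2/η²)^B * 5` (both moduli `≤ Z`) `repulsion` gives
`c/(log Z)^5 ≤ max (2η) η = 2η`, while `log Z ≤ C_B (1 + log (1/η))`: impossible for `η < η₀(B)`, i.e. for
`x₀` large (`η < 1/√(log x₀)`; `η (1 + log (1/η))^5 → 0`).
-/

open Finset ArithmeticFunction Complex

namespace BVM

theorem pos_inf {q : ℕ} [NeZero q] (χ : DirichletCharacter ℂ q) (hχ : χ ≠ 1) :
    ∃ η : ℝ, 0 < η ∧ (∀ σ : ℝ, 1 < σ → σ ≤ 2 → η ≤ ‖LSeries (fun n => χ (n : ZMod q)) (σ : ℂ)‖) ∧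
      ∃ σ : ℝ, 1 < σ ∧ σ ≤ 2 ∧ ‖LSeries (fun n => χ (n : ZMod q)) (σ : ℂ)‖ ≤ 2 * η := by
  have hcont : Continuous (fun σ : ℝ => ‖DirichletCharacter.LFunction χ (σ : ℂ)‖) :=
    ((DirichletCharacter.differentiable_LFunction hχ).continuous.comp
      Complex.continuous_ofReal).norm
  have heq : ∀ σ : ℝ, 1 < σ → DirichletCharacter.LFunction χ (σ : ℂ) =
      LSeries (fun n => χ (n : ZMod q)) (σ : ℂ) := by
    intro σ hσ
    exact DirichletCharacter.LFunction_eq_LSeries χ (by simpa using hσ)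
  obtain ⟨m, hm, hmin⟩ := (isCompact_Icc (a := (1 : ℝ)) (b := 2)).exists_isMinOn
    ⟨1, by norm_num, by norm_num⟩ hcont.continuousOn
  have hpos : 0 < ‖DirichletCharacter.LFunction χ (m : ℂ)‖ := by
    rw [norm_pos_iff]
    exact DirichletCharacter.LFunction_ne_zero_of_one_le_re χ (Or.inl hχ) (by simpa using hm.1)
  refine ⟨‖DirichletCharacter.LFunction χ (m : ℂ)‖, hpos, ?_, ?_⟩
  · intro σ h1 h2
    rw [← heq σ h1]
    exact hmin ⟨h1.le, h2⟩
  · by_cases h1 : 1 < m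
    · refine ⟨m, h1, hm.2, ?_⟩
      rw [← heq m h1]
      linarith
    · have hm1 : m = 1 := le_antisymm (not_lt.1 h1) hm.1
      subst hm1
      have hev : ∀ᶠ σ : ℝ in nhds (1 : ℝ), ‖DirichletCharacter.LFunction χ (σ : ℂ)‖ <
          2 * ‖DirichletCharacter.LFunction χ ((1 : ℝ) : ℂ)‖ :=
        (hcont.tendsto (1 : ℝ)).eventually_lt_const (by linarith)
      obtain ⟨δ, hδ, hball⟩ := Metric.eventually_nhds_iff.1 hev
      have h3 : 1 < min 2 (1 + δ / 2) := lt_min (by norm_num) (by linarith)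
      refine ⟨min 2 (1 + δ / 2), h3, min_le_left _ _, ?_⟩
      rw [← heq _ h3]
      apply le_of_lt
      apply hball
      rw [Real.dist_eq, abs_lt]
      have h4 : min 2 (1 + δ / 2) ≤ 1 + δ / 2 := min_le_right _ _
      constructor <;> linarith

/-- The final inequality of the repulsion argument. -/
private theorem ExistsGood_large (B : ℕ) {c : ℝ} (hc : 0 < c) : ∃ T₀ : ℝ, 3 ≤ T₀ ∧
    ∀ T : ℝ, T₀ ≤ T → 2 * Real.log (5 * (2 * T ^ 2) ^ B) ^ 5 < c * T := by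
  set K : ℝ := Real.log 5 + B * Real.log 2 + 2 * B with hK
  have hl5 : 0 < Real.log 5 := Real.log_pos (by norm_num)
  have hl2 : 0 < Real.log 2 := Real.log_pos (by norm_num)
  have hKpos : 0 < K := by positivity
  have ho := Real.isLittleO_pow_log_id_atTop (n := 5)
  have hε : 0 < c / (4 * K ^ 5) := by positivity
  have hev := ho.def hε
  obtain ⟨a, ha⟩ := Filter.eventually_atTop.1 hev
  refine ⟨max 3 a, le_max_left _ _, ?_⟩
  intro T hT
  have hT3 : 3 ≤ T := (le_max_left _ _).trans hT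
  have hTa : a ≤ T := (le_max_right _ _).trans hT
  have h1 := ha T hTa
  have hlogT : 1 ≤ Real.log T := by
    rw [Real.le_log_iff_exp_le (by linarith)]
    have := Real.exp_one_lt_d9
    linarith
  have h2 : Real.log T ^ 5 ≤ c / (4 * K ^ 5) * T := by
    have h3 : ‖Real.log T ^ 5‖ = Real.log T ^ 5 := by
      rw [Real.norm_eq_abs, abs_of_nonneg (by positivity)]
    have h4 : ‖(id T : ℝ)‖ = T := by
      rw [Real.norm_eq_abs, id, abs_of_nonneg (by linarith)]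
    rw [h3, h4] at h1
    exact h1
  have h3 : Real.log (5 * (2 * T ^ 2) ^ B) = Real.log 5 + B * (Real.log 2 + 2 * Real.log T) := by
    have hT0 : T ≠ 0 := by linarith
    rw [Real.log_mul (by norm_num) (by positivity), Real.log_pow,
      Real.log_mul (by norm_num) (by positivity), Real.log_pow]
    push_cast
    ring
  have h4 : Real.log (5 * (2 * T ^ 2) ^ B) ≤ K * Real.log T := by
    rw [h3, hK]
    have hB : (0 : ℝ) ≤ B := Nat.cast_nonneg B
    have h5 : 0 ≤ (Real.log 5 + B * Real.log 2) * (Real.log T - 1) :=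
      mul_nonneg (by positivity) (by linarith)
    nlinarith
  have h5 : 0 ≤ Real.log (5 * (2 * T ^ 2) ^ B) := by
    rw [h3]
    have hB : (0 : ℝ) ≤ B := Nat.cast_nonneg B
    have : 0 ≤ Real.log T := by linarith
    positivity
  have h6 : Real.log (5 * (2 * T ^ 2) ^ B) ^ 5 ≤ (K * Real.log T) ^ 5 :=
    pow_le_pow_left₀ h5 h4 5
  have h7 : (K * Real.log T) ^ 5 ≤ c / 4 * T := by
    rw [mul_pow]
    calc K ^ 5 * Real.log T ^ 5 ≤ K ^ 5 * (c / (4 * K ^ 5) * T) :=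
          mul_le_mul_of_nonneg_left h2 (by positivity)
      _ = c / 4 * T := by field_simp
  have h8 : 0 < c * T := mul_pos hc (by linarith)
  linarith

theorem exists_good (B x₀ : ℕ) : ∃ x : ℕ, x₀ ≤ x ∧ Good B x := by
  obtain ⟨c, hc, hrep⟩ := repulsion
  obtain ⟨T₀, hT₀3, hT₀⟩ := ExistsGood_large B hc
  set x₁ : ℕ := max x₀ ⌈Real.exp (T₀ ^ 2)⌉₊ with hx₁
  have hx01 : x₀ ≤ x₁ := le_max_left _ _
  by_cases hg : Good B x₁
  · exact ⟨x₁, hx01, hg⟩
  have hexp1 : Real.exp (T₀ ^ 2) ≤ x₁ :=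
    (Nat.le_ceil _).trans (by exact_mod_cast le_max_right _ _)
  have hlogx1 : T₀ ^ 2 ≤ Real.log x₁ := by
    rw [Real.le_log_iff_exp_le (lt_of_lt_of_le (Real.exp_pos _) hexp1)]
    exact hexp1
  have hT₀sq : 9 ≤ T₀ ^ 2 := by nlinarith
  have hlogpos : 0 < Real.log x₁ := by linarith
  unfold Good at hg
  push Not at hg
  obtain ⟨q₁, hq1, hq1B, χ₁, hprim1, hne1, hsq1, σ₁, hσ1, hσ1', hL1⟩ := hg
  have : NeZero q₁ := ⟨by omega⟩
  obtain ⟨η, hη, hηle, τ, hτ1, hτ2, hτη⟩ := pos_inf χ₁ hne1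
  have hη1 : η < 1 / Real.sqrt (Real.log x₁) := lt_of_le_of_lt (hηle σ₁ hσ1 hσ1') hL1
  set T : ℝ := 1 / η with hTdef
  have hTpos : 0 < T := by positivity
  have hηT : η = 1 / T := by rw [hTdef]; field_simp
  have hsqrt : Real.sqrt (Real.log x₁) < T := by
    have hs : 0 < Real.sqrt (Real.log x₁) := Real.sqrt_pos.2 hlogpos
    rw [hTdef, lt_div_iff₀ hη]
    rw [lt_div_iff₀ hs] at hη1
    linarith
  have hTlog : Real.log x₁ < T ^ 2 := (Real.sqrt_lt' hTpos).1 hsqrt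
  have hTT₀ : T₀ ≤ T := by
    by_contra h
    push Not at h
    nlinarith
  have hT3 : 3 ≤ T := hT₀3.trans hTT₀
  set x : ℕ := ⌈Real.exp (T ^ 2)⌉₊ with hx
  have hxge : Real.exp (T ^ 2) ≤ x := Nat.le_ceil _
  have hxlt : (x : ℝ) < Real.exp (T ^ 2) + 1 := Nat.ceil_lt_add_one (Real.exp_pos _).le
  have hxpos : (0 : ℝ) < x := lt_of_lt_of_le (Real.exp_pos _) hxge
  have hx1pos : (0 : ℝ) < x₁ := lt_of_lt_of_le (Real.exp_pos _) hexp1
  have hlogx : T ^ 2 ≤ Real.log x := by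
    rw [Real.le_log_iff_exp_le hxpos]
    exact hxge
  have hlogx' : Real.log x ≤ 2 * T ^ 2 := by
    have h1 : (x : ℝ) ≤ Real.exp (2 * T ^ 2) := by
      have h2 : Real.exp (T ^ 2) + 1 ≤ Real.exp (T ^ 2) * Real.exp 1 := by
        have h3 := Real.add_one_le_exp (T ^ 2)
        have h4 := Real.add_one_le_exp (1 : ℝ)
        have h5 : 0 ≤ T ^ 2 := sq_nonneg T
        nlinarith
      rw [← Real.exp_add] at h2
      have h6 : Real.exp (T ^ 2 + 1) ≤ Real.exp (2 * T ^ 2) := Real.exp_le_exp.2 (by nlinarith)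
      linarith
    calc Real.log x ≤ Real.log (Real.exp (2 * T ^ 2)) := Real.log_le_log hxpos h1
      _ = 2 * T ^ 2 := Real.log_exp _
  have hx1x : x₁ ≤ x := by
    have h1 : (x₁ : ℝ) ≤ x := by
      calc (x₁ : ℝ) = Real.exp (Real.log x₁) := (Real.exp_log hx1pos).symm
        _ ≤ Real.exp (T ^ 2) := Real.exp_le_exp.2 hTlog.le
        _ ≤ x := hxge
    exact_mod_cast h1
  refine ⟨x, hx01.trans hx1x, ?_⟩
  intro q₂ hq2 hq2B χ₂ hprim2 hne2 hsq2 σ₂ hσ2 hσ2'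
  by_contra hcon
  push Not at hcon
  have hlt : ‖LSeries (fun n => χ₂ n) σ₂‖ < η := by
    refine lt_of_lt_of_le hcon ?_
    rw [hηT]
    apply one_div_le_one_div_of_le hTpos
    exact Real.le_sqrt_of_sq_le hlogx
  have hT2 : (1 : ℝ) ≤ 2 * T ^ 2 := by nlinarith
  have hpow1 : (1 : ℝ) ≤ (2 * T ^ 2) ^ B := one_le_pow₀ hT2
  have hZ3 : (3 : ℝ) ≤ 5 * (2 * T ^ 2) ^ B := by linarith
  have hq1Z : (q₁ : ℝ) ≤ 5 * (2 * T ^ 2) ^ B := by
    have h1 : Real.log x₁ ^ B ≤ (2 * T ^ 2) ^ B :=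
      pow_le_pow_left₀ hlogpos.le (by nlinarith) B
    linarith
  have hq2Z : (q₂ : ℝ) ≤ 5 * (2 * T ^ 2) ^ B := by
    have h1 : Real.log x ^ B ≤ (2 * T ^ 2) ^ B :=
      pow_le_pow_left₀ (by nlinarith) hlogx' B
    linarith
  have hdiff : ∀ e : q₁ = q₂, DirichletCharacter.changeLevel (dvd_of_eq e) χ₁ ≠ χ₂ := by
    intro e h
    subst e
    rw [DirichletCharacter.changeLevel_self] at h
    subst h
    have := hηle σ₂ hσ2 hσ2'
    linarith
  have hfin := hrep _ hZ3 q₁ q₂ hq1 hq2 hq1Z hq2Z χ₁ χ₂ hprim1 hprim2 hne1 hne2 hsq1 hsq2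
    hdiff τ σ₂ hτ1 hτ2 hσ2 hσ2'
  have hmax : max ‖LSeries (fun n => χ₁ (n : ZMod q₁)) (τ : ℂ)‖
      ‖LSeries (fun n => χ₂ (n : ZMod q₂)) (σ₂ : ℂ)‖ ≤ 2 / T := by
    apply max_le
    · rw [hηT] at hτη
      calc _ ≤ 2 * (1 / T) := hτη
        _ = 2 / T := by ring
    · rw [hηT] at hlt
      have h1 : 1 / T ≤ 2 / T := by
        apply div_le_div_of_nonneg_right (by norm_num) hTpos.le
      linarith
  have hlogZ : 0 < Real.log (5 * (2 * T ^ 2) ^ B) := Real.log_pos (by linarith)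
  have h1 : c / Real.log (5 * (2 * T ^ 2) ^ B) ^ 5 ≤ 2 / T := hfin.trans hmax
  rw [div_le_div_iff₀ (by positivity) hTpos] at h1
  have h2 := hT₀ T hTT₀
  linarith

end BVM
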