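import Pool.Agent.helper24.BV.Defs

/-!
# BVA-AbelLog: removing a factor `(log n)^j`

Proofs by helper11.

PROOF.  Let `Y = ⌊√x⌋`.  If `y ≤ Y` the sum is `≤ √x (1 + log x)`.  Otherwise split at `Y`; for
`n > Y` (so `n ≥ √x`, `log n ≥ (log x)/2 > 0`) `b n = (b n (log n)^j) * g n`, `g n = (log n)^(-j)`
antitone positive on `n > Y`, `g ≤ (2/log x)^j`.  Abel summation with `A_j(t) = ∑_{n ≤ t} b n (log n)^j`:
`‖∑_{Y < n ≤ y} b n‖ ≤ 2 max_{t ≤ y} ‖A_j(t)‖ * g(Y+1) ≤ 2 * 2^j M / (log x)^j`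
(for a nonincreasing `g ≥ 0`: `‖∑ a n g n‖ ≤ g(first) * max ‖partial sums of a from Y+1‖`, and the
partial sums from `Y+1` are differences of two `A_j`, so `≤ 2M`).
-/

open Finset ArithmeticFunction

namespace BVM

/-- Abel's inequality, auxiliary form -/
private theorem abelLog_aux (a : ℕ → ℂ) (g : ℕ → ℝ) (Y : ℕ) (K : ℝ) :
    ∀ y : ℕ, Y + 1 ≤ y →
      (∀ t : ℕ, t ≤ y → ‖∑ n ∈ Ioc Y t, a n‖ ≤ K) →
      (∀ n : ℕ, Y + 1 ≤ n → g (n + 1) ≤ g n) →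
      ‖∑ n ∈ Ioc Y y, a n * (g n : ℂ) - (∑ n ∈ Ioc Y y, a n) * (g y : ℂ)‖ ≤
        K * (g (Y + 1) - g y) := by
  intro y hy
  induction y, hy using Nat.le_induction with
  | base =>
    intro _ _
    have h : Ioc Y (Y + 1) = {Y + 1} := by
      ext n; simp only [Finset.mem_Ioc, Finset.mem_singleton]; omega
    rw [h]
    simp
  | succ y hy ih =>
    intro hS hg
    have h1 := ih (fun t ht => hS t (by omega)) hg
    have hI : ∀ f : ℕ → ℂ, ∑ n ∈ Ioc Y (y + 1), f n = ∑ n ∈ Ioc Y y, f n + f (y + 1) := by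
      intro f
      rw [Finset.sum_Ioc_succ_top (by omega)]
    rw [hI, hI]
    have e : ∑ n ∈ Ioc Y y, a n * (g n : ℂ) + a (y + 1) * (g (y + 1) : ℂ) -
        (∑ n ∈ Ioc Y y, a n + a (y + 1)) * (g (y + 1) : ℂ) =
        (∑ n ∈ Ioc Y y, a n * (g n : ℂ) - (∑ n ∈ Ioc Y y, a n) * (g y : ℂ)) +
        (∑ n ∈ Ioc Y y, a n) * ((g y - g (y + 1) : ℝ) : ℂ) := by
      push_cast
      ring
    rw [e]
    refine (norm_add_le _ _).trans ?_
    rw [norm_mul, Complex.norm_real, Real.norm_eq_abs, abs_of_nonneg (sub_nonneg.2 (hg y hy))]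
    have h2 : ‖∑ n ∈ Ioc Y y, a n‖ * (g y - g (y + 1)) ≤ K * (g y - g (y + 1)) :=
      mul_le_mul_of_nonneg_right (hS y (by omega)) (sub_nonneg.2 (hg y hy))
    have e2 : K * (g (Y + 1) - g (y + 1)) = K * (g (Y + 1) - g y) + K * (g y - g (y + 1)) := by
      ring
    rw [e2]
    exact add_le_add h1 h2

/-- Abel's inequality -/
private theorem abelLog_abel (a : ℕ → ℂ) (g : ℕ → ℝ) (Y : ℕ) (K : ℝ) (y : ℕ) (hy : Y + 1 ≤ y)
    (hS : ∀ t : ℕ, t ≤ y → ‖∑ n ∈ Ioc Y t, a n‖ ≤ K)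
    (hg : ∀ n : ℕ, Y + 1 ≤ n → g (n + 1) ≤ g n) (hg0 : 0 ≤ g y) :
    ‖∑ n ∈ Ioc Y y, a n * (g n : ℂ)‖ ≤ K * g (Y + 1) := by
  have h1 := abelLog_aux a g Y K y hy hS hg
  have h2 : ‖(∑ n ∈ Ioc Y y, a n) * (g y : ℂ)‖ ≤ K * g y := by
    rw [norm_mul, Complex.norm_real, Real.norm_eq_abs, abs_of_nonneg hg0]
    exact mul_le_mul_of_nonneg_right (hS y le_rfl) hg0
  have e : ∑ n ∈ Ioc Y y, a n * (g n : ℂ) =
      (∑ n ∈ Ioc Y y, a n * (g n : ℂ) - (∑ n ∈ Ioc Y y, a n) * (g y : ℂ)) +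
      (∑ n ∈ Ioc Y y, a n) * (g y : ℂ) := by ring
  rw [e]
  refine (norm_add_le _ _).trans ?_
  have e2 : K * g (Y + 1) = K * (g (Y + 1) - g y) + K * g y := by ring
  rw [e2]
  exact add_le_add h1 h2

/-- trivial bound for the short sum -/
private theorem abelLog_short {b : ℕ → ℂ} {x : ℝ} (hx : 3 ≤ x)
    (hb : ∀ n : ℕ, 1 ≤ n → ‖b n‖ ≤ 1 + Real.log n) (Y : ℕ) (hY : (Y : ℝ) ≤ Real.sqrt x) :
    ‖∑ n ∈ Icc 1 Y, b n‖ ≤ Real.sqrt x * (1 + Real.log x) := by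
  have hlog : 0 ≤ Real.log x := Real.log_nonneg (by linarith)
  have hsx : Real.sqrt x ≤ x := by
    rw [Real.sqrt_le_left (by linarith)]
    nlinarith
  refine (norm_sum_le _ _).trans ?_
  have h1 : ∀ n ∈ Icc 1 Y, ‖b n‖ ≤ 1 + Real.log x := by
    intro n hn
    rw [Finset.mem_Icc] at hn
    refine (hb n hn.1).trans ?_
    have hn0 : (0 : ℝ) < n := by exact_mod_cast (by omega : 0 < n)
    have hnY : (n : ℝ) ≤ Y := by exact_mod_cast hn.2
    have := Real.log_le_log hn0 ((hnY.trans hY).trans hsx)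
    linarith
  refine (Finset.sum_le_card_nsmul _ _ _ h1).trans ?_
  rw [Nat.card_Icc, nsmul_eq_mul]
  have e : ((Y + 1 - 1 : ℕ) : ℝ) = Y := by simp
  rw [e]
  exact mul_le_mul_of_nonneg_right hY (by linarith)

theorem abelLog (j : ℕ) {b : ℕ → ℂ} {x M : ℝ} (hx : 3 ≤ x) (hM : 0 ≤ M)
    (hb : ∀ n : ℕ, 1 ≤ n → ‖b n‖ ≤ 1 + Real.log n)
    (hA : ∀ y : ℕ, (y : ℝ) ≤ x → ‖∑ n ∈ Icc 1 y, b n * ((Real.log n : ℝ) : ℂ) ^ j‖ ≤ M)
    (y : ℕ) (hy : (y : ℝ) ≤ x) :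
    ‖∑ n ∈ Icc 1 y, b n‖ ≤
      Real.sqrt x * (1 + Real.log x) + 2 * 2 ^ j * M / Real.log x ^ j := by
  have hlx : 0 < Real.log x := Real.log_pos (by linarith)
  have hrest : 0 ≤ 2 * 2 ^ j * M / Real.log x ^ j := by positivity
  set Y : ℕ := ⌊Real.sqrt x⌋₊ with hYdef
  have hYle : (Y : ℝ) ≤ Real.sqrt x := Nat.floor_le (Real.sqrt_nonneg x)
  have hYlt : Real.sqrt x < (Y : ℝ) + 1 := Nat.lt_floor_add_one _
  by_cases hyY : y ≤ Y
  · have h1 := abelLog_short hx hb y ((by exact_mod_cast hyY : (y : ℝ) ≤ Y).trans hYle)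
    linarith
  push Not at hyY
  have hsplit : ∀ (f : ℕ → ℂ) (t : ℕ), Y ≤ t →
      ∑ n ∈ Icc 1 t, f n = ∑ n ∈ Icc 1 Y, f n + ∑ n ∈ Ioc Y t, f n := by
    intro f t ht
    rw [← Finset.sum_union]
    · congr 1
      ext n
      simp only [Finset.mem_Icc, Finset.mem_union, Finset.mem_Ioc]
      omega
    · rw [Finset.disjoint_left]
      intro n h1 h2
      rw [Finset.mem_Icc] at h1
      rw [Finset.mem_Ioc] at h2
      omega
  rw [hsplit b y hyY.le]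
  refine (norm_add_le _ _).trans (add_le_add (abelLog_short hx hb Y hYle) ?_)
  -- lower bound for the logarithm
  have hlogn : ∀ n : ℕ, Y + 1 ≤ n → Real.log x / 2 ≤ Real.log n := by
    intro n hn
    have h1 : Real.sqrt x ≤ n := by
      have : ((Y + 1 : ℕ) : ℝ) ≤ n := by exact_mod_cast hn
      push_cast at this
      linarith
    have h2 : 0 < Real.sqrt x := Real.sqrt_pos.2 (by linarith)
    rw [← Real.log_sqrt (by linarith)]
    exact Real.log_le_log h2 h1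
  have hlogpos : ∀ n : ℕ, Y + 1 ≤ n → 0 < Real.log n := by
    intro n hn
    have := hlogn n hn
    linarith
  -- the summands
  have hterm : ∀ n ∈ Ioc Y y, b n =
      (b n * ((Real.log n : ℝ) : ℂ) ^ j) * (((Real.log n ^ j)⁻¹ : ℝ) : ℂ) := by
    intro n hn
    rw [Finset.mem_Ioc] at hn
    have h1 := hlogpos n (by omega)
    have h2 : ((Real.log n : ℝ) : ℂ) ^ j ≠ 0 := pow_ne_zero _ (by exact_mod_cast h1.ne')
    push_cast
    rw [mul_assoc]
    push_cast at h2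
    rw [mul_inv_cancel₀ h2, mul_one]
  rw [Finset.sum_congr rfl hterm]
  have habel := abelLog_abel (fun n => b n * ((Real.log n : ℝ) : ℂ) ^ j)
    (fun n => (Real.log n ^ j)⁻¹) Y (2 * M) y (by omega) ?_ ?_ ?_
  · refine habel.trans ?_
    have h1 := hlogn (Y + 1) le_rfl
    have h2 := hlogpos (Y + 1) le_rfl
    have h3 : (Real.log ((Y + 1 : ℕ) : ℝ) ^ j)⁻¹ ≤ 2 ^ j / Real.log x ^ j := by
      rw [← div_pow, ← inv_pow]
      apply pow_le_pow_left₀ (inv_nonneg.2 h2.le)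
      rw [inv_le_comm₀ h2 (by positivity), inv_div]
      exact h1
    have h4 : 2 * M * (Real.log ((Y + 1 : ℕ) : ℝ) ^ j)⁻¹ ≤ 2 * M * (2 ^ j / Real.log x ^ j) :=
      mul_le_mul_of_nonneg_left h3 (by positivity)
    refine h4.trans (le_of_eq ?_)
    ring
  · intro t ht
    by_cases htY : Y ≤ t
    · have h1 := hsplit (fun n => b n * ((Real.log n : ℝ) : ℂ) ^ j) t htY
      have h2 : ∑ n ∈ Ioc Y t, b n * ((Real.log n : ℝ) : ℂ) ^ j =
          ∑ n ∈ Icc 1 t, b n * ((Real.log n : ℝ) : ℂ) ^ j -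
          ∑ n ∈ Icc 1 Y, b n * ((Real.log n : ℝ) : ℂ) ^ j := by
        rw [h1]; ring
      show ‖∑ n ∈ Ioc Y t, b n * ((Real.log n : ℝ) : ℂ) ^ j‖ ≤ 2 * M
      rw [h2]
      refine (norm_sub_le _ _).trans ?_
      have h3 := hA t (le_trans (by exact_mod_cast ht) hy)
      have h4 := hA Y (le_trans (by exact_mod_cast hyY.le) hy)
      linarith
    · have h1 : Ioc Y t = ∅ := Finset.Ioc_eq_empty (by omega)
      rw [h1]
      simp only [Finset.sum_empty, norm_zero]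
      linarith
  · intro n hn
    have h1 := hlogpos n hn
    have hn0 : (0 : ℝ) < n := by exact_mod_cast (by omega : 0 < n)
    have h2 : Real.log n ≤ Real.log ((n + 1 : ℕ) : ℝ) :=
      Real.log_le_log hn0 (by push_cast; linarith)
    apply inv_anti₀ (pow_pos h1 j)
    exact pow_le_pow_left₀ h1.le h2 j
  · have h1 := hlogpos y (by omega)
    show 0 ≤ (Real.log y ^ j)⁻¹
    positivity

end BVM
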