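import Mathlib

/-!
# Project BVM, part A (Bombieri-Vinogradov for infinitely many x): definitions and interfaces

Everything is unconditional.  `Good B x` = no exceptional real primitive character of conductor
`≤ (log x)^B` at the scale `x`; there are arbitrarily large good `x` (Landau repulsion), so no
Siegel theorem is needed.  All L-functions are used in `Re s > 1` only.
-/

open Finset ArithmeticFunction

namespace BVM

/-- The finite set of primitive characters modulo `q` (for `q ≠ 0`, see `mem_prim`). -/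
noncomputable def prim (q : ℕ) : Finset (DirichletCharacter ℂ q) := by
  classical
  exact if h : (Set.univ : Set (DirichletCharacter ℂ q)).Finite then
    h.toFinset.filter (fun χ => χ.IsPrimitive) else ∅

theorem mem_prim {q : ℕ} (hq : q ≠ 0) (χ : DirichletCharacter ℂ q) :
    χ ∈ prim q ↔ χ.IsPrimitive := by
  classical
  haveI : NeZero q := ⟨hq⟩
  have h : (Set.univ : Set (DirichletCharacter ℂ q)).Finite := Set.toFinite _
  simp [prim, h]

/-- There are at most `φ(q)` primitive characters modulo `q`. -/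
theorem card_prim_le {q : ℕ} (hq : q ≠ 0) : (prim q).card ≤ q.totient := by
  classical
  haveI : NeZero q := ⟨hq⟩
  have h : (Set.univ : Set (DirichletCharacter ℂ q)).Finite := Set.toFinite _
  have h1 : (prim q).card ≤ (Finset.univ : Finset (DirichletCharacter ℂ q)).card :=
    Finset.card_le_card (fun _ _ => Finset.mem_univ _)
  have h2 : (Finset.univ : Finset (DirichletCharacter ℂ q)).card = q.totient := by
    rw [Finset.card_univ, ← Nat.card_eq_fintype_card]
    exact DirichletCharacter.card_eq_totient_of_hasEnoughRootsOfUnity ℂ q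
  omega

/-- Riesz weight `(1 - t)_+`. -/
noncomputable def rz (t : ℝ) : ℝ := max 0 (1 - t)

/-- `ψ(y, χ) = ∑_{n ≤ y} Λ(n) χ(n)`. -/
noncomputable def psiChi {q : ℕ} (χ : DirichletCharacter ℂ q) (y : ℕ) : ℂ :=
  ∑ n ∈ Icc 1 y, ((vonMangoldt n : ℝ) : ℂ) * χ (n : ZMod q)

/-- Riesz mean `R_χ(u) = ∑_{n ≤ u} Λ(n) χ(n) (1 - n/u)`. -/
noncomputable def rieszChi {q : ℕ} (χ : DirichletCharacter ℂ q) (u : ℝ) : ℂ :=
  ∑ n ∈ Icc 1 ⌊u⌋₊, ((vonMangoldt n : ℝ) : ℂ) * χ (n : ZMod q) * ((rz (n / u) : ℝ) : ℂ)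

/-- `ell q t = log (q (|t| + 2))`. -/
noncomputable def ell (q : ℕ) (t : ℝ) : ℝ := Real.log (q * (|t| + 2))

/-- `x` is a good scale: every real primitive nonprincipal character of conductor
`≤ (log x)^B` satisfies `|L(σ, χ)| ≥ (log x)^(-1/2)` for `1 < σ ≤ 2`. -/
def Good (B : ℕ) (x : ℝ) : Prop :=
  ∀ q : ℕ, 1 ≤ q → (q : ℝ) ≤ Real.log x ^ B → ∀ χ : DirichletCharacter ℂ q,
    χ.IsPrimitive → χ ≠ 1 → χ ^ 2 = 1 → ∀ σ : ℝ, 1 < σ → σ ≤ 2 →
      1 / Real.sqrt (Real.log x) ≤ ‖LSeries (fun n => χ n) σ‖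

end BVM
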