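import Pool.Agent.helper24.BV.Tail

/-!
# BVA-LUp: upper bounds for `L(s,χ)` and its derivatives, `Re s > 1`, `χ` nonprincipal

PROOF.  `chi_sum_le`: for `χ ≠ 1` the sum over a full period is 0 (`MulChar.sum_eq_zero_of_ne_one`), so
`‖∑_{n ≤ N} χ n‖ ≤ q`.
`LUp`: `q ≥ 3` (for `q = 1, 2` every character is 1), `X = ⌊q(|t|+2)⌋₊ ≥ 6`, `log X ≤ ℓ := ell q t`,
`1/X ≤ 1.2/(q(|t|+2))`, `ℓ ≥ log 6 > 1`.
The part `n ≤ X`: `≤ ∑_{n ≤ X} (log n)^i / n ≤ ℓ^i (1 + log X) ≤ 2 ℓ^(i+1)`.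
The part `n > X` (limit `N → ∞` of `tail_bound` with `R = q`; the LSeries is the limit of its partial sums,
it is absolutely summable): `≤ 9 q (‖s‖ + i) i! ℓ^i * 1.2/(q(|t|+2)) ≤ 11 (1+i) i! ℓ^i` since
`‖s‖ ≤ 2 + |t|`; and `1 + i ≤ 2^i`.  Total `≤ 13 i! (2ℓ)^i ℓ`.
-/

open Finset ArithmeticFunction Complex

namespace BVM

private lemma lup_icc (f : ℕ → ℂ) (N : ℕ) : ∑ n ∈ Icc 1 N, f n = ∑ n ∈ range N, f (n + 1) := by
  rw [Finset.range_eq_Ico, Finset.sum_Ico_add' f 0 N 1]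
  congr 1

private lemma lup_period {q : ℕ} [NeZero q] (χ : DirichletCharacter ℂ q) (hχ : χ ≠ 1) :
    ∑ n ∈ range q, χ ((n + 1 : ℕ) : ZMod q) = 0 := by
  have h : ∑ n ∈ range q, χ ((n + 1 : ℕ) : ZMod q) = ∑ a : ZMod q, χ a := by
    refine Finset.sum_nbij' (fun n => ((n + 1 : ℕ) : ZMod q)) (fun a => (a - 1).val)
      (fun n _ => Finset.mem_univ _) (fun a _ => Finset.mem_range.mpr (ZMod.val_lt _)) ?_ ?_ ?_
    · intro n hn
      have hn' : n < q := Finset.mem_range.mp hn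
      simp [ZMod.val_cast_of_lt hn']
    · intro a _
      simp
    · intro n _
      rfl
  rw [h]
  exact MulChar.sum_eq_zero_of_ne_one hχ

theorem chi_sum_le {q : ℕ} [NeZero q] (χ : DirichletCharacter ℂ q) (hχ : χ ≠ 1) (N : ℕ) :
    ‖∑ n ∈ Icc 1 N, χ (n : ZMod q)‖ ≤ q := by
  rw [lup_icc (fun n => χ (n : ZMod q)) N]
  induction N using Nat.strong_induction_on with
  | _ N ih =>
    rcases lt_or_ge N q with hN | hN
    · refine (norm_sum_le _ _).trans ?_
      calc ∑ n ∈ range N, ‖χ ((n + 1 : ℕ) : ZMod q)‖ ≤ ∑ n ∈ range N, (1 : ℝ) :=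
            Finset.sum_le_sum fun n _ => χ.norm_le_one _
        _ = N := by simp
        _ ≤ q := by exact_mod_cast hN.le
    · obtain ⟨m, rfl⟩ := Nat.exists_eq_add_of_le hN
      rw [Finset.sum_range_add, lup_period χ hχ, zero_add]
      have h2 : ∀ x ∈ range m, χ ((q + x + 1 : ℕ) : ZMod q) = χ ((x + 1 : ℕ) : ZMod q) := by
        intro x _
        congr 1
        push_cast
        rw [ZMod.natCast_self]
        ring
      rw [Finset.sum_congr rfl h2]
      exact ih m (by have := NeZero.pos q; omega)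

/-- A nonprincipal character has modulus at least 3. -/
theorem three_le_of_ne_one {q : ℕ} [NeZero q] {χ : DirichletCharacter ℂ q} (hχ : χ ≠ 1) :
    3 ≤ q := by
  by_contra hq
  have hq' : q = 1 ∨ q = 2 := by
    have := NeZero.pos q
    omega
  rcases hq' with rfl | rfl
  · exact hχ (DirichletCharacter.level_one χ)
  · refine hχ (MulChar.ext fun a => ?_)
    have ha : a = 1 := by
      revert a
      decide
    rw [ha]
    simp

/-- `ℓ ≥ 1` for modulus at least 3. -/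
theorem one_le_ell {q : ℕ} (hq : 3 ≤ q) (t : ℝ) : 1 ≤ ell q t := by
  unfold ell
  have hq' : (3 : ℝ) ≤ q := by exact_mod_cast hq
  have ht := abs_nonneg t
  rw [Real.le_log_iff_exp_le (by positivity)]
  have := Real.exp_one_lt_d9
  nlinarith

private lemma lup_iterate (f : ℕ → ℂ) (i n : ℕ) :
    (LSeries.logMul^[i] f) n = f n * ((Real.log n : ℝ) : ℂ) ^ i := by
  induction i generalizing f with
  | zero => simp
  | succ i ih =>
    rw [Function.iterate_succ_apply, ih]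
    simp only [LSeries.logMul]
    rw [natCast_log, pow_succ]
    ring

private lemma lup_summ {q : ℕ} (χ : DirichletCharacter ℂ q) {s : ℂ} (hs : 1 < s.re) (i : ℕ) :
    LSeriesSummable (fun n : ℕ => χ (n : ZMod q) * ((Real.log n : ℝ) : ℂ) ^ i) s := by
  have hf : ∀ y : ℝ, 1 < y → LSeriesSummable (fun n : ℕ => χ (n : ZMod q)) y := fun y hy =>
    DirichletCharacter.LSeriesSummable_of_one_lt_re χ (by simpa using hy)
  have h1 : LSeries.abscissaOfAbsConv (fun n : ℕ => χ (n : ZMod q)) ≤ ((1 : ℝ) : EReal) :=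
    LSeries.abscissaOfAbsConv_le_of_forall_lt_LSeriesSummable hf
  have h2 : LSeries.abscissaOfAbsConv (LSeries.logMul^[i] (fun n : ℕ => χ (n : ZMod q))) <
      s.re := by
    rw [LSeries.absicssaOfAbsConv_logPowMul]
    exact lt_of_le_of_lt h1 (by exact_mod_cast hs)
  have h3 := LSeriesSummable_of_abscissaOfAbsConv_lt_re h2
  have h4 : LSeries.logMul^[i] (fun n : ℕ => χ (n : ZMod q)) =
      fun n : ℕ => χ (n : ZMod q) * ((Real.log n : ℝ) : ℂ) ^ i := by
    funext n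
    exact lup_iterate _ i n
  rwa [h4] at h3

theorem LUp : ∃ C : ℝ, 1 ≤ C ∧ ∀ (q : ℕ) [NeZero q] (χ : DirichletCharacter ℂ q), χ ≠ 1 →
    ∀ (i : ℕ) (s : ℂ), 1 < s.re → s.re ≤ 2 →
      ‖LSeries (fun n => χ (n : ZMod q) * ((Real.log n : ℝ) : ℂ) ^ i) s‖ ≤
        C * i.factorial * (2 * ell q s.im) ^ i * ell q s.im := by
  refine ⟨13, by norm_num, ?_⟩
  intro q _ χ hχ i s h1 h2
  have hq3 := three_le_of_ne_one hχ
  have hq3' : (3 : ℝ) ≤ q := by exact_mod_cast hq3
  set ℓ := ell q s.im with hℓ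
  have hℓ1 : 1 ≤ ℓ := one_le_ell hq3 _
  set Y : ℝ := q * (|s.im| + 2) with hY
  have ht0 := abs_nonneg s.im
  have hY6 : 6 ≤ Y := by
    rw [hY]
    nlinarith
  have hℓY : ℓ = Real.log Y := rfl
  set X : ℕ := ⌊Y⌋₊ with hX
  have hXY : (X : ℝ) ≤ Y := Nat.floor_le (by linarith)
  have hX6 : 6 ≤ X := Nat.le_floor (by exact_mod_cast hY6)
  have hX6' : (6 : ℝ) ≤ X := by exact_mod_cast hX6
  have hYX : Y < X + 1 := Nat.lt_floor_add_one Y
  have hlogX : Real.log X ≤ ℓ := Real.log_le_log (by linarith) hXY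
  have hlogX0 : 0 ≤ Real.log X := Real.log_nonneg (by linarith)
  set f : ℕ → ℂ := fun n => χ (n : ZMod q) * ((Real.log n : ℝ) : ℂ) ^ i with hf
  have hsum := lup_summ χ h1 i
  -- first part
  have hA : ‖∑ n ∈ Icc 1 X, LSeries.term f s n‖ ≤ ℓ ^ i * (1 + ℓ) := by
    refine (norm_sum_le _ _).trans ?_
    have hb : ∀ n ∈ Icc 1 X, ‖LSeries.term f s n‖ ≤ ℓ ^ i * (1 / (n : ℝ)) := by
      intro n hn
      obtain ⟨hn1, hnX⟩ := Finset.mem_Icc.mp hn
      have hn0 : n ≠ 0 := by omega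
      have hn1' : (1 : ℝ) ≤ n := by exact_mod_cast hn1
      rw [LSeries.norm_term_eq, if_neg hn0]
      have hlogn : 0 ≤ Real.log n := Real.log_nonneg hn1'
      have hlogn2 : Real.log n ≤ ℓ :=
        (Real.log_le_log (by linarith) (by exact_mod_cast hnX)).trans hlogX
      have hfn : ‖f n‖ ≤ ℓ ^ i := by
        rw [hf]
        simp only [norm_mul, norm_pow, Complex.norm_real, Real.norm_eq_abs, abs_of_nonneg hlogn]
        calc ‖χ (n : ZMod q)‖ * Real.log n ^ i ≤ 1 * ℓ ^ i :=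
              mul_le_mul (χ.norm_le_one _) (pow_le_pow_left₀ hlogn hlogn2 i)
                (by positivity) (by norm_num)
          _ = ℓ ^ i := one_mul _
      have hpow : (n : ℝ) ≤ (n : ℝ) ^ s.re := by
        calc (n : ℝ) = (n : ℝ) ^ (1 : ℝ) := (Real.rpow_one _).symm
          _ ≤ (n : ℝ) ^ s.re := Real.rpow_le_rpow_of_exponent_le hn1' h1.le
      rw [div_eq_mul_one_div]
      exact mul_le_mul hfn (one_div_le_one_div_of_le (by linarith) hpow) (by positivity)
        (by positivity)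
    refine (Finset.sum_le_sum hb).trans ?_
    rw [← Finset.mul_sum]
    apply mul_le_mul_of_nonneg_left _ (by positivity)
    have hh := harmonic_le_one_add_log X
    have he : ((harmonic X : ℚ) : ℝ) = ∑ n ∈ Icc 1 X, 1 / (n : ℝ) := by
      rw [harmonic_eq_sum_Icc]
      push_cast
      simp
    rw [← he]
    linarith
  have hB : ∀ N : ℕ, X ≤ N → ‖∑ n ∈ Ioc X N, LSeries.term f s n‖ ≤
      11 * i.factorial * (2 * ℓ) ^ i * ℓ := by
    intro N hN
    have ht := tail_bound (fun n => χ (n : ZMod q)) q (chi_sum_le χ hχ) i X N (by omega) s h1.le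
    have he : ∑ n ∈ Ioc X N, LSeries.term f s n =
        ∑ n ∈ Ioc X N, χ (n : ZMod q) * ((Real.log n : ℝ) : ℂ) ^ i * (n : ℂ) ^ (-s) := by
      refine Finset.sum_congr rfl fun n hn => ?_
      have hn0 : n ≠ 0 := by
        have := (Finset.mem_Ioc.mp hn).1
        omega
      rw [LSeries.term_of_ne_zero hn0, cpow_neg, div_eq_mul_inv]
    rw [he]
    refine ht.trans ?_
    have hsn : ‖s‖ ≤ |s.im| + 2 := by
      refine (Complex.norm_le_abs_re_add_abs_im s).trans ?_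
      rw [abs_of_pos (by linarith : 0 < s.re)]
      linarith
    have hi2 : (1 : ℝ) + i ≤ 2 ^ i := by
      have := Nat.lt_two_pow_self (n := i)
      exact_mod_cast (by omega : 1 + i ≤ 2 ^ i)
    have hfac : (0 : ℝ) < i.factorial := by exact_mod_cast Nat.factorial_pos i
    have hlp : Real.log X ^ i ≤ ℓ ^ i := pow_le_pow_left₀ hlogX0 hlogX i
    have hi0 : (0 : ℝ) ≤ i := Nat.cast_nonneg i
    have hA1 : (q : ℝ) * (‖s‖ + i) ≤ Y * (1 + i) := by
      rw [hY]
      have : ‖s‖ + i ≤ (|s.im| + 2) * (1 + i) := by nlinarith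
      calc (q : ℝ) * (‖s‖ + i) ≤ q * ((|s.im| + 2) * (1 + i)) :=
            mul_le_mul_of_nonneg_left this (by linarith)
        _ = q * (|s.im| + 2) * (1 + i) := by ring
    have hYX2 : Y ≤ 11 / 9 * X := by nlinarith
    rw [div_le_iff₀ (by linarith)]
    calc 9 * (q : ℝ) * (‖s‖ + i) * i.factorial * Real.log X ^ i
        = 9 * (q * (‖s‖ + i)) * i.factorial * Real.log X ^ i := by ring
      _ ≤ 9 * (Y * (1 + i)) * i.factorial * ℓ ^ i := by
          gcongr
      _ ≤ 9 * ((11 / 9 * X) * 2 ^ i) * i.factorial * ℓ ^ i := by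
          gcongr
      _ = 11 * i.factorial * (2 * ℓ) ^ i * 1 * X := by
          rw [mul_pow]
          ring
      _ ≤ 11 * i.factorial * (2 * ℓ) ^ i * ℓ * X := by
          gcongr
  have hC : ∀ N : ℕ, X ≤ N → ‖∑ n ∈ range (N + 1), LSeries.term f s n‖ ≤
      13 * i.factorial * (2 * ℓ) ^ i * ℓ := by
    intro N hN
    have he : ∑ n ∈ range (N + 1), LSeries.term f s n =
        ∑ n ∈ Icc 1 X, LSeries.term f s n + ∑ n ∈ Ioc X N, LSeries.term f s n := by
      rw [Finset.sum_range_succ', LSeries.term_zero, add_zero, ← lup_icc]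
      have : Icc 1 N = Ioc 0 N := by
        ext
        simp [Finset.mem_Icc, Finset.mem_Ioc, Nat.succ_le_iff]
      have h' : Icc 1 X = Ioc 0 X := by
        ext
        simp [Finset.mem_Icc, Finset.mem_Ioc, Nat.succ_le_iff]
      rw [this, h', Finset.sum_Ioc_consecutive _ (Nat.zero_le _) hN]
    rw [he]
    refine (norm_add_le _ _).trans ((add_le_add hA (hB N hN)).trans ?_)
    have hfac : (1 : ℝ) ≤ i.factorial := by exact_mod_cast Nat.succ_le_of_lt (Nat.factorial_pos i)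
    have h21 : ℓ ^ i ≤ (2 * ℓ) ^ i := pow_le_pow_left₀ (by linarith) (by linarith) i
    have hp : 0 ≤ ℓ ^ i := by positivity
    have h3 : ℓ ^ i * (1 + ℓ) ≤ 2 * i.factorial * (2 * ℓ) ^ i * ℓ := by
      calc ℓ ^ i * (1 + ℓ) ≤ ℓ ^ i * (2 * ℓ) := by
            apply mul_le_mul_of_nonneg_left _ hp
            linarith
        _ ≤ (2 * ℓ) ^ i * (2 * ℓ) := by gcongr
        _ = 2 * 1 * (2 * ℓ) ^ i * ℓ := by ring
        _ ≤ 2 * i.factorial * (2 * ℓ) ^ i * ℓ := by gcongr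
    linarith
  have hlim := (hsum.hasSum.tendsto_sum_nat.comp (Filter.tendsto_add_atTop_nat 1)).norm
  refine le_of_tendsto hlim ?_
  filter_upwards [Filter.eventually_ge_atTop X] with N hN
  exact hC N hN

end BVM
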