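import Pool.Agent.helper24.BV.Defs

/-!
# BVA-TrivD: trivial bounds for Dirichlet series with coefficients `≤ (1 + log n)^(j+1)`

PROOF.  Let `δ = σ - 1 ∈ (0,1]`.  From `e^x ≥ x^m/m!` with `x = (δ/2) (1 + log n)`:
`(1 + log n)^m ≤ m! (2/δ)^m e^(δ/2) n^(δ/2)`.  With `m = j+1`:
`‖b n (log n)^j n^(-s)‖ ≤ (1+log n)^(j+1) n^(-σ) ≤ C δ^(-(j+1)) n^(-1-δ/2)`, and
`∑_{n≥1} n^(-1-δ/2) ≤ 1 + 2/δ ≤ 3/δ`.  (Mathlib: e.g. compare with the integral, or
`ZetaAsymp`/`tsum` of `1/n^(1+δ)`; a self-contained way: `n^(-1-ε) ≤ (1/ε)((n-1)^(-ε) - n^(-ε))`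
for `n ≥ 2` and telescope.)
-/

open Finset ArithmeticFunction Complex

namespace BVM

private theorem trivD_tel {ε : ℝ} (hε : 0 < ε) (n : ℕ) :
    ((n : ℝ) + 1 + 1) ^ (-(1 + ε)) ≤
      (1 / ε) * (((n : ℝ) + 1) ^ (-ε) - ((n : ℝ) + 1 + 1) ^ (-ε)) := by
  have hn : (0 : ℝ) < (n : ℝ) + 1 := by positivity
  have hn1 : (0 : ℝ) < (n : ℝ) + 1 + 1 := by positivity
  have h1 : 1 + ε / ((n : ℝ) + 1 + 1) ≤ (((n : ℝ) + 1 + 1) / ((n : ℝ) + 1)) ^ ε := by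
    have hpos : (0 : ℝ) < ((n : ℝ) + 1 + 1) / ((n : ℝ) + 1) := by positivity
    rw [Real.rpow_def_of_pos hpos]
    have h2 := Real.one_sub_inv_le_log_of_pos hpos
    have h3 := Real.add_one_le_exp (Real.log (((n : ℝ) + 1 + 1) / ((n : ℝ) + 1)) * ε)
    have h4 : 1 - (((n : ℝ) + 1 + 1) / ((n : ℝ) + 1))⁻¹ = 1 / ((n : ℝ) + 1 + 1) := by
      field_simp
      ring
    rw [h4] at h2
    have h5 : ε / ((n : ℝ) + 1 + 1) ≤ Real.log (((n : ℝ) + 1 + 1) / ((n : ℝ) + 1)) * ε := by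
      calc ε / ((n : ℝ) + 1 + 1) = (1 / ((n : ℝ) + 1 + 1)) * ε := by ring
        _ ≤ _ := by gcongr
    linarith
  have h6 : ((n : ℝ) + 1) ^ (-ε) = (((n : ℝ) + 1 + 1) / ((n : ℝ) + 1)) ^ ε *
      ((n : ℝ) + 1 + 1) ^ (-ε) := by
    rw [Real.div_rpow hn1.le hn.le, Real.rpow_neg hn.le, Real.rpow_neg hn1.le]
    have h7 : ((n : ℝ) + 1 + 1) ^ ε ≠ 0 := (Real.rpow_pos_of_pos hn1 ε).ne'
    field_simp
  have h8 : ((n : ℝ) + 1 + 1) ^ (-(1 + ε)) =
      (1 / ((n : ℝ) + 1 + 1)) * ((n : ℝ) + 1 + 1) ^ (-ε) := by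
    rw [neg_add, Real.rpow_add hn1, Real.rpow_neg_one]
    ring
  have h9 : (0 : ℝ) ≤ ((n : ℝ) + 1 + 1) ^ (-ε) := (Real.rpow_pos_of_pos hn1 _).le
  rw [h8, h6]
  have h10 : (1 / ε) * ((((n : ℝ) + 1 + 1) / ((n : ℝ) + 1)) ^ ε * ((n : ℝ) + 1 + 1) ^ (-ε) -
      ((n : ℝ) + 1 + 1) ^ (-ε)) = ((1 / ε) * ((((n : ℝ) + 1 + 1) / ((n : ℝ) + 1)) ^ ε - 1)) *
        ((n : ℝ) + 1 + 1) ^ (-ε) := by ring
  rw [h10]
  apply mul_le_mul_of_nonneg_right _ h9
  rw [div_mul_eq_mul_div, one_mul, le_div_iff₀ hε]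
  have h11 : 1 / ((n : ℝ) + 1 + 1) * ε = ε / ((n : ℝ) + 1 + 1) := by ring
  rw [h11]
  linarith

private theorem trivD_partial {ε : ℝ} (hε : 0 < ε) (n : ℕ) :
    ∑ i ∈ range (n + 1), ((i : ℝ) + 1) ^ (-(1 + ε)) ≤
      1 + (1 / ε) * (1 - ((n : ℝ) + 1) ^ (-ε)) := by
  induction n with
  | zero => simp
  | succ n ih =>
    rw [Finset.sum_range_succ]
    have h := trivD_tel hε n
    push_cast
    have e : (1 / ε) * (1 - ((n : ℝ) + 1 + 1) ^ (-ε)) =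
        (1 / ε) * (1 - ((n : ℝ) + 1) ^ (-ε)) +
          (1 / ε) * (((n : ℝ) + 1) ^ (-ε) - ((n : ℝ) + 1 + 1) ^ (-ε)) := by ring
    rw [e]
    linarith

private theorem trivD_pow (m : ℕ) {δ : ℝ} (hδ : 0 < δ) {n : ℕ} (hn : 1 ≤ n) :
    (1 + Real.log n) ^ m ≤
      (m.factorial : ℝ) * (2 / δ) ^ m * Real.exp (δ / 2) * (n : ℝ) ^ (δ / 2) := by
  have hn0 : (0 : ℝ) < (n : ℝ) := by exact_mod_cast hn
  have hlog : 0 ≤ Real.log n := Real.log_natCast_nonneg n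
  have hx : 0 ≤ (δ / 2) * (1 + Real.log n) := by positivity
  have h1 := Real.pow_div_factorial_le_exp _ hx m
  have hf : (0 : ℝ) < (m.factorial : ℝ) := by positivity
  rw [div_le_iff₀ hf] at h1
  have h2 : Real.exp ((δ / 2) * (1 + Real.log n)) = Real.exp (δ / 2) * (n : ℝ) ^ (δ / 2) := by
    rw [Real.rpow_def_of_pos hn0, ← Real.exp_add]
    congr 1
    ring
  rw [h2] at h1
  have h3 : (1 + Real.log n) ^ m = (2 / δ) ^ m * ((δ / 2) * (1 + Real.log n)) ^ m := by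
    rw [← mul_pow]
    congr 1
    field_simp
  rw [h3]
  calc (2 / δ) ^ m * ((δ / 2) * (1 + Real.log n)) ^ m
      ≤ (2 / δ) ^ m * (Real.exp (δ / 2) * (n : ℝ) ^ (δ / 2) * (m.factorial : ℝ)) := by
        gcongr
    _ = _ := by ring

private theorem trivD_coeff (j : ℕ) (b : ℕ → ℂ) (hb : ∀ n, 1 ≤ n → ‖b n‖ ≤ 1 + Real.log n)
    {δ : ℝ} (hδ : 0 < δ) {n : ℕ} (hn : 1 ≤ n) :
    ‖b n * ((Real.log n : ℝ) : ℂ) ^ j‖ ≤
      ((j + 1).factorial : ℝ) * (2 / δ) ^ (j + 1) * Real.exp (δ / 2) * (n : ℝ) ^ (δ / 2) := by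
  have hlog : 0 ≤ Real.log n := Real.log_natCast_nonneg n
  refine le_trans ?_ (trivD_pow (j + 1) hδ hn)
  rw [norm_mul, norm_pow, Complex.norm_real, Real.norm_eq_abs, abs_of_nonneg hlog, pow_succ,
    mul_comm ((1 + Real.log n) ^ j)]
  have h1 : Real.log n ^ j ≤ (1 + Real.log n) ^ j := by
    apply pow_le_pow_left₀ hlog
    linarith
  exact mul_le_mul (hb n hn) h1 (pow_nonneg hlog j) (by linarith)

/-- `∑ n^(-1-ε) ≤ 1 + 1/ε`. -/
theorem tsum_rpow_le {ε : ℝ} (hε : 0 < ε) :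
    Summable (fun n : ℕ => ((n : ℝ) + 1) ^ (-(1 + ε))) ∧
      ∑' n : ℕ, ((n : ℝ) + 1) ^ (-(1 + ε)) ≤ 1 + 1 / ε := by
  constructor
  · have h := (summable_nat_add_iff 1).2
      (Real.summable_nat_rpow.2 (show -(1 + ε) < -1 by linarith))
    refine h.congr ?_
    intro n
    push_cast
    rfl
  · apply Real.tsum_le_of_sum_range_le
    · intro n
      positivity
    · intro n
      rcases n with _ | n
      · simp only [Finset.range_zero, Finset.sum_empty]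
        positivity
      · refine (trivD_partial hε n).trans ?_
        have h1 : (0 : ℝ) ≤ ((n : ℝ) + 1) ^ (-ε) := by positivity
        have h2 : (1 / ε) * (1 - ((n : ℝ) + 1) ^ (-ε)) ≤ (1 / ε) * 1 := by
          apply mul_le_mul_of_nonneg_left _ (by positivity)
          linarith
        linarith

theorem trivD_summable (j : ℕ) (b : ℕ → ℂ) (hb : ∀ n, 1 ≤ n → ‖b n‖ ≤ 1 + Real.log n)
    (s : ℂ) (hs : 1 < s.re) :
    LSeriesSummable (fun n => b n * ((Real.log n : ℝ) : ℂ) ^ j) s := by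
  have hδ : 0 < s.re - 1 := by linarith
  apply LSeriesSummable_of_le_const_mul_rpow (x := 1 + (s.re - 1) / 2) (by linarith)
  refine ⟨((j + 1).factorial : ℝ) * (2 / (s.re - 1)) ^ (j + 1) * Real.exp ((s.re - 1) / 2), ?_⟩
  intro n hn
  have h := trivD_coeff j b hb hδ (Nat.one_le_iff_ne_zero.2 hn)
  rw [add_sub_cancel_left]
  exact h

theorem trivD (j : ℕ) : ∃ C : ℝ, 1 ≤ C ∧ ∀ (b : ℕ → ℂ), (∀ n, 1 ≤ n → ‖b n‖ ≤ 1 + Real.log n) →
    ∀ s : ℂ, 1 < s.re → s.re ≤ 2 →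
      ‖LSeries (fun n => b n * ((Real.log n : ℝ) : ℂ) ^ j) s‖ ≤ C / (s.re - 1) ^ (j + 2) := by
  refine ⟨3 * (((j + 1).factorial : ℝ) * 2 ^ (j + 1) * Real.exp (1 / 2)), ?_, ?_⟩
  · have h1 : (1 : ℝ) ≤ ((j + 1).factorial : ℝ) := by
      exact_mod_cast Nat.one_le_iff_ne_zero.2 (Nat.factorial_ne_zero _)
    have h2 : (1 : ℝ) ≤ 2 ^ (j + 1) := one_le_pow₀ (by norm_num)
    have h3 : (1 : ℝ) ≤ Real.exp (1 / 2) := Real.one_le_exp (by norm_num)
    have h4 := one_le_mul_of_one_le_of_one_le (one_le_mul_of_one_le_of_one_le h1 h2) h3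
    linarith
  · intro b hb s hs1 hs2
    have hδ : 0 < s.re - 1 := by linarith
    have hsum := trivD_summable j b hb s hs1
    set δ := s.re - 1 with hδdef
    set A : ℝ := ((j + 1).factorial : ℝ) * (2 / δ) ^ (j + 1) * Real.exp (δ / 2) with hA
    have hA0 : 0 ≤ A := by positivity
    have hε : 0 < δ / 2 := by positivity
    have ht := tsum_rpow_le hε
    have hbound : ∀ n : ℕ, ‖LSeries.term (fun n => b n * ((Real.log n : ℝ) : ℂ) ^ j) s (n + 1)‖ ≤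
        A * ((n : ℝ) + 1) ^ (-(1 + δ / 2)) := by
      intro n
      have hn0 : (0 : ℝ) < ((n + 1 : ℕ) : ℝ) := by positivity
      rw [LSeries.term_of_ne_zero (Nat.succ_ne_zero n), norm_div,
        Complex.norm_natCast_cpow_of_pos (Nat.succ_pos n)]
      have h := trivD_coeff j b hb hδ (Nat.succ_le_succ (Nat.zero_le n))
      rw [div_le_iff₀ (Real.rpow_pos_of_pos hn0 _)]
      refine h.trans (le_of_eq ?_)
      rw [mul_assoc A]
      congr 1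
      have e1 : ((n : ℝ) + 1) = ((n + 1 : ℕ) : ℝ) := by push_cast; rfl
      rw [e1, ← Real.rpow_add hn0]
      congr 1
      rw [hδdef]
      ring
    have hs1' : Summable (fun n : ℕ =>
        ‖LSeries.term (fun n => b n * ((Real.log n : ℝ) : ℂ) ^ j) s n‖) := hsum.norm
    have h1 : ‖LSeries (fun n => b n * ((Real.log n : ℝ) : ℂ) ^ j) s‖ ≤
        ∑' n : ℕ, ‖LSeries.term (fun n => b n * ((Real.log n : ℝ) : ℂ) ^ j) s n‖ :=
      norm_tsum_le_tsum_norm hs1'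
    have h2 : ∑' n : ℕ, ‖LSeries.term (fun n => b n * ((Real.log n : ℝ) : ℂ) ^ j) s n‖ =
        ∑' n : ℕ, ‖LSeries.term (fun n => b n * ((Real.log n : ℝ) : ℂ) ^ j) s (n + 1)‖ := by
      rw [hs1'.tsum_eq_zero_add]
      simp
    have h3 : ∑' n : ℕ, ‖LSeries.term (fun n => b n * ((Real.log n : ℝ) : ℂ) ^ j) s (n + 1)‖ ≤
        ∑' n : ℕ, A * ((n : ℝ) + 1) ^ (-(1 + δ / 2)) :=
      Summable.tsum_le_tsum hbound ((summable_nat_add_iff 1).2 hs1') (ht.1.mul_left A)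
    rw [tsum_mul_left] at h3
    have h4 : A * ∑' n : ℕ, ((n : ℝ) + 1) ^ (-(1 + δ / 2)) ≤ A * (3 / δ) := by
      apply mul_le_mul_of_nonneg_left _ hA0
      refine ht.2.trans ?_
      have e2 : 1 + 1 / (δ / 2) = (δ + 2) / δ := by
        field_simp
      rw [e2]
      apply div_le_div_of_nonneg_right _ hδ.le
      linarith
    have h5 : A ≤ (((j + 1).factorial : ℝ) * 2 ^ (j + 1) * Real.exp (1 / 2)) / δ ^ (j + 1) := by
      rw [hA, div_pow, mul_div_assoc', div_mul_eq_mul_div]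
      apply div_le_div_of_nonneg_right _ (by positivity)
      apply mul_le_mul_of_nonneg_left _ (by positivity)
      apply Real.exp_le_exp.2
      linarith
    calc ‖LSeries (fun n => b n * ((Real.log n : ℝ) : ℂ) ^ j) s‖
        ≤ A * (3 / δ) := by
          rw [h2] at h1
          exact h1.trans (h3.trans h4)
      _ ≤ (((j + 1).factorial : ℝ) * 2 ^ (j + 1) * Real.exp (1 / 2)) / δ ^ (j + 1) * (3 / δ) := by
          apply mul_le_mul_of_nonneg_right h5 (by positivity)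
      _ = 3 * (((j + 1).factorial : ℝ) * 2 ^ (j + 1) * Real.exp (1 / 2)) / δ ^ (j + 2) := by
          rw [pow_succ δ (j + 1)]
          field_simp

end BVM
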