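import Pool.Agent.helper24.BV.Defs

/-!
# BVA-Unsm: from Riesz means to sharp sums (proofs: helper51)

PROOF.  Let `A(t) = ∑_{n ≤ t} b n`.  `∫_0^u A(t) dt = ∑_{n ≤ u} b n (u - n) = u R(u)` with
`R(u) = ∑_{n ≤ u} b n rz(n/u)`.  So `∫_y^(y+h) A = (y+h) R(y+h) - y R(y)` has norm `≤ 4 x M`
(`y + h ≤ 2x`; for `y = 0` the second term is 0), and for `t ∈ [y, y+h]`
`‖A(t) - A(y)‖ ≤ ∑_{y < n ≤ y+h} ‖b n‖ ≤ (h+1) L`.  Hence
`h ‖A(y)‖ ≤ ‖∫_y^(y+h) A‖ + ∫_y^(y+h) ‖A(t)-A(y)‖ dt ≤ 4 x M + h (h+1) L`.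
(An integral-free way for natural `y`: identity
`(y+h) R(y+h) - y R(y) = h A(y) + ∑_{y < n ≤ y+h} b n (y + h - n)`, pure algebra.)
-/

open Finset ArithmeticFunction

namespace BVM

private lemma Unsm_aux (b : ℕ → ℂ) {u : ℝ} (hu : 0 < u) :
    (u : ℂ) * ∑ n ∈ Icc 1 ⌊u⌋₊, b n * ((rz (n / u) : ℝ) : ℂ) =
      ∑ n ∈ Icc 1 ⌊u⌋₊, b n * ((u - n : ℝ) : ℂ) := by
  rw [Finset.mul_sum]
  refine Finset.sum_congr rfl fun n hn => ?_
  have hn2 : (n : ℝ) ≤ u := by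
    have h1 := (Finset.mem_Icc.1 hn).2
    exact (Nat.le_floor_iff hu.le).1 h1
  have h2 : rz ((n : ℝ) / u) = 1 - n / u := by
    unfold rz
    rw [max_eq_right]
    rw [sub_nonneg]
    exact (div_le_one hu).2 hn2
  rw [h2]
  have h3 : ((u - n : ℝ) : ℂ) = (u : ℂ) * ((1 - n / u : ℝ) : ℂ) := by
    rw [← Complex.ofReal_mul]
    congr 1
    field_simp
  rw [h3]; ring

theorem unsmooth {b : ℕ → ℂ} {x h M L : ℝ} (hx : 1 ≤ x) (hh : 0 < h) (hhx : h ≤ x)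
    (hM : 0 ≤ M) (hL : 0 ≤ L) (hb : ∀ n : ℕ, 1 ≤ n → (n : ℝ) ≤ 2 * x → ‖b n‖ ≤ L)
    (hR : ∀ u : ℝ, 0 < u → u ≤ 2 * x →
      ‖∑ n ∈ Icc 1 ⌊u⌋₊, b n * ((rz (n / u) : ℝ) : ℂ)‖ ≤ M)
    (y : ℕ) (hy : (y : ℝ) ≤ x) :
    ‖∑ n ∈ Icc 1 y, b n‖ ≤ 4 * x * M / h + (h + 1) * L := by
  have hy0 : (0 : ℝ) ≤ y := Nat.cast_nonneg y
  set u : ℝ := y + h with hu
  have hu0 : 0 < u := by positivity
  have hu2 : u ≤ 2 * x := by rw [hu]; linarith
  set N : ℕ := ⌊u⌋₊ with hN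
  have hyN : y ≤ N := Nat.le_floor (by rw [hu]; linarith)
  have hNu : (N : ℝ) ≤ u := Nat.floor_le hu0.le
  have e1 := Unsm_aux b hu0
  have hR1 := hR u hu0 hu2
  have e2 : ‖∑ n ∈ Icc 1 y, b n * ((y - n : ℝ) : ℂ)‖ ≤ y * M := by
    rcases Nat.eq_zero_or_pos y with h0 | h0
    · subst h0
      simp
    · have hyp : (0 : ℝ) < y := by exact_mod_cast h0
      have e3 := Unsm_aux b hyp
      have h1 := hR y hyp (by linarith)
      rw [Nat.floor_natCast] at e3 h1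
      rw [← e3, norm_mul, Complex.norm_real, Real.norm_eq_abs, abs_of_nonneg hy0]
      exact mul_le_mul_of_nonneg_left h1 hy0
  have e4 : ‖∑ n ∈ Icc 1 N, b n * ((u - n : ℝ) : ℂ)‖ ≤ u * M := by
    rw [← e1, norm_mul, Complex.norm_real, Real.norm_eq_abs, abs_of_nonneg hu0.le]
    exact mul_le_mul_of_nonneg_left hR1 hu0.le
  have hsplit : ∀ f : ℕ → ℂ, ∑ n ∈ Icc 1 N, f n = ∑ n ∈ Icc 1 y, f n + ∑ n ∈ Ioc y N, f n := by
    intro f
    have h1 : Icc 1 N = Icc 1 y ∪ Ioc y N := by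
      ext n
      simp only [Finset.mem_union, Finset.mem_Icc, Finset.mem_Ioc]
      omega
    rw [h1, Finset.sum_union]
    rw [Finset.disjoint_left]
    intro n hn hn'
    rw [Finset.mem_Icc] at hn
    rw [Finset.mem_Ioc] at hn'
    omega
  have e5 : (h : ℂ) * ∑ n ∈ Icc 1 y, b n =
      ∑ n ∈ Icc 1 N, b n * ((u - n : ℝ) : ℂ) - ∑ n ∈ Icc 1 y, b n * ((y - n : ℝ) : ℂ) -
        ∑ n ∈ Ioc y N, b n * ((u - n : ℝ) : ℂ) := by
    rw [hsplit, Finset.mul_sum]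
    have h1 : ∑ n ∈ Icc 1 y, (h : ℂ) * b n =
        ∑ n ∈ Icc 1 y, b n * ((u - n : ℝ) : ℂ) - ∑ n ∈ Icc 1 y, b n * ((y - n : ℝ) : ℂ) := by
      rw [← Finset.sum_sub_distrib]
      refine Finset.sum_congr rfl fun n _ => ?_
      rw [hu]
      push_cast
      ring
    rw [h1]; ring
  have e6 : ‖∑ n ∈ Ioc y N, b n * ((u - n : ℝ) : ℂ)‖ ≤ h * (h * L) := by
    have h1 : ∀ n ∈ Ioc y N, ‖b n * ((u - n : ℝ) : ℂ)‖ ≤ h * L := by
      intro n hn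
      rw [Finset.mem_Ioc] at hn
      have hn1 : (y : ℝ) ≤ n := by exact_mod_cast hn.1.le
      have hn2 : (n : ℝ) ≤ u := le_trans (by exact_mod_cast hn.2) hNu
      have h2 := hb n (by omega) (hn2.trans hu2)
      rw [norm_mul, Complex.norm_real, Real.norm_eq_abs, abs_of_nonneg (by linarith), mul_comm]
      exact mul_le_mul (by rw [hu]; linarith) h2 (norm_nonneg _) hh.le
    refine (Finset.sum_le_sum h1 |> (norm_sum_le _ _).trans).trans ?_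
    rw [Finset.sum_const, Nat.card_Ioc, nsmul_eq_mul]
    refine mul_le_mul_of_nonneg_right ?_ (by positivity)
    rw [Nat.cast_sub hyN]
    rw [hu] at hNu
    linarith
  have e7 : h * ‖∑ n ∈ Icc 1 y, b n‖ ≤ u * M + y * M + h * (h * L) := by
    have h1 : h * ‖∑ n ∈ Icc 1 y, b n‖ = ‖(h : ℂ) * ∑ n ∈ Icc 1 y, b n‖ := by
      rw [norm_mul, Complex.norm_real, Real.norm_eq_abs, abs_of_nonneg hh.le]
    rw [h1, e5]
    refine (norm_sub_le _ _).trans (add_le_add ((norm_sub_le _ _).trans (add_le_add e4 e2)) e6)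
  have e8 : ‖∑ n ∈ Icc 1 y, b n‖ ≤ (4 * x * M + h * ((h + 1) * L)) / h := by
    rw [le_div_iff₀ hh, mul_comm]
    refine e7.trans ?_
    have h1 : u * M + y * M ≤ 4 * x * M := by
      rw [← add_mul]
      exact mul_le_mul_of_nonneg_right (by linarith) hM
    have h2 : h * (h * L) ≤ h * ((h + 1) * L) := by
      refine mul_le_mul_of_nonneg_left ?_ hh.le
      exact mul_le_mul_of_nonneg_right (by linarith) hL
    linarith
  refine e8.trans (le_of_eq ?_)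
  field_simp

end BVM
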