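import Pool.Agent.helper24.BV.RieszL
import Pool.Agent.helper24.BV.TrivD
import Pool.Agent.helper24.BV.Unsm
import Pool.Agent.helper24.BV.AbelLog

/-!
# BVA-LogTrick: from bounds of the (8k)-th derivative of a Dirichlet series on the line
`Re s = 1 + 1/log x` to sums over `n ≤ x`

PROOF.  Put `j = 8k`, `l = log x ≥ 1`, `σ = 1 + 1/l ≤ 2`, `T = l^(8k+2)`, `b' n = b n (log n)^j`.
1. `riesz_LSeries_bound` for `a = b'`: `B1 = K l^(6k+1)` (hypothesis), `B2 = C_j l^(j+2)` (`trivD`;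
   `1/(σ-1) = l`), so `B2/T ≤ C_j`.  For `0 < u ≤ 2x`: `u^σ = u u^(1/l) ≤ 2x (2x)^(1/l) ≤ 2x * 2e ≤ 12 x`
   (`x^(1/log x) = e`, `2^(1/l) ≤ 2`).  Hence all Riesz means of `b'` up to `2x` are
   `≤ M := 12 x (K l^(6k+1) + C_j) ≤ C x K l^(6k+1)`.
2. `unsmooth` with `h = x / l^k ≤ x` and `L = (1 + log (2x))^(j+1) ≤ (3 l)^(j+1)`
   (`1 + log 2 + l ≤ 3 l`): for `y ≤ x`
   `‖∑_{n ≤ y} b' n‖ ≤ 4 x M / h + (h+1) L ≤ C K x l^(7k+1) + C x l^(8k+1-k) ≤ C K x l^(7k+1)`
   (`h + 1 ≤ C h` because `x/l^k` is bounded below by a positive constant depending on `k`).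
3. `abelLog`: `‖∑_{n ≤ y} b n‖ ≤ √x (1 + l) + 2 * 2^j C K x l^(7k+1) / l^(8k) ≤ C K x l / l^k`
   (`√x (1+l) ≤ C x l / l^k` since `l^k ≤ C √x`).
-/

open Finset ArithmeticFunction Complex

namespace BVM

private theorem LogTrick_one_le {x : ℝ} (hx : 3 ≤ x) : 1 ≤ Real.log x := by
  rw [Real.le_log_iff_exp_le (by linarith)]
  have := Real.exp_one_lt_d9
  linarith

private theorem LogTrick_rpow {x u : ℝ} (hx : 3 ≤ x) (hu : 0 < u) (hux : u ≤ 2 * x) :
    u ^ (1 + 1 / Real.log x) ≤ 12 * x := by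
  have hl := LogTrick_one_le hx
  have hl0 : 0 < Real.log x := by linarith
  have hx0 : 0 < x := by linarith
  have h1 : 0 ≤ 1 / Real.log x := by positivity
  have h1' : 1 / Real.log x ≤ 1 := by
    rw [div_le_one hl0]
    exact hl
  have h2 : u ^ (1 + 1 / Real.log x) ≤ (2 * x) ^ (1 + 1 / Real.log x) :=
    Real.rpow_le_rpow hu.le hux (by linarith)
  have h3 : (2 * x) ^ (1 + 1 / Real.log x) = (2 * x) * (2 * x) ^ (1 / Real.log x) := by
    rw [Real.rpow_add (by positivity), Real.rpow_one]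
  have h4 : (2 * x) ^ (1 / Real.log x) = (2 : ℝ) ^ (1 / Real.log x) * x ^ (1 / Real.log x) :=
    Real.mul_rpow (by norm_num) hx0.le
  have h5 : (2 : ℝ) ^ (1 / Real.log x) ≤ 2 := by
    calc (2 : ℝ) ^ (1 / Real.log x) ≤ (2 : ℝ) ^ (1 : ℝ) :=
          Real.rpow_le_rpow_of_exponent_le (by norm_num) h1'
      _ = 2 := Real.rpow_one 2
  have h6 : x ^ (1 / Real.log x) = Real.exp 1 := by
    rw [Real.rpow_def_of_pos hx0]
    congr 1
    field_simp
  have h7 : x ^ (1 / Real.log x) ≤ 3 := by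
    rw [h6]
    have := Real.exp_one_lt_d9
    linarith
  have h8 : 0 ≤ x ^ (1 / Real.log x) := by positivity
  calc u ^ (1 + 1 / Real.log x) ≤ (2 * x) ^ (1 + 1 / Real.log x) := h2
    _ = (2 * x) * ((2 : ℝ) ^ (1 / Real.log x) * x ^ (1 / Real.log x)) := by rw [h3, h4]
    _ ≤ (2 * x) * (2 * 3) := by
        refine mul_le_mul_of_nonneg_left ?_ (by positivity)
        exact mul_le_mul h5 h7 h8 (by norm_num)
    _ = 12 * x := by ring

private theorem LogTrick_pow_le {x : ℝ} (hx : 3 ≤ x) (k : ℕ) :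
    Real.log x ^ k ≤ (k.factorial : ℝ) * x := by
  have hl := LogTrick_one_le hx
  have h := Real.pow_div_factorial_le_exp (Real.log x) (by linarith) k
  rw [Real.exp_log (by linarith), div_le_iff₀ (by positivity)] at h
  linarith

private theorem LogTrick_pow_le_sqrt {x : ℝ} (hx : 3 ≤ x) (k : ℕ) :
    Real.log x ^ k ≤ 2 ^ k * (k.factorial : ℝ) * Real.sqrt x := by
  have hl := LogTrick_one_le hx
  have h := Real.pow_div_factorial_le_exp (Real.log x / 2) (by linarith) k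
  have h2 : Real.exp (Real.log x / 2) = Real.sqrt x := by
    rw [Real.sqrt_eq_rpow, Real.rpow_def_of_pos (by linarith)]
    congr 1
    ring
  rw [h2, div_le_iff₀ (by positivity), div_pow, div_le_iff₀ (by positivity)] at h
  linarith

theorem log_trick (k : ℕ) : ∃ C : ℝ, 0 < C ∧ ∀ (b : ℕ → ℂ) (x K : ℝ), 3 ≤ x → 1 ≤ K →
    (∀ n : ℕ, 1 ≤ n → ‖b n‖ ≤ 1 + Real.log n) →
    (∀ ξ : ℝ, |ξ| ≤ Real.log x ^ (8 * k + 2) →
      ‖LSeries (fun n => b n * ((Real.log n : ℝ) : ℂ) ^ (8 * k))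
        (((1 + 1 / Real.log x : ℝ) : ℂ) + ξ * I)‖ ≤ K * Real.log x ^ (6 * k + 1)) →
    ∀ y : ℕ, (y : ℝ) ≤ x →
      ‖∑ n ∈ Icc 1 y, b n‖ ≤ C * K * x * Real.log x / Real.log x ^ k := by
  obtain ⟨Cj, hCj, htriv⟩ := trivD (8 * k)
  set C1 : ℝ := 48 * (1 + Cj) + (1 + (k.factorial : ℝ)) * 3 ^ (8 * k + 1) with hC1
  have hC1pos : 0 < C1 := by positivity
  refine ⟨2 * (2 ^ k * (k.factorial : ℝ)) + 2 * 2 ^ (8 * k) * C1, by positivity, ?_⟩
  intro b x K hx hK hb hLS y hy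
  have hl := LogTrick_one_le hx
  set l := Real.log x with hldef
  have hl0 : 0 < l := by linarith
  have hx0 : 0 < x := by linarith
  have hK0 : 0 < K := by linarith
  have hlk : ∀ m : ℕ, 1 ≤ l ^ m := fun m => one_le_pow₀ hl
  -- step 1 : the Riesz means
  have hσ1 : 1 < 1 + 1 / l := by
    have : 0 < 1 / l := by positivity
    linarith
  have hσ2 : 1 + 1 / l ≤ 2 := by
    have : 1 / l ≤ 1 := by
      rw [div_le_one hl0]
      exact hl
    linarith
  have hsum : LSeriesSummable (fun n => b n * ((Real.log n : ℝ) : ℂ) ^ (8 * k))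
      ((1 + 1 / l : ℝ) : ℂ) := by
    refine trivD_summable (8 * k) b hb _ ?_
    rw [Complex.ofReal_re]
    exact hσ1
  have hB2 : ∀ ξ : ℝ, ‖LSeries (fun n => b n * ((Real.log n : ℝ) : ℂ) ^ (8 * k))
      (((1 + 1 / l : ℝ) : ℂ) + ξ * I)‖ ≤ Cj * l ^ (8 * k + 2) := by
    intro ξ
    have hre : (((1 + 1 / l : ℝ) : ℂ) + ξ * I).re = 1 + 1 / l := by simp
    have := htriv b hb (((1 + 1 / l : ℝ) : ℂ) + ξ * I) (by rw [hre]; exact hσ1)
      (by rw [hre]; exact hσ2)
    refine this.trans (le_of_eq ?_)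
    rw [hre]
    have h1 : 1 + 1 / l - 1 = 1 / l := by ring
    rw [h1, one_div, inv_pow, div_inv_eq_mul]
  have hM0 : 0 ≤ 12 * x * (K * l ^ (6 * k + 1) + Cj) := by positivity
  have hR : ∀ u : ℝ, 0 < u → u ≤ 2 * x →
      ‖∑ n ∈ Icc 1 ⌊u⌋₊, (b n * ((Real.log n : ℝ) : ℂ) ^ (8 * k)) * ((rz (n / u) : ℝ) : ℂ)‖ ≤
        12 * x * (K * l ^ (6 * k + 1) + Cj) := by
    intro u hu hux
    have h := riesz_LSeries_bound (a := fun n => b n * ((Real.log n : ℝ) : ℂ) ^ (8 * k))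
      (σ := 1 + 1 / l) (u := u) (T := l ^ (8 * k + 2)) (B1 := K * l ^ (6 * k + 1))
      (B2 := Cj * l ^ (8 * k + 2)) hσ1.le hu (hlk _) hsum (by positivity) (by positivity)
      hLS hB2
    refine h.trans ?_
    have h2 : Cj * l ^ (8 * k + 2) / l ^ (8 * k + 2) = Cj := by
      rw [mul_div_assoc, div_self (by positivity), mul_one]
    rw [h2]
    exact mul_le_mul_of_nonneg_right (LogTrick_rpow hx hu hux) (by positivity)
  -- step 2 : removing the smoothing
  have hlog2x : 1 + Real.log (2 * x) ≤ 3 * l := by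
    rw [Real.log_mul (by norm_num) (by positivity)]
    have h2 : Real.log 2 ≤ 1 := by
      have := Real.log_two_lt_d9
      linarith
    rw [← hldef]
    linarith
  have hlog2x0 : 0 ≤ 1 + Real.log (2 * x) := by
    have : 0 ≤ Real.log (2 * x) := Real.log_nonneg (by linarith)
    linarith
  have hbL : ∀ n : ℕ, 1 ≤ n → (n : ℝ) ≤ 2 * x →
      ‖b n * ((Real.log n : ℝ) : ℂ) ^ (8 * k)‖ ≤ (1 + Real.log (2 * x)) ^ (8 * k + 1) := by
    intro n hn hnx
    have hn0 : (0 : ℝ) < n := by exact_mod_cast hn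
    have h1 : 0 ≤ Real.log n := Real.log_nonneg (by exact_mod_cast hn)
    have h2 : Real.log n ≤ Real.log (2 * x) := Real.log_le_log hn0 hnx
    rw [norm_mul, norm_pow, Complex.norm_real, Real.norm_of_nonneg h1, pow_succ']
    refine mul_le_mul ((hb n hn).trans (by linarith)) ?_ (by positivity) hlog2x0
    exact pow_le_pow_left₀ h1 (by linarith) _
  have hstep2 : ∀ y : ℕ, (y : ℝ) ≤ x →
      ‖∑ n ∈ Icc 1 y, b n * ((Real.log n : ℝ) : ℂ) ^ (8 * k)‖ ≤
        C1 * K * x * l ^ (7 * k + 1) := by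
    intro y hy
    have hh : 0 < x / l ^ k := by positivity
    have hhx : x / l ^ k ≤ x := div_le_self hx0.le (hlk k)
    have h := unsmooth (b := fun n => b n * ((Real.log n : ℝ) : ℂ) ^ (8 * k)) (x := x)
      (h := x / l ^ k) (M := 12 * x * (K * l ^ (6 * k + 1) + Cj))
      (L := (1 + Real.log (2 * x)) ^ (8 * k + 1)) (by linarith) hh hhx hM0 (by positivity)
      hbL hR y hy
    refine h.trans ?_
    have e1 : 4 * x * (12 * x * (K * l ^ (6 * k + 1) + Cj)) / (x / l ^ k) =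
        48 * x * (K * l ^ (6 * k + 1) + Cj) * l ^ k := by
      field_simp
      ring
    have e2 : Cj ≤ Cj * (K * l ^ (6 * k + 1)) := by
      have : 1 ≤ K * l ^ (6 * k + 1) := one_le_mul_of_one_le_of_one_le hK (hlk _)
      nlinarith
    have e3 : 48 * x * (K * l ^ (6 * k + 1) + Cj) * l ^ k ≤
        48 * (1 + Cj) * K * x * l ^ (7 * k + 1) := by
      have e4 : 48 * (1 + Cj) * K * x * l ^ (7 * k + 1) =
          48 * x * (K * l ^ (6 * k + 1) + Cj * (K * l ^ (6 * k + 1))) * l ^ k := by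
        rw [show 7 * k + 1 = (6 * k + 1) + k by ring, pow_add]
        ring
      rw [e4]
      gcongr
    have e5 : x / l ^ k + 1 ≤ (1 + (k.factorial : ℝ)) * (x / l ^ k) := by
      have h1 := LogTrick_pow_le hx k
      have h2 : 1 ≤ (k.factorial : ℝ) * (x / l ^ k) := by
        rw [← mul_div_assoc, le_div_iff₀ (by positivity)]
        linarith
      linarith
    have e6 : (1 + Real.log (2 * x)) ^ (8 * k + 1) ≤ 3 ^ (8 * k + 1) * l ^ (8 * k + 1) := by
      rw [← mul_pow]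
      exact pow_le_pow_left₀ hlog2x0 hlog2x _
    have e7 : (x / l ^ k + 1) * (1 + Real.log (2 * x)) ^ (8 * k + 1) ≤
        (1 + (k.factorial : ℝ)) * 3 ^ (8 * k + 1) * K * x * l ^ (7 * k + 1) := by
      calc (x / l ^ k + 1) * (1 + Real.log (2 * x)) ^ (8 * k + 1)
          ≤ ((1 + (k.factorial : ℝ)) * (x / l ^ k)) * (3 ^ (8 * k + 1) * l ^ (8 * k + 1)) := by
            refine mul_le_mul e5 e6 (by positivity) (by positivity)
        _ = (1 + (k.factorial : ℝ)) * 3 ^ (8 * k + 1) * 1 * x * l ^ (7 * k + 1) := by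
            rw [show 8 * k + 1 = (7 * k + 1) + k by ring, pow_add l]
            field_simp
        _ ≤ (1 + (k.factorial : ℝ)) * 3 ^ (8 * k + 1) * K * x * l ^ (7 * k + 1) := by
            gcongr
    rw [e1]
    calc 48 * x * (K * l ^ (6 * k + 1) + Cj) * l ^ k +
          (x / l ^ k + 1) * (1 + Real.log (2 * x)) ^ (8 * k + 1)
        ≤ 48 * (1 + Cj) * K * x * l ^ (7 * k + 1) +
          (1 + (k.factorial : ℝ)) * 3 ^ (8 * k + 1) * K * x * l ^ (7 * k + 1) := add_le_add e3 e7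
      _ = C1 * K * x * l ^ (7 * k + 1) := by
          rw [hC1]
          ring
  -- step 3 : removing the logarithms
  have h := abelLog (8 * k) (b := b) (x := x) (M := C1 * K * x * l ^ (7 * k + 1)) hx
    (by positivity) hb hstep2 y hy
  refine h.trans ?_
  rw [← hldef]
  have f1 : 2 * 2 ^ (8 * k) * (C1 * K * x * l ^ (7 * k + 1)) / l ^ (8 * k) =
      2 * 2 ^ (8 * k) * C1 * K * x * l / l ^ k := by
    rw [show 8 * k = 7 * k + k by ring, pow_succ l (7 * k), pow_add l (7 * k) k]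
    field_simp
  have f2 : Real.sqrt x * (1 + l) ≤ 2 * (2 ^ k * (k.factorial : ℝ)) * K * x * l / l ^ k := by
    have g1 := LogTrick_pow_le_sqrt hx k
    rw [← hldef] at g1
    rw [le_div_iff₀ (by positivity)]
    have g2 : Real.sqrt x * Real.sqrt x = x := Real.mul_self_sqrt hx0.le
    have g3 : 0 ≤ Real.sqrt x := Real.sqrt_nonneg x
    calc Real.sqrt x * (1 + l) * l ^ k
        ≤ Real.sqrt x * (2 * l) * (2 ^ k * (k.factorial : ℝ) * Real.sqrt x) := by
          refine mul_le_mul ?_ g1 (by positivity) (by positivity)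
          exact mul_le_mul_of_nonneg_left (by linarith) g3
      _ = 2 * (2 ^ k * (k.factorial : ℝ)) * 1 * (Real.sqrt x * Real.sqrt x) * l := by ring
      _ = 2 * (2 ^ k * (k.factorial : ℝ)) * 1 * x * l := by rw [g2]
      _ ≤ 2 * (2 ^ k * (k.factorial : ℝ)) * K * x * l := by gcongr
  rw [f1]
  calc Real.sqrt x * (1 + l) + 2 * 2 ^ (8 * k) * C1 * K * x * l / l ^ k
      ≤ 2 * (2 ^ k * (k.factorial : ℝ)) * K * x * l / l ^ k +
        2 * 2 ^ (8 * k) * C1 * K * x * l / l ^ k := by linarith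
    _ = (2 * (2 ^ k * (k.factorial : ℝ)) + 2 * 2 ^ (8 * k) * C1) * K * x * l / l ^ k := by ring

end BVM
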