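import Pool.Agent.helper24.BV.Defs

/-!
# BVA-Prod4: the product of two real characters

PROOF.  `prodChar χ₁ χ₂` is the product of the two characters lifted to the modulus `q₁ q₂`; for every
natural `n` its value is `χ₁(n) χ₂(n)` (if `gcd(n, q₁q₂) = 1` by `changeLevel_eq_cast_of_dvd`; otherwise
both sides are 0, a prime dividing `n` and `q₁q₂` divides `q₁` or `q₂`).
(`prod4`) `DirichletCharacter.LSeries_eulerProduct_exp_log` (or `LSeries_eulerProduct_hasProd`): for real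
`σ > 1` all four series are products over primes `p` of `(1 - ε p^(-σ))^(-1)`, `ε = 1, a, b, ab` with
`a = χ₁(p), b = χ₂(p) ∈ {-1,0,1}` (`χ² = 1` implies real values).  For each `p`, `u = p^(-σ) ∈ (0,1)`:
`(1-u)(1-au)(1-bu)(1-abu) ≤ 1` and `> 0` (cases: `(1-u)⁴`, `(1-u²)²`, `(1-u)²`, `1-u²`, `1-u`), so the norm
of the product of the four L-values is a limit of products of factors `≥ 1`.
(`prodChar_ne_one`) If `prodChar χ₁ χ₂ = 1` then (`χ₂² = 1`) the lifts of `χ₁` and `χ₂` to `q₁q₂` are equal; the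
conductor of a lift is the conductor of the character (`q₁` resp. `q₂` for primitive ones), so
`q₁ = q₂`, and `changeLevel` is injective (`changeLevel_injective`), contradiction to `h`.
-/

open Finset ArithmeticFunction Complex

namespace BVM

/-- The product character modulo `q₁ q₂`. -/
noncomputable def prodChar {q₁ q₂ : ℕ} (χ₁ : DirichletCharacter ℂ q₁)
    (χ₂ : DirichletCharacter ℂ q₂) : DirichletCharacter ℂ (q₁ * q₂) :=
  DirichletCharacter.changeLevel (Dvd.intro q₂ rfl) χ₁ *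
    DirichletCharacter.changeLevel (Dvd.intro_left q₁ rfl) χ₂

theorem prodChar_apply {q₁ q₂ : ℕ} (h1 : q₁ ≠ 0) (h2 : q₂ ≠ 0) (χ₁ : DirichletCharacter ℂ q₁)
    (χ₂ : DirichletCharacter ℂ q₂) (n : ℕ) :
    prodChar χ₁ χ₂ (n : ZMod (q₁ * q₂)) = χ₁ (n : ZMod q₁) * χ₂ (n : ZMod q₂) := by
  have : NeZero q₁ := ⟨h1⟩
  have : NeZero q₂ := ⟨h2⟩
  by_cases hn : Nat.Coprime n (q₁ * q₂)
  · have hc : IsCoprime (n : ℤ) ((q₁ * q₂ : ℕ) : ℤ) := Nat.isCoprime_iff_coprime.mpr hn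
    have e1 := DirichletCharacter.changeLevel_eq_cast_of_dvd' χ₁ (Dvd.intro q₂ rfl) hc
    have e2 := DirichletCharacter.changeLevel_eq_cast_of_dvd' χ₂ (Dvd.intro_left q₁ rfl) hc
    have e1' : DirichletCharacter.changeLevel (Dvd.intro q₂ rfl) χ₁ (n : ZMod (q₁ * q₂)) =
        χ₁ (n : ZMod q₁) := by simpa using e1
    have e2' : DirichletCharacter.changeLevel (Dvd.intro_left q₁ rfl) χ₂
        (n : ZMod (q₁ * q₂)) = χ₂ (n : ZMod q₂) := by simpa using e2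
    rw [prodChar, MulChar.mul_apply, e1', e2']
  · have hnu : ¬ IsUnit (n : ZMod (q₁ * q₂)) := by
      rwa [ZMod.isUnit_iff_coprime]
    rw [MulChar.map_nonunit _ hnu]
    by_cases ha : Nat.Coprime n q₁
    · have hb : ¬ Nat.Coprime n q₂ := fun hb => hn (Nat.Coprime.mul_right ha hb)
      have hb' : ¬ IsUnit (n : ZMod q₂) := by rwa [ZMod.isUnit_iff_coprime]
      rw [MulChar.map_nonunit _ hb', mul_zero]
    · have ha' : ¬ IsUnit (n : ZMod q₁) := by rwa [ZMod.isUnit_iff_coprime]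
      rw [MulChar.map_nonunit _ ha', zero_mul]

theorem prodChar_ne_one {q₁ q₂ : ℕ} (h1 : q₁ ≠ 0) (h2 : q₂ ≠ 0) (χ₁ : DirichletCharacter ℂ q₁)
    (χ₂ : DirichletCharacter ℂ q₂) (hp1 : χ₁.IsPrimitive) (hp2 : χ₂.IsPrimitive)
    (hr2 : χ₂ ^ 2 = 1)
    (h : ∀ e : q₁ = q₂, DirichletCharacter.changeLevel (dvd_of_eq e) χ₁ ≠ χ₂) :
    prodChar χ₁ χ₂ ≠ 1 := by
  have : NeZero q₁ := ⟨h1⟩
  have : NeZero q₂ := ⟨h2⟩
  have : NeZero (q₁ * q₂) := ⟨mul_ne_zero h1 h2⟩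
  intro hone
  have hd1 : q₁ ∣ q₁ * q₂ := Dvd.intro q₂ rfl
  have hd2 : q₂ ∣ q₁ * q₂ := Dvd.intro_left q₁ rfl
  have hsq : DirichletCharacter.changeLevel hd2 χ₂ * DirichletCharacter.changeLevel hd2 χ₂ = 1 := by
    rw [← map_mul, ← sq, hr2, map_one]
  have heq : DirichletCharacter.changeLevel hd1 χ₁ = DirichletCharacter.changeLevel hd2 χ₂ := by
    have h3 : DirichletCharacter.changeLevel hd1 χ₁ * DirichletCharacter.changeLevel hd2 χ₂ = 1 :=
      hone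
    calc DirichletCharacter.changeLevel hd1 χ₁
        = DirichletCharacter.changeLevel hd1 χ₁ *
            (DirichletCharacter.changeLevel hd2 χ₂ * DirichletCharacter.changeLevel hd2 χ₂) := by
          rw [hsq, mul_one]
      _ = DirichletCharacter.changeLevel hd2 χ₂ := by rw [← mul_assoc, h3, one_mul]
  have hc1 := DirichletCharacter.conductor_changeLevel χ₁ hd1
  have hc2 := DirichletCharacter.conductor_changeLevel χ₂ hd2
  rw [heq] at hc1
  have hqq : q₁ = q₂ := by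
    have e1 : χ₁.conductor = q₁ := hp1
    have e2 : χ₂.conductor = q₂ := hp2
    rw [← e1, ← e2, ← hc1, ← hc2]
  apply h hqq
  apply DirichletCharacter.changeLevel_injective hd2
  rw [← DirichletCharacter.changeLevel_trans]
  exact heq

private theorem prod4_val3 {q : ℕ} (χ : DirichletCharacter ℂ q) (hr : χ ^ 2 = 1) (a : ZMod q) :
    χ a = 0 ∨ χ a = 1 ∨ χ a = -1 := by
  by_cases ha : IsUnit a
  · right
    have h : (χ a) ^ 2 = 1 := by
      have h0 : (χ ^ 2) a = (1 : DirichletCharacter ℂ q) a := by rw [hr]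
      rwa [MulChar.pow_apply' χ two_ne_zero, MulChar.one_apply ha] at h0
    exact mul_self_eq_one_iff.mp (by rwa [← sq])
  · left; exact MulChar.map_nonunit _ ha

private theorem prod4_real (u : ℝ) (hu0 : 0 < u) (hu1 : u < 1) (a b : ℂ)
    (ha : a = 0 ∨ a = 1 ∨ a = -1) (hb : b = 0 ∨ b = 1 ∨ b = -1) :
    1 ≤ ‖(1 - (u : ℂ))⁻¹ * (1 - a * (u : ℂ))⁻¹ * (1 - b * (u : ℂ))⁻¹ *
      (1 - a * b * (u : ℂ))⁻¹‖ := by
  have key : ∀ v : ℝ, 0 < v → v ≤ 1 → ∀ w : ℂ, w = (v : ℂ) → 1 ≤ ‖w⁻¹‖ := by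
    intro v hv0 hv1 w hw
    rw [hw, norm_inv, Complex.norm_real, Real.norm_eq_abs, abs_of_pos hv0]
    exact (one_le_inv₀ hv0).mpr hv1
  rw [← mul_inv, ← mul_inv, ← mul_inv]
  have hu2 : 0 < 1 - u := by linarith
  have hu3 : 0 < 1 + u := by linarith
  have hu4 : (1 - u) * (1 + u) ≤ 1 := by nlinarith
  have hu5 : (1 - u) ^ 2 ≤ 1 := by nlinarith
  have hu6 : 0 < (1 - u) * (1 + u) := by positivity
  rcases ha with rfl | rfl | rfl <;> rcases hb with rfl | rfl | rfl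
  · exact key (1 - u) hu2 (by linarith) _ (by push_cast; ring)
  · exact key ((1 - u) ^ 2) (by positivity) hu5 _ (by push_cast; ring)
  · exact key ((1 - u) * (1 + u)) (by positivity) hu4 _ (by push_cast; ring)
  · exact key ((1 - u) ^ 2) (by positivity) hu5 _ (by push_cast; ring)
  · exact key (((1 - u) ^ 2) ^ 2) (by positivity) (by nlinarith [sq_nonneg (1 - u)]) _
      (by push_cast; ring)
  · exact key (((1 - u) * (1 + u)) ^ 2) (by positivity) (by nlinarith) _ (by push_cast; ring)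
  · exact key ((1 - u) * (1 + u)) (by positivity) hu4 _ (by push_cast; ring)
  · exact key (((1 - u) * (1 + u)) ^ 2) (by positivity) (by nlinarith) _ (by push_cast; ring)
  · exact key (((1 - u) * (1 + u)) ^ 2) (by positivity) (by nlinarith) _ (by push_cast; ring)

private theorem prod4_factor {q₁ q₂ : ℕ} (h1 : q₁ ≠ 0) (h2 : q₂ ≠ 0)
    (χ₁ : DirichletCharacter ℂ q₁) (χ₂ : DirichletCharacter ℂ q₂) (hr1 : χ₁ ^ 2 = 1)
    (hr2 : χ₂ ^ 2 = 1) (σ : ℝ) (hσ : 1 < σ) (p : ℕ) (hp : p.Prime) :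
    1 ≤ ‖(1 - (p : ℂ) ^ (-(σ : ℂ)))⁻¹ * (1 - χ₁ (p : ZMod q₁) * (p : ℂ) ^ (-(σ : ℂ)))⁻¹ *
      (1 - χ₂ (p : ZMod q₂) * (p : ℂ) ^ (-(σ : ℂ)))⁻¹ *
      (1 - prodChar χ₁ χ₂ (p : ZMod (q₁ * q₂)) * (p : ℂ) ^ (-(σ : ℂ)))⁻¹‖ := by
  have hpc : (p : ℂ) ^ (-(σ : ℂ)) = (((p : ℝ) ^ (-σ) : ℝ) : ℂ) := by
    rw [Complex.ofReal_cpow (Nat.cast_nonneg p)]
    push_cast
    rfl
  rw [hpc, prodChar_apply h1 h2]
  refine prod4_real _ ?_ ?_ _ _ (prod4_val3 χ₁ hr1 _) (prod4_val3 χ₂ hr2 _)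
  · exact Real.rpow_pos_of_pos (by exact_mod_cast hp.pos) _
  · exact Real.rpow_lt_one_of_one_lt_of_neg (by exact_mod_cast hp.one_lt) (by linarith)

theorem prod4 {q₁ q₂ : ℕ} (h1 : q₁ ≠ 0) (h2 : q₂ ≠ 0) (χ₁ : DirichletCharacter ℂ q₁)
    (χ₂ : DirichletCharacter ℂ q₂) (hr1 : χ₁ ^ 2 = 1) (hr2 : χ₂ ^ 2 = 1) (σ : ℝ) (hσ : 1 < σ) :
    1 ≤ ‖LSeries (fun _ => (1 : ℂ)) (σ : ℂ)‖ * ‖LSeries (fun n => χ₁ (n : ZMod q₁)) (σ : ℂ)‖ *
      ‖LSeries (fun n => χ₂ (n : ZMod q₂)) (σ : ℂ)‖ *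
      ‖LSeries (fun n => prodChar χ₁ χ₂ (n : ZMod (q₁ * q₂))) (σ : ℂ)‖ := by
  have hre : 1 < (σ : ℂ).re := by simpa using hσ
  have T0 : Filter.Tendsto (fun n : ℕ ↦ ∏ p ∈ Nat.primesBelow n, (1 - (p : ℂ) ^ (-(σ : ℂ)))⁻¹)
      Filter.atTop (nhds (LSeries (fun _ => (1 : ℂ)) (σ : ℂ))) := by
    have e : LSeries (fun _ => (1 : ℂ)) (σ : ℂ) = riemannZeta σ := LSeries_one_eq_riemannZeta hre
    rw [e]
    exact riemannZeta_eulerProduct hre
  have T1 := DirichletCharacter.LSeries_eulerProduct χ₁ hre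
  have T2 := DirichletCharacter.LSeries_eulerProduct χ₂ hre
  have T3 := DirichletCharacter.LSeries_eulerProduct (prodChar χ₁ χ₂) hre
  have T := ((T0.norm.mul T1.norm).mul T2.norm).mul T3.norm
  refine ge_of_tendsto' T (fun n => ?_)
  rw [← norm_mul, ← norm_mul, ← norm_mul, ← Finset.prod_mul_distrib, ← Finset.prod_mul_distrib,
    ← Finset.prod_mul_distrib, norm_prod]
  refine Finset.one_le_prod (fun p hp => ?_)
  have hpp : p.Prime := Nat.prime_of_mem_primesBelow hp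
  exact prod4_factor h1 h2 χ₁ χ₂ hr1 hr2 σ hσ p hpp

end BVM
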