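import Pool.Agent.helper24.BV.Prod4
import Pool.Agent.helper24.BV.LUp
import Pool.Agent.helper24.BV.LTriv

/-!
# BVA-Rep: Landau repulsion in `Re s > 1`

PROOF.  `η = max ‖L(σ₁,χ₁)‖ ‖L(σ₂,χ₂)‖ > 0`, `λ = log Z ≥ 1`; `q₁, q₂ ≤ Z`, so all `ell q 0 = log (2q)` of
the moduli `q₁, q₂, q₁q₂` are `≤ 3λ` (`2 Z² ≤ Z³`).  If `η ≥ 1` nothing to prove (`c ≤ 1`).  Let
`η < 1`.  `L_lower_triv`: `σᵢ - 1 ≤ 2η`.  At `σ = 1 + η ≤ 2`: the real segment between `σ` and `σᵢ` and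
`LUp` (`i = 1`): `‖L(σ,χᵢ)‖ ≤ η + |1+η-σᵢ| 2C(3λ)² ≤ η + 2η * 18Cλ² ≤ C' η λ²`.  `‖L(σ,χ₁χ₂)‖ ≤ 3Cλ`
(`LUp`, `i = 0`, `prodChar_ne_one`), `ζ(σ) ≤ 2/η` (`LTriv_real` for `q = 1`).  `prod4`:
`1 ≤ (2/η)(C'ηλ²)²(3Cλ) = C'' η λ⁵`.
-/

open Finset ArithmeticFunction Complex

namespace BVM

/-- The derivative of `L(x, χ)` along the real axis. -/
private theorem rep_hasDeriv {q : ℕ} [NeZero q] (χ : DirichletCharacter ℂ q) (x : ℝ) (hx : 1 < x) :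
    HasDerivAt (fun y : ℝ => LSeries (fun n => χ (n : ZMod q)) (y : ℂ))
      (-LSeries (fun n => χ (n : ZMod q) * ((Real.log n : ℝ) : ℂ) ^ 1) (x : ℂ)) x := by
  have habs : LSeries.abscissaOfAbsConv (fun n => χ (n : ZMod q)) < ((x : ℂ)).re := by
    rw [DirichletCharacter.absicssaOfAbsConv_eq_one (NeZero.ne q) χ]
    rw [Complex.ofReal_re]
    exact_mod_cast hx
  have h1 := LSeries_hasDerivAt habs
  have h2 : LSeries (LSeries.logMul (fun n => χ (n : ZMod q))) (x : ℂ) =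
      LSeries (fun n => χ (n : ZMod q) * ((Real.log n : ℝ) : ℂ) ^ 1) (x : ℂ) := by
    apply LSeries_congr
    intro n _
    simp only [LSeries.logMul, pow_one]
    rw [mul_comm, Complex.natCast_log]
  rw [h2] at h1
  exact h1.comp_ofReal

/-- Comparison of two values of `L` on the real axis. -/
private theorem rep_diff {q : ℕ} [NeZero q] (χ : DirichletCharacter ℂ q) (B : ℝ)
    (hB : ∀ x : ℝ, 1 < x → x ≤ 2 →
      ‖LSeries (fun n => χ (n : ZMod q) * ((Real.log n : ℝ) : ℂ) ^ 1) (x : ℂ)‖ ≤ B)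
    (x y : ℝ) (hx : 1 < x) (hx2 : x ≤ 2) (hy : 1 < y) (hy2 : y ≤ 2) :
    ‖LSeries (fun n => χ (n : ZMod q)) (y : ℂ)‖ ≤
      ‖LSeries (fun n => χ (n : ZMod q)) (x : ℂ)‖ + B * |y - x| := by
  have h := Convex.norm_image_sub_le_of_norm_hasDerivWithin_le
    (f := fun y : ℝ => LSeries (fun n => χ (n : ZMod q)) (y : ℂ))
    (f' := fun x : ℝ => -LSeries (fun n => χ (n : ZMod q) * ((Real.log n : ℝ) : ℂ) ^ 1) (x : ℂ))
    (C := B) (s := Set.Ioc (1 : ℝ) 2) (x := x) (y := y)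
    (fun z hz => (rep_hasDeriv χ z hz.1).hasDerivWithinAt)
    (fun z hz => by rw [norm_neg]; exact hB z hz.1 hz.2)
    (convex_Ioc 1 2) ⟨hx, hx2⟩ ⟨hy, hy2⟩
  have h3 : ‖LSeries (fun n => χ (n : ZMod q)) (y : ℂ)‖ ≤
      ‖LSeries (fun n => χ (n : ZMod q)) (x : ℂ)‖ +
      ‖LSeries (fun n => χ (n : ZMod q)) (y : ℂ) - LSeries (fun n => χ (n : ZMod q)) (x : ℂ)‖ := by
    have := norm_add_le (LSeries (fun n => χ (n : ZMod q)) (x : ℂ))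
      (LSeries (fun n => χ (n : ZMod q)) (y : ℂ) - LSeries (fun n => χ (n : ZMod q)) (x : ℂ))
    simpa using this
  rw [Real.norm_eq_abs] at h
  linarith

/-- One character: `‖L(1+η,χ)‖ ≤ 19 C λ² η`. -/
private theorem rep_one {C : ℝ} (hC : 1 ≤ C)
    (hL : ∀ (q : ℕ) [NeZero q] (χ : DirichletCharacter ℂ q), χ ≠ 1 →
    ∀ (i : ℕ) (s : ℂ), 1 < s.re → s.re ≤ 2 →
      ‖LSeries (fun n => χ (n : ZMod q) * ((Real.log n : ℝ) : ℂ) ^ i) s‖ ≤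
        C * i.factorial * (2 * ell q s.im) ^ i * ell q s.im)
    {q : ℕ} [NeZero q] (χ : DirichletCharacter ℂ q) (hχ : χ ≠ 1) (l η σ₁ : ℝ) (hl : 1 ≤ l)
    (he0 : 0 ≤ ell q 0) (he : ell q 0 ≤ 3 * l)
    (hη : 0 < η) (hη1 : η < 1) (h1 : 1 < σ₁) (h2 : σ₁ ≤ 2)
    (hle : ‖LSeries (fun n => χ (n : ZMod q)) (σ₁ : ℂ)‖ ≤ η) :
    ‖LSeries (fun n => χ (n : ZMod q)) ((1 + η : ℝ) : ℂ)‖ ≤ 19 * C * l ^ 2 * η := by
  have hlow := L_lower_triv χ (σ₁ : ℂ) (by simpa using h1) (by simpa using h2)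
  rw [Complex.ofReal_re] at hlow
  have hσ : σ₁ - 1 ≤ 2 * η := by linarith
  have hab : |(1 + η) - σ₁| ≤ η := by
    rw [abs_le]; constructor <;> linarith
  have hBd : ∀ x : ℝ, 1 < x → x ≤ 2 →
      ‖LSeries (fun n => χ (n : ZMod q) * ((Real.log n : ℝ) : ℂ) ^ 1) (x : ℂ)‖ ≤ 18 * C * l ^ 2 := by
    intro x hx hx2
    have h := hL q χ hχ 1 (x : ℂ) (by simpa using hx) (by simpa using hx2)
    rw [Complex.ofReal_im] at h
    refine h.trans ?_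
    have hsq : ell q 0 * ell q 0 ≤ (3 * l) * (3 * l) :=
      mul_le_mul he he he0 (by positivity)
    have : C * ((1 : ℕ).factorial : ℝ) * (2 * ell q 0) ^ 1 * ell q 0 = 2 * C * (ell q 0 * ell q 0) := by
      simp; ring
    rw [this]
    have hC0 : 0 ≤ 2 * C := by linarith
    calc 2 * C * (ell q 0 * ell q 0) ≤ 2 * C * ((3 * l) * (3 * l)) :=
          mul_le_mul_of_nonneg_left hsq hC0
      _ = 18 * C * l ^ 2 := by ring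
  have h := rep_diff χ (18 * C * l ^ 2) hBd σ₁ (1 + η) h1 h2 (by linarith) (by linarith)
  have hpos : 0 ≤ 18 * C * l ^ 2 := by positivity
  have h3 : 18 * C * l ^ 2 * |(1 + η) - σ₁| ≤ 18 * C * l ^ 2 * η :=
    mul_le_mul_of_nonneg_left hab hpos
  have hCl : 1 ≤ C * l ^ 2 := by
    have : 1 ≤ l ^ 2 := by nlinarith
    nlinarith
  have h4 : η ≤ C * l ^ 2 * η := by nlinarith
  calc ‖LSeries (fun n => χ (n : ZMod q)) ((1 + η : ℝ) : ℂ)‖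
      ≤ ‖LSeries (fun n => χ (n : ZMod q)) (σ₁ : ℂ)‖ + 18 * C * l ^ 2 * |(1 + η) - σ₁| := h
    _ ≤ η + 18 * C * l ^ 2 * η := add_le_add hle h3
    _ ≤ C * l ^ 2 * η + 18 * C * l ^ 2 * η := by linarith
    _ = 19 * C * l ^ 2 * η := by ring

private theorem rep_ell (q : ℕ) (Z : ℝ) (hZ : 3 ≤ Z) (hq1 : 1 ≤ q) (hq : (q : ℝ) ≤ Z ^ 2) :
    0 ≤ ell q 0 ∧ ell q 0 ≤ 3 * Real.log Z := by
  have hq' : (1 : ℝ) ≤ q := by exact_mod_cast hq1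
  unfold ell
  rw [abs_zero, zero_add]
  constructor
  · exact Real.log_nonneg (by linarith)
  · have h3 : 3 * Real.log Z = Real.log (Z ^ 3) := by
      rw [Real.log_pow]; norm_num
    rw [h3]
    apply Real.log_le_log (by linarith)
    have : Z ^ 2 * 2 ≤ Z ^ 3 := by nlinarith [sq_nonneg Z]
    nlinarith

theorem repulsion : ∃ c : ℝ, 0 < c ∧ ∀ (Z : ℝ), 3 ≤ Z → ∀ (q₁ q₂ : ℕ), 1 ≤ q₁ → 1 ≤ q₂ →
    (q₁ : ℝ) ≤ Z → (q₂ : ℝ) ≤ Z → ∀ (χ₁ : DirichletCharacter ℂ q₁) (χ₂ : DirichletCharacter ℂ q₂),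
    χ₁.IsPrimitive → χ₂.IsPrimitive → χ₁ ≠ 1 → χ₂ ≠ 1 → χ₁ ^ 2 = 1 → χ₂ ^ 2 = 1 →
    (∀ e : q₁ = q₂, DirichletCharacter.changeLevel (dvd_of_eq e) χ₁ ≠ χ₂) →
    ∀ σ₁ σ₂ : ℝ, 1 < σ₁ → σ₁ ≤ 2 → 1 < σ₂ → σ₂ ≤ 2 →
      c / Real.log Z ^ 5 ≤ max ‖LSeries (fun n => χ₁ (n : ZMod q₁)) (σ₁ : ℂ)‖
        ‖LSeries (fun n => χ₂ (n : ZMod q₂)) (σ₂ : ℂ)‖ := by
  obtain ⟨C, hC, hL⟩ := LUp
  have hC3 : 1 ≤ C ^ 3 := one_le_pow₀ hC
  refine ⟨1 / (2166 * C ^ 3), by positivity, ?_⟩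
  intro Z hZ q₁ q₂ hq1 hq2 hqZ1 hqZ2 χ₁ χ₂ hp1 hp2 hn1 hn2 hr1 hr2 hne σ₁ σ₂ h11 h12 h21 h22
  haveI : NeZero q₁ := ⟨by omega⟩
  haveI : NeZero q₂ := ⟨by omega⟩
  haveI : NeZero (q₁ * q₂) := ⟨by positivity⟩
  set l := Real.log Z with hl
  have hl1 : 1 ≤ l := by
    rw [hl, ← Real.log_exp 1]
    apply Real.log_le_log (Real.exp_pos 1)
    have := Real.exp_one_lt_d9
    linarith
  have hl5 : 1 ≤ l ^ 5 := one_le_pow₀ hl1
  set η := max ‖LSeries (fun n => χ₁ (n : ZMod q₁)) (σ₁ : ℂ)‖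
        ‖LSeries (fun n => χ₂ (n : ZMod q₂)) (σ₂ : ℂ)‖ with hη
  have hη1 : ‖LSeries (fun n => χ₁ (n : ZMod q₁)) (σ₁ : ℂ)‖ ≤ η := le_max_left _ _
  have hη2 : ‖LSeries (fun n => χ₂ (n : ZMod q₂)) (σ₂ : ℂ)‖ ≤ η := le_max_right _ _
  have hlow := L_lower_triv χ₁ (σ₁ : ℂ) (by simpa using h11) (by simpa using h12)
  rw [Complex.ofReal_re] at hlow
  have hη0 : 0 < η := by linarith
  rcases le_or_gt 1 η with hbig | hsmall
  · refine le_trans ?_ hbig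
    rw [div_le_one (by positivity), div_le_iff₀ (by positivity)]
    nlinarith
  have hZZ : Z ≤ Z ^ 2 := by nlinarith
  obtain ⟨e10, e1⟩ := rep_ell q₁ Z hZ hq1 (hqZ1.trans hZZ)
  obtain ⟨e20, e2⟩ := rep_ell q₂ Z hZ hq2 (hqZ2.trans hZZ)
  obtain ⟨e30, e3⟩ := rep_ell (q₁ * q₂) Z hZ (Nat.mul_pos hq1 hq2) (by
    push_cast
    rw [sq]
    exact mul_le_mul hqZ1 hqZ2 (by positivity) (by linarith))
  have B1 := rep_one hC hL χ₁ hn1 l η σ₁ hl1 e10 e1 hη0 hsmall h11 h12 hη1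
  have B2 := rep_one hC hL χ₂ hn2 l η σ₂ hl1 e20 e2 hη0 hsmall h21 h22 hη2
  have hs1 : 1 < ((1 + η : ℝ) : ℂ).re := by rw [Complex.ofReal_re]; linarith
  have hs2 : ((1 + η : ℝ) : ℂ).re ≤ 2 := by rw [Complex.ofReal_re]; linarith
  have B3 : ‖LSeries (fun n => prodChar χ₁ χ₂ (n : ZMod (q₁ * q₂))) ((1 + η : ℝ) : ℂ)‖ ≤
      3 * C * l := by
    have h := hL (q₁ * q₂) (prodChar χ₁ χ₂)
      (prodChar_ne_one (by omega) (by omega) χ₁ χ₂ hp1 hp2 hr2 hne) 0 ((1 + η : ℝ) : ℂ) hs1 hs2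
    rw [Complex.ofReal_im] at h
    simp only [pow_zero, mul_one, Nat.factorial_zero, Nat.cast_one] at h
    refine h.trans ?_
    have hC0 : 0 ≤ C := by linarith
    calc C * ell (q₁ * q₂) 0 ≤ C * (3 * l) := mul_le_mul_of_nonneg_left e3 hC0
      _ = 3 * C * l := by ring
  have B4 : ‖LSeries (fun _ => (1 : ℂ)) ((1 + η : ℝ) : ℂ)‖ ≤ 2 / η := by
    have h := LTriv_real 1 (1 + η) (by linarith) (by linarith)
    have he : (fun n : ℕ => (1 : DirichletCharacter ℂ 1) (n : ZMod 1)) = fun _ => (1 : ℂ) := by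
      funext n
      exact MulChar.one_apply (isUnit_of_subsingleton _)
    rw [he] at h
    have : 1 + η - 1 = η := by ring
    rw [this] at h
    exact h
  have hP := prod4 (by omega) (by omega) χ₁ χ₂ hr1 hr2 (1 + η) (by linarith)
  have hC0 : 0 ≤ C := by linarith
  have hl0 : 0 ≤ l := by linarith
  have hK0 : 0 ≤ 19 * C * l ^ 2 * η := by positivity
  have hprod : ‖LSeries (fun _ => (1 : ℂ)) ((1 + η : ℝ) : ℂ)‖ *
      ‖LSeries (fun n => χ₁ (n : ZMod q₁)) ((1 + η : ℝ) : ℂ)‖ *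
      ‖LSeries (fun n => χ₂ (n : ZMod q₂)) ((1 + η : ℝ) : ℂ)‖ *
      ‖LSeries (fun n => prodChar χ₁ χ₂ (n : ZMod (q₁ * q₂))) ((1 + η : ℝ) : ℂ)‖ ≤
      (2 / η) * (19 * C * l ^ 2 * η) * (19 * C * l ^ 2 * η) * (3 * C * l) := by
    gcongr
  have hfin : (2 / η) * (19 * C * l ^ 2 * η) * (19 * C * l ^ 2 * η) * (3 * C * l) =
      2166 * C ^ 3 * l ^ 5 * η := by
    field_simp
    ring
  have h1 : 1 ≤ 2166 * C ^ 3 * l ^ 5 * η := by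
    rw [← hfin]; exact hP.trans hprod
  rw [div_div, div_le_iff₀ (by positivity)]
  linarith

end BVM
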