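import Mathlib
import Pool.Agent.helper24.BV.Defs

/-!
# Project BVM, module RieszK: the Riesz kernel

`∫ y ^ (-(s + iξ)) / ((s + iξ)(s + 1 + iξ)) dξ = 2 π (1 - y)_+` (Mellin inversion for `rz`), the
integrability of the integrand and the bound `1 / (s^2 + ξ^2)` for the kernel.
-/

set_option autoImplicit false

open MeasureTheory Set Complex

namespace BVM

/-- the kernel `1 / ((s + iξ)(s + 1 + iξ))` -/
noncomputable def rker (s ξ : ℝ) : ℂ := 1 / (((s : ℂ) + ξ * I) * ((s : ℂ) + 1 + ξ * I))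

theorem rker_den1_ne {s : ℝ} (hs : 0 < s) (ξ : ℝ) : (s : ℂ) + ξ * I ≠ 0 := by
  intro h
  have := congrArg Complex.re h
  simp at this
  exact hs.ne' this

theorem rker_den2_ne {s : ℝ} (hs : 0 < s) (ξ : ℝ) : (s : ℂ) + 1 + ξ * I ≠ 0 := by
  intro h
  have := congrArg Complex.re h
  simp at this
  linarith

theorem continuous_rker {s : ℝ} (hs : 0 < s) : Continuous (rker s) := by
  unfold rker
  refine Continuous.div (by fun_prop) (by fun_prop) fun ξ => ?_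
  exact mul_ne_zero (rker_den1_ne hs ξ) (rker_den2_ne hs ξ)

theorem norm_sq_den1 (s ξ : ℝ) : ‖(s : ℂ) + ξ * I‖ = Real.sqrt (s ^ 2 + ξ ^ 2) := by
  rw [Complex.norm_eq_sqrt_sq_add_sq]
  simp

theorem norm_rker_le {s : ℝ} (hs : 0 < s) (ξ : ℝ) : ‖rker s ξ‖ ≤ 1 / (s ^ 2 + ξ ^ 2) := by
  have hpos : 0 < s ^ 2 + ξ ^ 2 := by positivity
  have h1 : ‖(s : ℂ) + ξ * I‖ = Real.sqrt (s ^ 2 + ξ ^ 2) := norm_sq_den1 s ξ
  have h2 : Real.sqrt (s ^ 2 + ξ ^ 2) ≤ ‖(s : ℂ) + 1 + ξ * I‖ := by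
    have h3 : ‖(s : ℂ) + 1 + ξ * I‖ = Real.sqrt ((s + 1) ^ 2 + ξ ^ 2) := by
      have := norm_sq_den1 (s + 1) ξ
      rw [← this]
      push_cast
      rfl
    rw [h3]
    exact Real.sqrt_le_sqrt (by nlinarith)
  rw [rker, norm_div, norm_one, norm_mul, h1]
  refine one_div_le_one_div_of_le hpos ?_
  calc s ^ 2 + ξ ^ 2 = Real.sqrt (s ^ 2 + ξ ^ 2) * Real.sqrt (s ^ 2 + ξ ^ 2) :=
        (Real.mul_self_sqrt hpos.le).symm
    _ ≤ Real.sqrt (s ^ 2 + ξ ^ 2) * ‖(s : ℂ) + 1 + ξ * I‖ :=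
        mul_le_mul_of_nonneg_left h2 (Real.sqrt_nonneg _)

theorem inv_sq_add_sq_eq {s : ℝ} (hs : 0 < s) (ξ : ℝ) :
    1 / (s ^ 2 + ξ ^ 2) = (s ^ 2)⁻¹ * (1 + (s⁻¹ * ξ) ^ 2)⁻¹ := by
  have h1 : s ^ 2 + ξ ^ 2 ≠ 0 := by positivity
  have h2 : 1 + (s⁻¹ * ξ) ^ 2 ≠ 0 := by positivity
  rw [← mul_inv, one_div]
  congr 1
  field_simp

theorem integrable_inv_sq_add_sq {s : ℝ} (hs : 0 < s) :
    Integrable (fun ξ : ℝ => 1 / (s ^ 2 + ξ ^ 2)) := by
  simp_rw [inv_sq_add_sq_eq hs]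
  exact (integrable_inv_one_add_sq.comp_mul_left' (inv_ne_zero hs.ne')).const_mul _

theorem integral_inv_sq_add_sq {s : ℝ} (hs : 0 < s) :
    ∫ ξ : ℝ, 1 / (s ^ 2 + ξ ^ 2) = Real.pi / s := by
  simp_rw [inv_sq_add_sq_eq hs]
  rw [integral_const_mul, Measure.integral_comp_mul_left (fun x : ℝ => (1 + x ^ 2)⁻¹) s⁻¹,
    integral_univ_inv_one_add_sq, inv_inv, abs_of_pos hs, smul_eq_mul]
  field_simp

theorem integrable_rker {s : ℝ} (hs : 0 < s) : Integrable (rker s) :=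
  (integrable_inv_sq_add_sq hs).mono' (continuous_rker hs).aestronglyMeasurable
    (Filter.Eventually.of_forall fun ξ => norm_rker_le hs ξ)

/-- `∫ |kernel| ≤ π / s`; for `s = 1 / 2` this is `2 π`. -/
theorem integral_norm_rker_le {s : ℝ} (hs : 0 < s) : ∫ ξ : ℝ, ‖rker s ξ‖ ≤ Real.pi / s := by
  rw [← integral_inv_sq_add_sq hs]
  exact integral_mono (integrable_rker hs).norm (integrable_inv_sq_add_sq hs)
    fun ξ => norm_rker_le hs ξ

theorem norm_cpow_neg {s y : ℝ} (hy : 0 < y) (ξ : ℝ) :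
    ‖(y : ℂ) ^ (-((s : ℂ) + ξ * I))‖ = y ^ (-s) := by
  rw [Complex.norm_cpow_eq_rpow_re_of_pos hy]
  simp

theorem continuous_cpow_neg {s y : ℝ} (hy : 0 < y) :
    Continuous (fun ξ : ℝ => (y : ℂ) ^ (-((s : ℂ) + ξ * I))) := by
  have hy0 : (y : ℂ) ≠ 0 := Complex.ofReal_ne_zero.2 hy.ne'
  simp_rw [Complex.cpow_def_of_ne_zero hy0]
  fun_prop

/-- Integrability of the integrand of `riesz_formula`. -/
theorem integrable_riesz {s y : ℝ} (hs : 0 < s) (hy : 0 < y) :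
    Integrable (fun ξ : ℝ => (y : ℂ) ^ (-((s : ℂ) + ξ * I)) /
      (((s : ℂ) + ξ * I) * ((s : ℂ) + 1 + ξ * I))) := by
  have h1 : (fun ξ : ℝ => (y : ℂ) ^ (-((s : ℂ) + ξ * I)) /
      (((s : ℂ) + ξ * I) * ((s : ℂ) + 1 + ξ * I))) =
      fun ξ : ℝ => (y : ℂ) ^ (-((s : ℂ) + ξ * I)) * rker s ξ := by
    funext ξ
    rw [rker, mul_one_div]
  rw [h1]
  refine Integrable.bdd_mul (c := y ^ (-s)) (integrable_rker hs)
    (continuous_cpow_neg hy).aestronglyMeasurable ?_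
  exact Filter.Eventually.of_forall fun ξ => (norm_cpow_neg hy ξ).le

/-- The Mellin transform of `rz`. -/
theorem hasMellin_rz {s : ℂ} (hs : 0 < s.re) :
    HasMellin (fun y : ℝ => ((rz y : ℝ) : ℂ)) s (1 / (s * (s + 1))) := by
  have h1 := hasMellin_one_Ioc hs
  have h2 := hasMellin_cpow_Ioc 1 (s := s) (by simp; linarith)
  have h3 := hasMellin_sub h1.1 h2.1
  rw [h1.2, h2.2] at h3
  have hs0 : s ≠ 0 := by
    intro h
    rw [h] at hs
    simp at hs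
  have hs1 : s + 1 ≠ 0 := by
    intro h
    have := congrArg Complex.re h
    simp at this
    linarith
  have h4 : 1 / s - 1 / (s + 1) = 1 / (s * (s + 1)) := by
    field_simp
    ring
  rw [h4] at h3
  have h5 : ∀ y ∈ Ioi (0 : ℝ), (Ioc (0 : ℝ) 1).indicator (fun _ => (1 : ℂ)) y -
      (Ioc (0 : ℝ) 1).indicator (fun t : ℝ => ((t : ℂ) ^ (1 : ℂ))) y = ((rz y : ℝ) : ℂ) := by
    intro y hy
    by_cases h : y ≤ 1
    · have hm : y ∈ Ioc (0 : ℝ) 1 := ⟨hy, h⟩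
      rw [indicator_of_mem hm, indicator_of_mem hm, rz, max_eq_right (by linarith),
        Complex.cpow_one]
      push_cast
      rfl
    · have hm : y ∉ Ioc (0 : ℝ) 1 := fun hh => h hh.2
      push Not at h
      rw [indicator_of_notMem hm, indicator_of_notMem hm, rz, max_eq_left (by linarith)]
      simp
  refine ⟨?_, ?_⟩
  · refine IntegrableOn.congr_fun h3.1 ?_ measurableSet_Ioi
    intro y hy
    simp only
    rw [h5 y hy]
  · rw [← h3.2, mellin, mellin]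
    refine setIntegral_congr_fun measurableSet_Ioi fun y hy => ?_
    rw [h5 y hy]

/-- **Riesz kernel formula.** -/
theorem riesz_formula {s y : ℝ} (hs : 0 < s) (hy : 0 < y) :
    ∫ ξ : ℝ, (y : ℂ) ^ (-((s : ℂ) + ξ * I)) / (((s : ℂ) + ξ * I) * ((s : ℂ) + 1 + ξ * I)) =
      2 * Real.pi * ((rz y : ℝ) : ℂ) := by
  have hre : ∀ ξ : ℝ, 0 < ((s : ℂ) + ξ * I).re := fun ξ => by simpa using hs
  have hm : ∀ ξ : ℝ, mellin (fun y : ℝ => ((rz y : ℝ) : ℂ)) ((s : ℂ) + ξ * I) = rker s ξ := by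
    intro ξ
    rw [(hasMellin_rz (hre ξ)).2, rker]
    congr 2
    ring
  have hcont : ContinuousAt (fun y : ℝ => ((rz y : ℝ) : ℂ)) y := by
    unfold rz
    fun_prop
  have hconv : MellinConvergent (fun y : ℝ => ((rz y : ℝ) : ℂ)) (s : ℂ) :=
    (hasMellin_rz (by simpa using hs)).1
  have hvert : VerticalIntegrable (mellin (fun y : ℝ => ((rz y : ℝ) : ℂ))) s := by
    unfold VerticalIntegrable
    simp_rw [hm]
    exact integrable_rker hs
  have h1 := mellinInv_mellin_eq s (fun y : ℝ => ((rz y : ℝ) : ℂ)) hy hconv hvert hcont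
  rw [mellinInv] at h1
  simp_rw [hm] at h1
  have h2 : ∫ ξ : ℝ, (y : ℂ) ^ (-((s : ℂ) + ξ * I)) /
      (((s : ℂ) + ξ * I) * ((s : ℂ) + 1 + ξ * I)) =
      ∫ ξ : ℝ, (y : ℂ) ^ (-((s : ℂ) + ξ * I)) • rker s ξ := by
    refine integral_congr_ae (Filter.Eventually.of_forall fun ξ => ?_)
    simp only [rker, smul_eq_mul, mul_one_div]
  rw [h2, ← h1, Complex.real_smul]
  have hpi : (Real.pi : ℂ) ≠ 0 := Complex.ofReal_ne_zero.2 Real.pi_ne_zero
  generalize (∫ ξ : ℝ, (y : ℂ) ^ (-((s : ℂ) + ξ * I)) • rker s ξ) = J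
  push_cast
  field_simp

end BVM
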