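import Pool.Agent.helper24.BV.Defs
import Pool.Agent.helper24.BV.RieszK

/-!
# BVA-RieszL: the Riesz mean of a Dirichlet series

PROOF. `riesz_formula` (RieszK) with `y = n/u` gives for every `n ≥ 1`
`rz (n/u) = (1/2π) ∫ (n/u)^(-(σ+iξ)) / ((σ+iξ)(σ+1+iξ)) dξ`.
Multiply by `a n` and sum over ALL `n ≥ 1` (`rz (n/u) = 0` for `n ≥ u`, so the left side is the finite
sum): the interchange of sum and integral is allowed since
`∑ ‖a n‖ (n/u)^(-σ) ∫ 1/|(σ+iξ)(σ+1+iξ)| dξ < ∞` (`hasSum_integral_of_summable_integral_norm`, and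
`LSeriesSummable a σ`).  Since `a n (n/u)^(-(σ+iξ)) = u^(σ+iξ) * LSeries.term a (σ+iξ) n` one gets
`∑_{n ≤ u} a n rz(n/u) = (1/2π) ∫ u^(σ+iξ) LSeries a (σ+iξ) / ((σ+iξ)(σ+1+iξ)) dξ`.
Norm: `|1/((σ+iξ)(σ+1+iξ))| ≤ 1/(1+ξ²)`; the part `|ξ| ≤ T` is at most `(u^σ/2π) B1 π`, the part
`|ξ| > T` at most `(u^σ/2π) B2 ∫_{|ξ|>T} dξ/ξ² = (u^σ/2π) B2 (2/T)`.
-/

open Finset ArithmeticFunction Complex MeasureTheory

namespace BVM

private theorem rieszL_tail (T : ℝ) (hT : 1 ≤ T) :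
    Real.pi / 2 - Real.arctan T ≤ 1 / T := by
  have hT0 : 0 < T := by linarith
  rw [← Real.arctan_inv_of_pos hT0]
  have h1 : 0 ≤ Real.arctan T⁻¹ := Real.arctan_nonneg.mpr (by positivity)
  have h2 := Real.le_tan h1 (Real.arctan_lt_pi_div_two _)
  rw [Real.tan_arctan] at h2
  rwa [one_div]

/-- the integrand with the `n`-th term of the Dirichlet series -/
private noncomputable def rieszF (a : ℕ → ℂ) (σ u : ℝ) (n : ℕ) (ξ : ℝ) : ℂ :=
  (u : ℂ) ^ ((σ : ℂ) + ξ * I) * LSeries.term a ((σ : ℂ) + ξ * I) n *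
    ((1 : ℂ) / (((σ : ℂ) + ξ * I) * ((σ : ℂ) + 1 + ξ * I)))

private theorem rieszF_eq (a : ℕ → ℂ) {σ u : ℝ} (hu : 0 < u) (n : ℕ) (hn : n ≠ 0) (ξ : ℝ) :
    rieszF a σ u n ξ = a n * ((((n / u : ℝ)) : ℂ) ^ (-((σ : ℂ) + ξ * I)) /
      (((σ : ℂ) + ξ * I) * ((σ : ℂ) + 1 + ξ * I))) := by
  unfold rieszF
  rw [LSeries.term_of_ne_zero hn]
  have h1 : (((n / u : ℝ)) : ℂ) ^ (-((σ : ℂ) + ξ * I))
      = (u : ℂ) ^ ((σ : ℂ) + ξ * I) / (n : ℂ) ^ ((σ : ℂ) + ξ * I) := by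
    rw [Complex.cpow_neg, Complex.ofReal_div]
    have h2 : ((n : ℝ) : ℂ) / (u : ℂ) = ((n : ℝ) : ℂ) * ((u⁻¹ : ℝ) : ℂ) := by
      push_cast
      rw [div_eq_mul_inv]
    rw [h2, Complex.mul_cpow_ofReal_nonneg (Nat.cast_nonneg n) (by positivity), Complex.ofReal_inv,
      Complex.inv_cpow _ _ (by
        rw [Complex.arg_ofReal_of_nonneg hu.le]
        exact Real.pi_pos.ne)]
    have h3 : ((u : ℂ) ^ ((σ : ℂ) + ξ * I)) ≠ 0 := by
      rw [Ne, Complex.cpow_eq_zero_iff]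
      push Not
      intro h
      exact absurd (by exact_mod_cast h) hu.ne'
    rw [mul_inv, inv_inv, Complex.ofReal_natCast]
    field_simp
  rw [h1]
  ring

theorem riesz_LSeries_bound {a : ℕ → ℂ} {σ u T B1 B2 : ℝ} (hσ : 1 ≤ σ) (hu : 0 < u)
    (hT : 1 ≤ T) (ha : LSeriesSummable a σ) (hB1 : 0 ≤ B1) (hB2 : 0 ≤ B2)
    (h1 : ∀ ξ : ℝ, |ξ| ≤ T → ‖LSeries a ((σ : ℂ) + ξ * I)‖ ≤ B1)
    (h2 : ∀ ξ : ℝ, ‖LSeries a ((σ : ℂ) + ξ * I)‖ ≤ B2) :
    ‖∑ n ∈ Icc 1 ⌊u⌋₊, a n * ((rz (n / u) : ℝ) : ℂ)‖ ≤ u ^ σ * (B1 + B2 / T) := by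
  have hσ0 : 0 < σ := by linarith
  have hT0 : 0 < T := by linarith
  have hu0 : (u : ℂ) ≠ 0 := by exact_mod_cast hu.ne'
  have hre : ∀ ξ : ℝ, ((σ : ℂ) + ξ * I).re = σ := fun ξ => by simp
  have hker : ∀ ξ : ℝ, ‖(1 : ℂ) / (((σ : ℂ) + ξ * I) * ((σ : ℂ) + 1 + ξ * I))‖ ≤ (1 + ξ ^ 2)⁻¹ := by
    intro ξ
    have h0 := norm_rker_le hσ0 ξ
    rw [rker] at h0
    refine h0.trans ?_
    rw [one_div]
    apply inv_anti₀ (by positivity)
    nlinarith
  have hnu : ∀ ξ : ℝ, ‖(u : ℂ) ^ ((σ : ℂ) + ξ * I)‖ = u ^ σ := by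
    intro ξ
    rw [Complex.norm_cpow_eq_rpow_re_of_pos hu, hre]
  have hnt : ∀ (n : ℕ) (ξ : ℝ), ‖LSeries.term a ((σ : ℂ) + ξ * I) n‖ = ‖LSeries.term a σ n‖ := by
    intro n ξ
    rw [LSeries.norm_term_eq, LSeries.norm_term_eq, hre, Complex.ofReal_re]
  -- integrability and values of the integrals
  have hint : ∀ n, Integrable (rieszF a σ u n) := by
    intro n
    rcases Nat.eq_zero_or_pos n with hn | hn
    · subst hn
      have : rieszF a σ u 0 = fun _ => 0 := by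
        funext ξ
        simp [rieszF]
      rw [this]
      exact integrable_zero _ _ _
    · have h3 : rieszF a σ u n = fun ξ : ℝ => a n * ((((n / u : ℝ)) : ℂ) ^ (-((σ : ℂ) + ξ * I)) /
          (((σ : ℂ) + ξ * I) * ((σ : ℂ) + 1 + ξ * I))) := by
        funext ξ
        exact rieszF_eq a hu n hn.ne' ξ
      rw [h3]
      have hn' : (0 : ℝ) < n := by exact_mod_cast hn
      exact (integrable_riesz hσ0 (div_pos hn' hu)).const_mul _
  have hval : ∀ n, ∫ ξ, rieszF a σ u n ξ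
      = if n = 0 then 0 else a n * (2 * (Real.pi : ℂ) * ((rz (n / u) : ℝ) : ℂ)) := by
    intro n
    rcases Nat.eq_zero_or_pos n with hn | hn
    · subst hn
      simp [rieszF]
    · rw [if_neg hn.ne']
      have hn' : (0 : ℝ) < n := by exact_mod_cast hn
      rw [← riesz_formula hσ0 (div_pos hn' hu), ← integral_const_mul]
      refine integral_congr_ae (Filter.Eventually.of_forall (fun ξ => ?_))
      exact rieszF_eq a hu n hn.ne' ξ
  have hsumn : Summable (fun n => ∫ ξ, ‖rieszF a σ u n ξ‖) := by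
    have h3 : Summable (fun n => ‖LSeries.term a σ n‖ * (u ^ σ * Real.pi)) :=
      (summable_norm_iff.mpr ha).mul_right _
    refine h3.of_nonneg_of_le (fun n => integral_nonneg (fun ξ => norm_nonneg _)) (fun n => ?_)
    have h4 : ∫ ξ, ‖rieszF a σ u n ξ‖ ≤ ∫ ξ : ℝ, (‖LSeries.term a σ n‖ * u ^ σ) * (1 + ξ ^ 2)⁻¹ := by
      apply integral_mono_of_nonneg (Filter.Eventually.of_forall (fun ξ => norm_nonneg _))
      · exact integrable_inv_one_add_sq.const_mul _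
      · refine Filter.Eventually.of_forall (fun ξ => ?_)
        simp only [rieszF]
        rw [norm_mul, norm_mul, hnu, hnt]
        have := hker ξ
        calc u ^ σ * ‖LSeries.term a σ n‖ *
              ‖(1 : ℂ) / (((σ : ℂ) + ξ * I) * ((σ : ℂ) + 1 + ξ * I))‖
            ≤ u ^ σ * ‖LSeries.term a σ n‖ * (1 + ξ ^ 2)⁻¹ := by gcongr
          _ = (‖LSeries.term a σ n‖ * u ^ σ) * (1 + ξ ^ 2)⁻¹ := by ring
    rw [integral_const_mul, integral_univ_inv_one_add_sq] at h4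
    linarith
  have hS := (hasSum_integral_of_summable_integral_norm hint hsumn).tsum_eq
  -- the left side is the finite sum
  have hL : ∑' n, ∫ ξ, rieszF a σ u n ξ
      = 2 * (Real.pi : ℂ) * ∑ n ∈ Icc 1 ⌊u⌋₊, a n * ((rz (n / u) : ℝ) : ℂ) := by
    rw [tsum_eq_sum (s := Icc 1 ⌊u⌋₊), mul_sum]
    · refine sum_congr rfl (fun n hn => ?_)
      rw [Finset.mem_Icc] at hn
      rw [hval, if_neg (by omega)]
      ring
    · intro n hn
      rw [hval]
      split_ifs with h0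
      · rfl
      · have hgt : ⌊u⌋₊ < n := by
          by_contra hcon
          exact hn (Finset.mem_Icc.mpr ⟨by omega, by omega⟩)
        have hgt' : u < n := (Nat.floor_lt hu.le).mp hgt
        have hz : rz (n / u) = 0 := by
          unfold rz
          apply max_eq_left
          have : 1 ≤ (n : ℝ) / u := by
            rw [le_div_iff₀ hu]
            linarith
          linarith
        rw [hz]
        simp
  have hG : ∀ ξ : ℝ, ‖∑' n, rieszF a σ u n ξ‖ ≤ u ^ σ * (B1 * (1 + ξ ^ 2)⁻¹ +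
      B2 * ((Set.Iic (-T)).indicator (fun ξ : ℝ => (1 + ξ ^ 2)⁻¹) ξ +
        (Set.Ioi T).indicator (fun ξ : ℝ => (1 + ξ ^ 2)⁻¹) ξ)) := by
    intro ξ
    have h3 : ∑' n, rieszF a σ u n ξ = (u : ℂ) ^ ((σ : ℂ) + ξ * I) * LSeries a ((σ : ℂ) + ξ * I) *
        ((1 : ℂ) / (((σ : ℂ) + ξ * I) * ((σ : ℂ) + 1 + ξ * I))) := by
      simp only [rieszF]
      rw [tsum_mul_right, tsum_mul_left]
      rfl
    rw [h3, norm_mul, norm_mul, hnu, mul_assoc]
    apply mul_le_mul_of_nonneg_left _ (by positivity)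
    have hk := hker ξ
    have hp : (0 : ℝ) < (1 + ξ ^ 2)⁻¹ := by positivity
    by_cases hξ : |ξ| ≤ T
    · have h5 := h1 ξ hξ
      have i1 : 0 ≤ (Set.Iic (-T)).indicator (fun ξ : ℝ => (1 + ξ ^ 2)⁻¹) ξ :=
        Set.indicator_nonneg (fun x _ => by positivity) _
      have i2 : 0 ≤ (Set.Ioi T).indicator (fun ξ : ℝ => (1 + ξ ^ 2)⁻¹) ξ :=
        Set.indicator_nonneg (fun x _ => by positivity) _
      have h6 : ‖LSeries a ((σ : ℂ) + ξ * I)‖ *
          ‖(1 : ℂ) / (((σ : ℂ) + ξ * I) * ((σ : ℂ) + 1 + ξ * I))‖ ≤ B1 * (1 + ξ ^ 2)⁻¹ :=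
        mul_le_mul h5 hk (norm_nonneg _) hB1
      nlinarith [mul_nonneg hB2 (add_nonneg i1 i2)]
    · have h5 := h2 ξ
      have h6 : ‖LSeries a ((σ : ℂ) + ξ * I)‖ *
          ‖(1 : ℂ) / (((σ : ℂ) + ξ * I) * ((σ : ℂ) + 1 + ξ * I))‖ ≤ B2 * (1 + ξ ^ 2)⁻¹ :=
        mul_le_mul h5 hk (norm_nonneg _) hB2
      have h7 : (1 + ξ ^ 2)⁻¹ ≤ (Set.Iic (-T)).indicator (fun ξ : ℝ => (1 + ξ ^ 2)⁻¹) ξ +
          (Set.Ioi T).indicator (fun ξ : ℝ => (1 + ξ ^ 2)⁻¹) ξ := by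
        rw [not_le, lt_abs] at hξ
        rcases hξ with hξ | hξ
        · rw [Set.indicator_of_mem (Set.mem_Ioi.mpr hξ)]
          have i1 : 0 ≤ (Set.Iic (-T)).indicator (fun ξ : ℝ => (1 + ξ ^ 2)⁻¹) ξ :=
            Set.indicator_nonneg (fun x _ => by positivity) _
          linarith
        · rw [Set.indicator_of_mem (Set.mem_Iic.mpr (by linarith : ξ ≤ -T))]
          have i2 : 0 ≤ (Set.Ioi T).indicator (fun ξ : ℝ => (1 + ξ ^ 2)⁻¹) ξ :=
            Set.indicator_nonneg (fun x _ => by positivity) _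
          linarith
      have h8 := mul_le_mul_of_nonneg_left h7 hB2
      have h9 : 0 ≤ B1 * (1 + ξ ^ 2)⁻¹ := by positivity
      linarith
  have hi1 : Integrable ((Set.Iic (-T)).indicator (fun ξ : ℝ => (1 + ξ ^ 2)⁻¹)) :=
    integrable_inv_one_add_sq.indicator measurableSet_Iic
  have hi2 : Integrable ((Set.Ioi T).indicator (fun ξ : ℝ => (1 + ξ ^ 2)⁻¹)) :=
    integrable_inv_one_add_sq.indicator measurableSet_Ioi
  have hi3 : Integrable (fun ξ : ℝ => (Set.Iic (-T)).indicator (fun ξ : ℝ => (1 + ξ ^ 2)⁻¹) ξ +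
      (Set.Ioi T).indicator (fun ξ : ℝ => (1 + ξ ^ 2)⁻¹) ξ) := hi1.add hi2
  have hi0 : Integrable (fun ξ : ℝ => B1 * (1 + ξ ^ 2)⁻¹) := integrable_inv_one_add_sq.const_mul _
  have hi4 : Integrable (fun ξ : ℝ => u ^ σ * (B1 * (1 + ξ ^ 2)⁻¹ +
      B2 * ((Set.Iic (-T)).indicator (fun ξ : ℝ => (1 + ξ ^ 2)⁻¹) ξ +
        (Set.Ioi T).indicator (fun ξ : ℝ => (1 + ξ ^ 2)⁻¹) ξ))) :=
    (hi0.add (hi3.const_mul B2)).const_mul _
  have hbound := norm_integral_le_of_norm_le hi4 (Filter.Eventually.of_forall hG)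
  rw [← hS, hL, integral_const_mul, integral_add hi0 (hi3.const_mul B2), integral_const_mul,
    integral_const_mul, integral_add hi1 hi2, integral_univ_inv_one_add_sq,
    integral_indicator measurableSet_Iic, integral_indicator measurableSet_Ioi,
    integral_Iic_inv_one_add_sq, integral_Ioi_inv_one_add_sq, Real.arctan_neg] at hbound
  rw [norm_mul, norm_mul, Complex.norm_real, Real.norm_of_nonneg Real.pi_pos.le] at hbound
  have hn2 : ‖(2 : ℂ)‖ = 2 := by simp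
  rw [hn2] at hbound
  set S : ℝ := ‖∑ n ∈ Icc 1 ⌊u⌋₊, a n * ((rz (n / u) : ℝ) : ℂ)‖ with hSdef
  have htail := rieszL_tail T hT
  have hus : 0 ≤ u ^ σ := by positivity
  have hpi := Real.pi_gt_three
  have h10 : 2 * Real.pi * S ≤ u ^ σ * (B1 * Real.pi + B2 * (2 * (1 / T))) := by
    refine hbound.trans ?_
    apply mul_le_mul_of_nonneg_left _ hus
    have : B2 * (-Real.arctan T + Real.pi / 2 + (Real.pi / 2 - Real.arctan T))
        ≤ B2 * (2 * (1 / T)) := by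
      apply mul_le_mul_of_nonneg_left _ hB2
      linarith
    linarith
  have h11 : u ^ σ * (B1 * Real.pi + B2 * (2 * (1 / T))) ≤ 2 * Real.pi * (u ^ σ * (B1 + B2 / T)) := by
    have e1 : 0 ≤ u ^ σ * B1 := mul_nonneg hus hB1
    have e2 : 0 ≤ u ^ σ * (B2 / T) := by positivity
    have e3 : u ^ σ * (B1 * Real.pi + B2 * (2 * (1 / T)))
        = Real.pi * (u ^ σ * B1) + 2 * (u ^ σ * (B2 / T)) := by
      field_simp
    have e4 : 2 * Real.pi * (u ^ σ * (B1 + B2 / T))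
        = 2 * Real.pi * (u ^ σ * B1) + 2 * Real.pi * (u ^ σ * (B2 / T)) := by ring
    rw [e3, e4]
    nlinarith
  have h12 : 2 * Real.pi * S ≤ 2 * Real.pi * (u ^ σ * (B1 + B2 / T)) := h10.trans h11
  exact le_of_mul_le_mul_left h12 (by positivity)

end BVM
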