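import Pool.Agent.helper24.BV.Defs

/-!
# BVA-Tail: tails of Dirichlet series with bounded partial sums

PROOF.  Let `g u = (log u)^i u^(-s)`, `F(N) = ∑_{n ≤ N} f n`, `‖F‖ ≤ R`.  Abel summation:
`∑_{X < n ≤ N} f n g n = F(N) g(N) - F(X) g(X) - ∑_{n=X}^{N-1} F(n) (g(n+1) - g(n))`.
For `u ≥ X ≥ 3` (`log u ≥ 1`) `‖g'(u)‖ ≤ (‖s‖ + i) (log u)^i u^(-2)` (as `Re s ≥ 1`).
The function `G_i(u) = - (1/u) ∑_{r ≤ i} (i!/r!) (log u)^r` has derivative `(log u)^i/u^2`;
the mean value inequality on `[n, n+1]` with comparison function `G_i` gives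
`‖g(n+1) - g(n)‖ ≤ (‖s‖+i) (G_i(n+1) - G_i(n))`, and `‖g(m)‖ ≤ - (‖s‖+i) G_i(m)`.
Total `≤ - 2 R (‖s‖+i) G_i(X)` and `- G_i(X) ≤ e i! (log X)^i / X`.
-/

open Finset ArithmeticFunction Complex

namespace BVM

/-- The polynomial `∑_{r ≤ i} (i!/r!) L^r`, defined recursively. -/
private noncomputable def tailP : ℕ → ℝ → ℝ
  | 0, _ => 1
  | (i + 1), L => L ^ (i + 1) + (i + 1) * tailP i L

private theorem tailP_hasDeriv (i : ℕ) (L : ℝ) : HasDerivAt (tailP i) (tailP i L - L ^ i) L := by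
  induction i with
  | zero =>
    have h : HasDerivAt (fun _ : ℝ => (1 : ℝ)) 0 L := hasDerivAt_const L (1 : ℝ)
    have h2 : tailP 0 = fun _ : ℝ => (1 : ℝ) := by
      funext x
      simp [tailP]
    rw [h2]
    simpa using h
  | succ i ih =>
    have h1 : HasDerivAt (fun L : ℝ => L ^ (i + 1)) (((i + 1 : ℕ) : ℝ) * L ^ i) L := by
      simpa using hasDerivAt_pow (i + 1) L
    have h2 := h1.add (ih.const_mul ((i : ℝ) + 1))
    have h3 : tailP (i + 1) = fun L : ℝ => L ^ (i + 1) + ((i : ℝ) + 1) * tailP i L := by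
      funext x
      simp [tailP]
    rw [h3]
    refine h2.congr_deriv ?_
    push_cast
    ring

private theorem tailP_ge (i : ℕ) (L : ℝ) (hL : 0 ≤ L) : 0 ≤ tailP i L ∧ L ^ i ≤ tailP i L := by
  induction i with
  | zero => simp [tailP]
  | succ i ih =>
    have h : (0 : ℝ) ≤ ((i : ℝ) + 1) * tailP i L := by
      have := ih.1
      positivity
    have h2 : (0 : ℝ) ≤ L ^ (i + 1) := by positivity
    constructor
    · simp only [tailP]
      linarith
    · simp only [tailP]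
      linarith

private theorem tailP_le (i : ℕ) (L : ℝ) (hL : 1 ≤ L) :
    tailP i L ≤ (∑ r ∈ range (i + 1), (1 : ℝ) / r.factorial) * i.factorial * L ^ i := by
  induction i with
  | zero => simp [tailP]
  | succ i ih =>
    rw [sum_range_succ]
    simp only [tailP]
    set c : ℝ := ∑ r ∈ range (i + 1), (1 : ℝ) / r.factorial with hc
    have hc0 : 0 ≤ c := by
      rw [hc]
      exact sum_nonneg (fun r _ => by positivity)
    have hf : ((i + 1).factorial : ℝ) = ((i : ℝ) + 1) * i.factorial := by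
      rw [Nat.factorial_succ]
      push_cast
      ring
    have hf0 : ((i + 1).factorial : ℝ) ≠ 0 := by positivity
    have h1 : (c + 1 / ((i + 1).factorial : ℝ)) * ((i + 1).factorial : ℝ) * L ^ (i + 1)
        = c * (((i : ℝ) + 1) * i.factorial) * L ^ (i + 1) + L ^ (i + 1) := by
      rw [← hf]
      field_simp
    rw [h1]
    have h2 : L ^ i ≤ L ^ (i + 1) := pow_le_pow_right₀ hL (Nat.le_succ i)
    have h3 : ((i : ℝ) + 1) * tailP i L ≤ ((i : ℝ) + 1) * (c * i.factorial * L ^ i) :=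
      mul_le_mul_of_nonneg_left ih (by positivity)
    have h4 : ((i : ℝ) + 1) * (c * i.factorial * L ^ i)
        ≤ ((i : ℝ) + 1) * (c * i.factorial * L ^ (i + 1)) := by
      gcongr
    nlinarith [h3, h4]

/-- the comparison function -/
private noncomputable def tailG (i : ℕ) (u : ℝ) : ℝ := -(tailP i (Real.log u) / u)

private theorem tailG_hasDeriv (i : ℕ) (u : ℝ) (hu : 0 < u) :
    HasDerivAt (tailG i) (Real.log u ^ i / u ^ 2) u := by
  have h1 : HasDerivAt (fun u : ℝ => tailP i (Real.log u))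
      ((tailP i (Real.log u) - Real.log u ^ i) * u⁻¹) u :=
    (tailP_hasDeriv i (Real.log u)).comp u (Real.hasDerivAt_log hu.ne')
  have h2 := (h1.div (hasDerivAt_id u) hu.ne').neg
  refine HasDerivAt.congr_deriv (f := tailG i) h2 ?_
  simp only [id]
  field_simp
  ring

/-- the weight -/
private noncomputable def tailg (i : ℕ) (s : ℂ) (u : ℝ) : ℂ :=
  ((Real.log u : ℝ) : ℂ) ^ i * (u : ℂ) ^ (-s)

private theorem tailg_hasDeriv (i : ℕ) (s : ℂ) (hs : 1 ≤ s.re) (u : ℝ) (hu : 0 < u) :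
    HasDerivAt (tailg i s)
      ((i : ℂ) * ((Real.log u : ℝ) : ℂ) ^ (i - 1) * ((u⁻¹ : ℝ) : ℂ) * (u : ℂ) ^ (-s) +
        ((Real.log u : ℝ) : ℂ) ^ i * (-s * (u : ℂ) ^ (-s - 1))) u := by
  have h1 : HasDerivAt (fun u : ℝ => ((Real.log u : ℝ) : ℂ)) ((u⁻¹ : ℝ) : ℂ) u :=
    (Real.hasDerivAt_log hu.ne').ofReal_comp
  have h2 : HasDerivAt (fun u : ℝ => ((Real.log u : ℝ) : ℂ) ^ i)
      ((i : ℂ) * ((Real.log u : ℝ) : ℂ) ^ (i - 1) * ((u⁻¹ : ℝ) : ℂ)) u := by
    exact HasDerivAt.fun_pow h1 i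
  have hs0 : -s ≠ 0 := by
    intro h
    have h' := congrArg Complex.re h
    simp at h'
    linarith
  have h3 : HasDerivAt (fun u : ℝ => (u : ℂ) ^ (-s)) (-s * (u : ℂ) ^ (-s - 1)) u :=
    hasDerivAt_ofReal_cpow_const hu.ne' hs0
  exact h2.mul h3

private theorem tailg_norm (i : ℕ) (s : ℂ) (hs : 1 ≤ s.re) (u : ℝ) (hu : 3 ≤ u) :
    ‖tailg i s u‖ ≤ Real.log u ^ i / u := by
  have hu0 : 0 < u := by linarith
  have hlog : 0 ≤ Real.log u := Real.log_nonneg (by linarith)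
  unfold tailg
  rw [norm_mul, norm_pow, Complex.norm_real, Real.norm_of_nonneg hlog,
    Complex.norm_cpow_eq_rpow_re_of_pos hu0]
  have h1 : u ^ (-s).re ≤ u ^ (-1 : ℝ) := by
    apply Real.rpow_le_rpow_of_exponent_le (by linarith)
    simp
    exact hs
  rw [Real.rpow_neg_one] at h1
  rw [div_eq_mul_inv]
  exact mul_le_mul_of_nonneg_left h1 (by positivity)

private theorem log_ge_one (u : ℝ) (hu : 3 ≤ u) : 1 ≤ Real.log u := by
  have h1 : Real.log (Real.exp 1) ≤ Real.log u := by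
    apply Real.log_le_log (Real.exp_pos 1)
    have := Real.exp_one_lt_d9
    linarith
  rwa [Real.log_exp] at h1

private theorem tailg_deriv_norm (i : ℕ) (s : ℂ) (hs : 1 ≤ s.re) (u : ℝ) (hu : 3 ≤ u) :
    ‖((i : ℂ) * ((Real.log u : ℝ) : ℂ) ^ (i - 1) * ((u⁻¹ : ℝ) : ℂ) * (u : ℂ) ^ (-s) +
        ((Real.log u : ℝ) : ℂ) ^ i * (-s * (u : ℂ) ^ (-s - 1)))‖
      ≤ (‖s‖ + i) * (Real.log u ^ i / u ^ 2) := by
  have hu0 : 0 < u := by linarith
  have hlog1 : 1 ≤ Real.log u := log_ge_one u hu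
  have hlog : 0 ≤ Real.log u := by linarith
  have h1 : u ^ (-s).re ≤ u⁻¹ := by
    rw [← Real.rpow_neg_one]
    apply Real.rpow_le_rpow_of_exponent_le (by linarith)
    simp
    exact hs
  have h2 : u ^ (-s - 1).re ≤ (u ^ 2)⁻¹ := by
    have h : (u ^ 2)⁻¹ = u ^ (-2 : ℝ) := by
      rw [Real.rpow_neg hu0.le]
      norm_num
    rw [h]
    apply Real.rpow_le_rpow_of_exponent_le (by linarith)
    simp
    linarith
  refine (norm_add_le _ _).trans ?_
  have e1 : ‖(i : ℂ) * ((Real.log u : ℝ) : ℂ) ^ (i - 1) * ((u⁻¹ : ℝ) : ℂ) * (u : ℂ) ^ (-s)‖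
      ≤ i * (Real.log u ^ i / u ^ 2) := by
    rw [norm_mul, norm_mul, norm_mul, norm_pow, Complex.norm_real, Real.norm_of_nonneg hlog,
      Complex.norm_real, Real.norm_of_nonneg (by positivity : (0:ℝ) ≤ u⁻¹),
      Complex.norm_cpow_eq_rpow_re_of_pos hu0, Complex.norm_natCast]
    have h3 : Real.log u ^ (i - 1) ≤ Real.log u ^ i := pow_le_pow_right₀ hlog1 (Nat.sub_le i 1)
    calc (i : ℝ) * Real.log u ^ (i - 1) * u⁻¹ * u ^ (-s).re
        ≤ (i : ℝ) * Real.log u ^ i * u⁻¹ * u⁻¹ := by gcongr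
      _ = i * (Real.log u ^ i / u ^ 2) := by
        field_simp
  have e2 : ‖((Real.log u : ℝ) : ℂ) ^ i * (-s * (u : ℂ) ^ (-s - 1))‖
      ≤ ‖s‖ * (Real.log u ^ i / u ^ 2) := by
    rw [norm_mul, norm_mul, norm_neg, norm_pow, Complex.norm_real, Real.norm_of_nonneg hlog,
      Complex.norm_cpow_eq_rpow_re_of_pos hu0]
    calc Real.log u ^ i * (‖s‖ * u ^ (-s - 1).re)
        ≤ Real.log u ^ i * (‖s‖ * (u ^ 2)⁻¹) := by gcongr
      _ = ‖s‖ * (Real.log u ^ i / u ^ 2) := by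
        field_simp
  linarith

private theorem tailg_diff (i : ℕ) (s : ℂ) (hs : 1 ≤ s.re) (n : ℕ) (hn : 3 ≤ n) :
    ‖tailg i s ((n + 1 : ℕ) : ℝ) - tailg i s (n : ℝ)‖
      ≤ (‖s‖ + i) * (tailG i ((n + 1 : ℕ) : ℝ) - tailG i (n : ℝ)) := by
  have hn' : (3 : ℝ) ≤ n := by exact_mod_cast hn
  have hlt : (n : ℝ) ≤ ((n + 1 : ℕ) : ℝ) := by push_cast; linarith
  set c : ℝ := ‖s‖ + i with hc
  have key := image_norm_le_of_norm_deriv_right_le_deriv_boundary'
    (f := fun u : ℝ => tailg i s u - tailg i s (n : ℝ))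
    (f' := fun u : ℝ => ((i : ℂ) * ((Real.log u : ℝ) : ℂ) ^ (i - 1) * ((u⁻¹ : ℝ) : ℂ) * (u : ℂ) ^ (-s) +
        ((Real.log u : ℝ) : ℂ) ^ i * (-s * (u : ℂ) ^ (-s - 1))))
    (a := (n : ℝ)) (b := ((n + 1 : ℕ) : ℝ))
    (B := fun u : ℝ => c * (tailG i u - tailG i (n : ℝ)))
    (B' := fun u : ℝ => c * (Real.log u ^ i / u ^ 2)) ?_ ?_ ?_ ?_ ?_ ?_
    (x := ((n + 1 : ℕ) : ℝ)) ⟨hlt, le_refl _⟩
  · exact key
  · intro u hu
    have hu0 : 0 < u := by have := hu.1; linarith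
    exact ((tailg_hasDeriv i s hs u hu0).continuousAt.sub continuousAt_const).continuousWithinAt
  · intro u hu
    have hu0 : 0 < u := by have := hu.1; linarith
    exact ((tailg_hasDeriv i s hs u hu0).sub_const _).hasDerivWithinAt
  · simp
  · intro u hu
    have hu0 : 0 < u := by have := hu.1; linarith
    exact (((tailG_hasDeriv i u hu0).sub_const _).const_mul c).continuousAt.continuousWithinAt
  · intro u hu
    have hu0 : 0 < u := by have := hu.1; linarith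
    exact (((tailG_hasDeriv i u hu0).sub_const _).const_mul c).hasDerivWithinAt
  · intro u hu
    have hu3 : 3 ≤ u := by have := hu.1; linarith
    exact tailg_deriv_norm i s hs u hu3

private theorem abel (f g : ℕ → ℂ) (X N : ℕ) (h : X ≤ N) :
    ∑ n ∈ Ioc X N, f n * g n = (∑ n ∈ Icc 1 N, f n) * g N - (∑ n ∈ Icc 1 X, f n) * g X
      - ∑ n ∈ Ico X N, (∑ m ∈ Icc 1 n, f m) * (g (n + 1) - g n) := by
  induction N, h using Nat.le_induction with
  | base => simp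
  | succ N hN ih =>
    rw [← Finset.insert_Ioc_right_eq_Ioc_add_one hN, sum_insert (by simp), ih,
      Finset.sum_Ico_succ_top hN, Finset.sum_Icc_succ_top (by omega)]
    ring

theorem tail_bound (f : ℕ → ℂ) (R : ℝ) (hR : ∀ N : ℕ, ‖∑ n ∈ Icc 1 N, f n‖ ≤ R)
    (i X N : ℕ) (hX : 3 ≤ X) (s : ℂ) (hs : 1 ≤ s.re) :
    ‖∑ n ∈ Ioc X N, f n * ((Real.log n : ℝ) : ℂ) ^ i * (n : ℂ) ^ (-s)‖ ≤
      9 * R * (‖s‖ + i) * i.factorial * Real.log X ^ i / X := by
  have hR0 : 0 ≤ R := (norm_nonneg _).trans (hR 0)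
  have hX' : (3 : ℝ) ≤ X := by exact_mod_cast hX
  have hX0 : (0 : ℝ) < X := by linarith
  have hlogX : 1 ≤ Real.log X := log_ge_one X hX'
  have hlogX0 : 0 ≤ Real.log X := by linarith
  have hs1 : 1 ≤ ‖s‖ := hs.trans (Complex.re_le_norm s)
  set c : ℝ := ‖s‖ + i with hc
  have hc1 : 1 ≤ c := by
    have : (0 : ℝ) ≤ i := Nat.cast_nonneg i
    linarith
  have hc0 : 0 ≤ c := by linarith
  rcases le_or_gt X N with hXN | hXN
  swap
  · rw [Finset.Ioc_eq_empty (by omega)]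
    simp only [sum_empty, norm_zero]
    positivity
  have hN' : (3 : ℝ) ≤ N := by exact_mod_cast hX.trans hXN
  have hsum : ∑ n ∈ Ioc X N, f n * ((Real.log n : ℝ) : ℂ) ^ i * (n : ℂ) ^ (-s)
      = ∑ n ∈ Ioc X N, f n * (fun m : ℕ => tailg i s (m : ℝ)) n := by
    refine sum_congr rfl (fun n _ => ?_)
    simp only [tailg]
    rw [mul_assoc]
    norm_cast
  rw [hsum, abel f _ X N hXN]
  have hg : ∀ m : ℕ, 3 ≤ m → ‖tailg i s (m : ℝ)‖ ≤ c * (-tailG i (m : ℝ)) := by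
    intro m hm
    have hm' : (3 : ℝ) ≤ m := by exact_mod_cast hm
    have hm0 : (0 : ℝ) < m := by linarith
    have hlm : 0 ≤ Real.log m := by linarith [log_ge_one m hm']
    have h1 := tailg_norm i s hs m hm'
    have h2 : Real.log m ^ i / m ≤ -tailG i (m : ℝ) := by
      unfold tailG
      rw [neg_neg]
      gcongr
      exact (tailP_ge i _ hlm).2
    have h3 : 0 ≤ -tailG i (m : ℝ) := le_trans (by positivity) h2
    nlinarith
  have hT : ‖∑ n ∈ Ico X N, (∑ m ∈ Icc 1 n, f m) *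
      (tailg i s ((n + 1 : ℕ) : ℝ) - tailg i s (n : ℝ))‖
      ≤ R * (c * (tailG i (N : ℝ) - tailG i (X : ℝ))) := by
    refine (norm_sum_le _ _).trans ?_
    have h1 : ∀ n ∈ Ico X N, ‖(∑ m ∈ Icc 1 n, f m) *
        (tailg i s ((n + 1 : ℕ) : ℝ) - tailg i s (n : ℝ))‖
        ≤ R * (c * (tailG i ((n + 1 : ℕ) : ℝ) - tailG i (n : ℝ))) := by
      intro n hn
      rw [Finset.mem_Ico] at hn
      rw [norm_mul]
      exact mul_le_mul (hR n) (tailg_diff i s hs n (hX.trans hn.1)) (norm_nonneg _) hR0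
    refine (sum_le_sum h1).trans ?_
    rw [← mul_sum, ← mul_sum]
    have h2 := Finset.sum_Ico_sub (fun n : ℕ => tailG i (n : ℝ)) hXN
    rw [h2]
  have hA : ‖(∑ n ∈ Icc 1 N, f n) * tailg i s (N : ℝ)‖ ≤ R * (c * (-tailG i (N : ℝ))) := by
    rw [norm_mul]
    exact mul_le_mul (hR N) (hg N (hX.trans hXN)) (norm_nonneg _) hR0
  have hB : ‖(∑ n ∈ Icc 1 X, f n) * tailg i s (X : ℝ)‖ ≤ R * (c * (-tailG i (X : ℝ))) := by
    rw [norm_mul]
    exact mul_le_mul (hR X) (hg X hX) (norm_nonneg _) hR0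
  have hG : -tailG i (X : ℝ) ≤ 3 * i.factorial * Real.log X ^ i / X := by
    unfold tailG
    rw [neg_neg]
    apply div_le_div_of_nonneg_right _ hX0.le
    refine (tailP_le i _ hlogX).trans ?_
    have h1 : ∑ r ∈ range (i + 1), (1 : ℝ) / r.factorial ≤ 3 := by
      have h2 := Real.sum_le_exp_of_nonneg (x := 1) (by norm_num) (i + 1)
      simp only [one_pow] at h2
      have := Real.exp_one_lt_d9
      linarith
    gcongr
  have htot : ‖(∑ n ∈ Icc 1 N, f n) * tailg i s (N : ℝ) - (∑ n ∈ Icc 1 X, f n) * tailg i s (X : ℝ)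
      - ∑ n ∈ Ico X N, (∑ m ∈ Icc 1 n, f m) *
        (tailg i s ((n + 1 : ℕ) : ℝ) - tailg i s (n : ℝ))‖
      ≤ 2 * R * c * (-tailG i (X : ℝ)) := by
    refine (norm_sub_le _ _).trans ?_
    refine (add_le_add (norm_sub_le _ _) hT).trans ?_
    nlinarith [hA, hB]
  refine htot.trans ?_
  have hG0 : 0 ≤ 3 * i.factorial * Real.log X ^ i / X := by positivity
  calc 2 * R * c * (-tailG i (X : ℝ)) ≤ 2 * R * c * (3 * i.factorial * Real.log X ^ i / X) := by
        gcongr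
    _ = 6 * (R * c * i.factorial * Real.log X ^ i / X) := by ring
    _ ≤ 9 * (R * c * i.factorial * Real.log X ^ i / X) := by
        have : 0 ≤ R * c * i.factorial * Real.log X ^ i / X := by positivity
        linarith
    _ = 9 * R * c * i.factorial * Real.log X ^ i / X := by ring

end BVM
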