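import Pool.Agent.helper24.BV.Defs

/-!
# BVA-ZUp: upper bounds for the derivatives of zeta, `1 < Re s ≤ 2`, `|Im s| ≥ 1`

PROOF.  `ℓ = ell 1 t = log (|t|+2) ≥ log 3 > 1`, `X = ⌊|t|+2⌋₊ ≥ 3`.  `g u = (log u)^i u^(-s)`.
Part `n ≤ X`: `≤ ℓ^i (1 + log X) ≤ 2 ℓ^(i+1)`.
Part `n > X`: `∑_{n > X} g n = ∫_X^∞ g + error`, `‖error‖ ≤ ∫_X^∞ ‖g'‖ ≤ (‖s‖+i) ∫_X^∞ (log u)^i u^(-2) du`
(`‖g n - ∫_(n-1)^n g‖ ≤ ∫_(n-1)^n ‖g'‖`) `≤ (‖s‖+i) e i! (log X)^i / X ≤ C (1+i) i! ℓ^i`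
(`‖s‖ ≤ |t| + 2 ≤ 2X`).  `∫_X^∞ g = X^(1-s) ∑_{r ≤ i} (i!/r!) (log X)^r/(s-1)^(i-r+1)` (`integral_Ioi`,
antiderivative; integration by parts), norm `≤ e i! ℓ^i` because `|s - 1| ≥ |t| ≥ 1`, `log X ≥ 1`.
Total `≤ C i! (2ℓ)^i ℓ`.
-/

open Finset ArithmeticFunction Complex

namespace BVM

/-- `b ^ (-z) - ∫_(b-1)^b u ^ (-z) du`, with the integral evaluated -/
noncomputable def ZUp_e (b : ℝ) (z : ℂ) : ℂ :=
  (b : ℂ) ^ (-z) - ((b : ℂ) ^ (1 - z) - ((b - 1 : ℝ) : ℂ) ^ (1 - z)) / (1 - z)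

private theorem ZUp_der1 {z : ℂ} (hz : z ≠ 0) {u : ℝ} (hu : 0 < u) :
    HasDerivAt (fun y : ℝ => (y : ℂ) ^ (-z)) (-z * (u : ℂ) ^ (-z - 1)) u :=
  hasDerivAt_ofReal_cpow_const hu.ne' (neg_ne_zero.2 hz)

private theorem ZUp_der2 {z : ℂ} (hz : z ≠ 1) {u : ℝ} (hu : 0 < u) :
    HasDerivAt (fun y : ℝ => (y : ℂ) ^ (1 - z) / (1 - z)) ((u : ℂ) ^ (-z)) u := by
  have hr : 1 - z ≠ 0 := sub_ne_zero.2 (Ne.symm hz)
  have h := (hasDerivAt_ofReal_cpow_const hu.ne' hr).div_const (1 - z)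
  have h1 : 1 - z - 1 = -z := by ring
  rw [h1, mul_div_cancel_left₀ _ hr] at h
  exact h

private theorem ZUp_e_le {b : ℝ} (hb : 1 < b) {z : ℂ} (hz : 0 < z.re) (hz1 : z ≠ 1) :
    ‖ZUp_e b z‖ ≤ ‖z‖ * (b - 1) ^ (-z.re - 1) := by
  have hz0 : z ≠ 0 := by
    rintro rfl
    simp at hz
  have hb1 : 0 < b - 1 := by linarith
  have hs : Convex ℝ (Set.Icc (b - 1) b) := convex_Icc _ _
  have h1 : ∀ u ∈ Set.Icc (b - 1) b,
      ‖(b : ℂ) ^ (-z) - (u : ℂ) ^ (-z)‖ ≤ ‖z‖ * (b - 1) ^ (-z.re - 1) := by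
    intro u hu
    have hd : ∀ x ∈ Set.Icc (b - 1) b, HasDerivWithinAt (fun y : ℝ => (y : ℂ) ^ (-z))
        (-z * (x : ℂ) ^ (-z - 1)) (Set.Icc (b - 1) b) x := fun x hx =>
      (ZUp_der1 hz0 (lt_of_lt_of_le hb1 hx.1)).hasDerivWithinAt
    have hbd : ∀ x ∈ Set.Icc (b - 1) b,
        ‖-z * (x : ℂ) ^ (-z - 1)‖ ≤ ‖z‖ * (b - 1) ^ (-z.re - 1) := by
      intro x hx
      rw [norm_mul, norm_neg, norm_cpow_eq_rpow_re_of_pos (lt_of_lt_of_le hb1 hx.1)]
      refine mul_le_mul_of_nonneg_left ?_ (norm_nonneg _)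
      have h2 : (-z - 1).re = -z.re - 1 := by simp
      rw [h2]
      exact Real.rpow_le_rpow_of_nonpos hb1 hx.1 (by linarith)
    have h3 := hs.norm_image_sub_le_of_norm_hasDerivWithin_le hd hbd hu
      (Set.right_mem_Icc.2 (by linarith))
    refine h3.trans ?_
    have h4 : ‖b - u‖ ≤ 1 := by
      rw [Real.norm_eq_abs, abs_le]
      constructor <;> linarith [hu.1, hu.2]
    have h5 : 0 ≤ ‖z‖ * (b - 1) ^ (-z.re - 1) :=
      mul_nonneg (norm_nonneg _) (Real.rpow_nonneg hb1.le _)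
    nlinarith
  have hd : ∀ x ∈ Set.Icc (b - 1) b,
      HasDerivWithinAt (fun y : ℝ => (y : ℂ) * (b : ℂ) ^ (-z) - (y : ℂ) ^ (1 - z) / (1 - z))
        ((b : ℂ) ^ (-z) - (x : ℂ) ^ (-z)) (Set.Icc (b - 1) b) x := by
    intro x hx
    have h2 := ZUp_der2 hz1 (lt_of_lt_of_le hb1 hx.1)
    have h3 : HasDerivAt (fun y : ℝ => (y : ℂ) * (b : ℂ) ^ (-z)) (1 * (b : ℂ) ^ (-z)) x :=
      (Complex.ofRealCLM.hasDerivAt (x := x)).mul_const ((b : ℂ) ^ (-z))
    rw [one_mul] at h3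
    exact (h3.sub h2).hasDerivWithinAt
  have h6 := hs.norm_image_sub_le_of_norm_hasDerivWithin_le hd h1
    (Set.left_mem_Icc.2 (by linarith)) (Set.right_mem_Icc.2 (by linarith))
  have h7 : ‖b - (b - 1)‖ = 1 := by
    rw [sub_sub_cancel]
    simp
  rw [h7, mul_one] at h6
  refine le_trans (le_of_eq ?_) h6
  congr 1
  rw [ZUp_e]
  push_cast
  ring

/-- differentiability of the terms -/
private theorem ZUp_e_diff {b : ℝ} (hb : 1 < b) {z : ℂ} (hz1 : z ≠ 1) :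
    DifferentiableAt ℂ (ZUp_e b) z := by
  have hb0 : (b : ℂ) ≠ 0 := by
    exact_mod_cast (by linarith : b ≠ 0)
  have hb1 : ((b - 1 : ℝ) : ℂ) ≠ 0 := by
    exact_mod_cast (by linarith : b - 1 ≠ 0)
  have h1 : (1 : ℂ) - z ≠ 0 := sub_ne_zero.2 (Ne.symm hz1)
  unfold ZUp_e
  refine DifferentiableAt.sub ?_ (DifferentiableAt.div (DifferentiableAt.sub ?_ ?_) ?_ h1)
  · exact (differentiableAt_id.neg).const_cpow (Or.inl hb0)
  · exact ((differentiableAt_const _).sub differentiableAt_id).const_cpow (Or.inl hb0)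
  · exact ((differentiableAt_const _).sub differentiableAt_id).const_cpow (Or.inl hb1)
  · exact (differentiableAt_const _).sub differentiableAt_id

/-- telescoping -/
private theorem ZUp_tel (X : ℕ) (z : ℂ) (K : ℕ) :
    ∑ k ∈ range K, ZUp_e ((X : ℝ) + 1 + k) z =
      ∑ k ∈ range K, ((X + 1 + k : ℕ) : ℂ) ^ (-z) -
        (((X + K : ℕ) : ℂ) ^ (1 - z) - (X : ℂ) ^ (1 - z)) / (1 - z) := by
  induction K with
  | zero => simp
  | succ K ih =>
    rw [Finset.sum_range_succ, ih, Finset.sum_range_succ, ZUp_e]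
    have h1 : (((X : ℝ) + 1 + K : ℝ) : ℂ) = ((X + 1 + K : ℕ) : ℂ) := by push_cast; ring
    have h2 : (((X : ℝ) + 1 + K - 1 : ℝ) : ℂ) = ((X + K : ℕ) : ℂ) := by push_cast; ring
    have h3 : X + (K + 1) = X + 1 + K := by ring
    rw [h1, h2, h3]
    ring

/-- `y ^ (-3/2)` against a telescoping difference -/
private theorem ZUp_step {y : ℝ} (hy : 1 < y) :
    y ^ (-(3 / 2) : ℝ) ≤ 2 / Real.sqrt (y - 1) - 2 / Real.sqrt y := by
  have hy0 : 0 < y := by linarith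
  have h1 : 0 < Real.sqrt y := Real.sqrt_pos.2 hy0
  have h2 : 0 < Real.sqrt (y - 1) := Real.sqrt_pos.2 (by linarith)
  have h3 : Real.sqrt y * Real.sqrt y = y := Real.mul_self_sqrt hy0.le
  have h4 : Real.sqrt (y - 1) * Real.sqrt (y - 1) = y - 1 := Real.mul_self_sqrt (by linarith)
  have h5 : Real.sqrt (y - 1) ≤ Real.sqrt y := Real.sqrt_le_sqrt (by linarith)
  have h6 : y ^ (-(3 / 2) : ℝ) = (Real.sqrt y * Real.sqrt y * Real.sqrt y)⁻¹ := by
    rw [Real.rpow_neg hy0.le, h3]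
    congr 1
    have : (3 / 2 : ℝ) = 1 + 1 / 2 := by norm_num
    rw [this, Real.rpow_add hy0, Real.rpow_one, ← Real.sqrt_eq_rpow]
  rw [h6]
  obtain ⟨p, hp⟩ : ∃ p, p = Real.sqrt y := ⟨_, rfl⟩
  obtain ⟨q, hq⟩ : ∃ q, q = Real.sqrt (y - 1) := ⟨_, rfl⟩
  rw [← hp] at h1 h3 h5 ⊢
  rw [← hq] at h2 h4 h5 ⊢
  have h7 : (p - q) * (p + q) = 1 := by nlinarith
  have h8 : 2 / q - 2 / p = 2 * (p - q) / (q * p) := by
    field_simp
  rw [h8, inv_eq_one_div, div_le_div_iff₀ (by positivity) (by positivity)]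
  have h9 : 1 ≤ 2 * p * (p - q) := by nlinarith
  have h10 : q * p ≤ p * p := by nlinarith
  have h11 : p * p * 1 ≤ p * p * (2 * p * (p - q)) :=
    mul_le_mul_of_nonneg_left h9 (by positivity)
  nlinarith

private theorem ZUp_part {X : ℕ} (hX : 2 ≤ X) (K : ℕ) :
    ∑ k ∈ range K, ((X : ℝ) + k) ^ (-(3 / 2) : ℝ) ≤ 2 / Real.sqrt ((X : ℝ) - 1) := by
  have hX' : (2 : ℝ) ≤ X := by exact_mod_cast hX
  have h : ∑ k ∈ range K, ((X : ℝ) + k) ^ (-(3 / 2) : ℝ) ≤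
      2 / Real.sqrt ((X : ℝ) - 1) - 2 / Real.sqrt ((X : ℝ) - 1 + K) := by
    induction K with
    | zero => simp
    | succ K ih =>
      rw [Finset.sum_range_succ]
      have hK : (0 : ℝ) ≤ K := Nat.cast_nonneg K
      have h1 := ZUp_step (y := (X : ℝ) + K) (by linarith)
      have h2 : (X : ℝ) + K - 1 = X - 1 + K := by ring
      have h3 : (X : ℝ) - 1 + (K + 1 : ℕ) = X + K := by push_cast; ring
      rw [h2] at h1
      rw [h3]
      linarith
  have h1 : 0 ≤ 2 / Real.sqrt ((X : ℝ) - 1 + K) := by positivity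
  linarith

private theorem ZUp_summable32 {X : ℕ} (hX : 2 ≤ X) :
    Summable fun k : ℕ => ((X : ℝ) + k) ^ (-(3 / 2) : ℝ) :=
  summable_of_sum_range_le (fun k => Real.rpow_nonneg (by positivity) _) (ZUp_part hX)

private theorem ZUp_tsum32 {X : ℕ} (hX : 2 ≤ X) :
    ∑' k : ℕ, ((X : ℝ) + k) ^ (-(3 / 2) : ℝ) ≤ 2 / Real.sqrt ((X : ℝ) - 1) :=
  (ZUp_summable32 hX).tsum_le_of_sum_range_le (ZUp_part hX)

/-- the terms, `Re z ≥ 1 / 2` -/
private theorem ZUp_e_le' {X : ℕ} (hX : 2 ≤ X) {z : ℂ} (hz : 1 / 2 ≤ z.re) (hz1 : z ≠ 1)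
    (k : ℕ) : ‖ZUp_e ((X : ℝ) + 1 + k) z‖ ≤
      ‖z‖ * (X : ℝ) ^ (1 / 2 - z.re) * ((X : ℝ) + k) ^ (-(3 / 2) : ℝ) := by
  have hX' : (2 : ℝ) ≤ X := by exact_mod_cast hX
  have hk : (0 : ℝ) ≤ k := Nat.cast_nonneg k
  have h1 := ZUp_e_le (b := (X : ℝ) + 1 + k) (by linarith) (z := z) (by linarith) hz1
  refine h1.trans ?_
  have h2 : (X : ℝ) + 1 + k - 1 = X + k := by ring
  rw [h2, mul_assoc]
  refine mul_le_mul_of_nonneg_left ?_ (norm_nonneg _)
  have h3 : -z.re - 1 = (1 / 2 - z.re) + (-(3 / 2) : ℝ) := by ring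
  rw [h3, Real.rpow_add (by linarith)]
  refine mul_le_mul_of_nonneg_right ?_ (Real.rpow_nonneg (by linarith) _)
  exact Real.rpow_le_rpow_of_nonpos (by linarith) (by linarith) (by linarith)

private theorem ZUp_e_summable {X : ℕ} (hX : 2 ≤ X) {z : ℂ} (hz : 1 / 2 ≤ z.re) (hz1 : z ≠ 1) :
    Summable fun k : ℕ => ‖ZUp_e ((X : ℝ) + 1 + k) z‖ :=
  Summable.of_nonneg_of_le (fun _ => norm_nonneg _) (ZUp_e_le' hX hz hz1)
    ((ZUp_summable32 hX).mul_left _)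

private theorem ZUp_e_tsum {X : ℕ} (hX : 2 ≤ X) {z : ℂ} (hz : 1 / 2 ≤ z.re) (hz1 : z ≠ 1) :
    ‖∑' k : ℕ, ZUp_e ((X : ℝ) + 1 + k) z‖ ≤
      ‖z‖ * (X : ℝ) ^ (1 / 2 - z.re) * (2 / Real.sqrt ((X : ℝ) - 1)) := by
  refine (norm_tsum_le_tsum_norm (ZUp_e_summable hX hz hz1)).trans ?_
  refine ((ZUp_e_summable hX hz hz1).tsum_le_tsum (ZUp_e_le' hX hz hz1)
    ((ZUp_summable32 hX).mul_left _)).trans ?_
  rw [tsum_mul_left]
  exact mul_le_mul_of_nonneg_left (ZUp_tsum32 hX)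
    (mul_nonneg (norm_nonneg _) (Real.rpow_nonneg (Nat.cast_nonneg _) _))

/-- the Euler-Maclaurin form of zeta -/
noncomputable def ZUp_F (X : ℕ) (z : ℂ) : ℂ :=
  ∑ n ∈ Icc 1 X, (n : ℂ) ^ (-z) + (X : ℂ) ^ (1 - z) / (z - 1) +
    ∑' k : ℕ, ZUp_e ((X : ℝ) + 1 + k) z

private theorem ZUp_F_eq {X : ℕ} (hX : 2 ≤ X) {z : ℂ} (hz : 1 < z.re) :
    LSeries 1 z = ZUp_F X z := by
  have hz1 : z ≠ 1 := by
    rintro rfl
    simp at hz
  have hz1' : 1 - z ≠ 0 := sub_ne_zero.2 (Ne.symm hz1)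
  have hz1'' : z - 1 ≠ 0 := sub_ne_zero.2 hz1
  have h1 : Summable fun k : ℕ => ZUp_e ((X : ℝ) + 1 + k) z :=
    (ZUp_e_summable hX (by linarith) hz1).of_norm
  have h2 := h1.hasSum.tendsto_sum_nat
  have h3 : HasSum (LSeries.term 1 z) (LSeries 1 z) :=
    (LSeriesSummable_one_iff.2 hz).hasSum
  have h4 := (h3.tendsto_sum_nat).comp (Filter.tendsto_add_atTop_nat (X + 1))
  have h5 : ∀ K : ℕ, ∑ n ∈ range (K + (X + 1)), LSeries.term 1 z n =
      ∑ n ∈ Icc 1 X, (n : ℂ) ^ (-z) + ∑ k ∈ range K, ((X + 1 + k : ℕ) : ℂ) ^ (-z) := by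
    intro K
    have ht : ∀ n : ℕ, n ≠ 0 → LSeries.term 1 z n = (n : ℂ) ^ (-z) := by
      intro n hn
      rw [LSeries.term_of_ne_zero hn, Pi.one_apply, Complex.cpow_neg, one_div]
    rw [add_comm K, Finset.sum_range_add, Finset.sum_range_succ']
    have h6 : LSeries.term 1 z 0 = 0 := LSeries.term_zero _ _
    rw [h6, add_zero]
    congr 1
    · rw [Finset.range_eq_Ico, Finset.sum_Ico_add' (fun n => LSeries.term 1 z n) 0 X 1]
      have h7 : Ico (0 + 1) (X + 1) = Icc 1 X := by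
        ext n
        simp only [Finset.mem_Ico, Finset.mem_Icc]
        omega
      rw [h7]
      exact Finset.sum_congr rfl fun n hn => ht n (by have := (Finset.mem_Icc.1 hn).1; omega)
    · exact Finset.sum_congr rfl fun n _ => ht _ (by omega)
  have h6 : Filter.Tendsto (fun K : ℕ => ((X + K : ℕ) : ℂ) ^ (1 - z)) Filter.atTop (nhds 0) := by
    rw [tendsto_zero_iff_norm_tendsto_zero]
    have h7 : ∀ K : ℕ, ‖((X + K : ℕ) : ℂ) ^ (1 - z)‖ = ((X + K : ℕ) : ℝ) ^ (-(z.re - 1)) := by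
      intro K
      rw [norm_natCast_cpow_of_pos (by omega)]
      congr 1
      simp
    have h8 : Filter.Tendsto (fun K : ℕ => ((K + X : ℕ) : ℝ) ^ (-(z.re - 1)))
        Filter.atTop (nhds 0) :=
      ((tendsto_rpow_neg_atTop (by linarith : 0 < z.re - 1)).comp
        tendsto_natCast_atTop_atTop).comp (Filter.tendsto_add_atTop_nat X)
    refine h8.congr fun K => ?_
    rw [h7, add_comm]
  have h7 : Filter.Tendsto (fun K : ℕ => ∑ k ∈ range K, ZUp_e ((X : ℝ) + 1 + k) z)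
      Filter.atTop (nhds ((LSeries 1 z - ∑ n ∈ Icc 1 X, (n : ℂ) ^ (-z)) -
        (0 - (X : ℂ) ^ (1 - z)) / (1 - z))) := by
    have h8 := (h4.sub_const (∑ n ∈ Icc 1 X, (n : ℂ) ^ (-z))).sub
      ((h6.sub_const ((X : ℂ) ^ (1 - z))).div_const (1 - z))
    refine h8.congr fun K => ?_
    simp only [Function.comp]
    rw [h5, ZUp_tel]
    ring
  have h8 := tendsto_nhds_unique h2 h7
  rw [ZUp_F, h8]
  have h9 : (0 - (X : ℂ) ^ (1 - z)) / (1 - z) = (X : ℂ) ^ (1 - z) / (z - 1) := by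
    rw [div_eq_div_iff hz1' hz1'']
    ring
  rw [h9]
  ring

private theorem ZUp_logMul (i : ℕ) :
    LSeries.logMul^[i] (1 : ℕ → ℂ) = fun n : ℕ => ((Real.log n : ℝ) : ℂ) ^ i := by
  induction i with
  | zero =>
    funext n
    simp
  | succ i ih =>
    rw [Function.iterate_succ_apply', ih]
    funext n
    rw [LSeries.logMul, pow_succ', Complex.ofReal_log (Nat.cast_nonneg n), ofReal_natCast]

private theorem ZUp_exp_half : Real.exp (1 / 2) ≤ 2 := by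
  have h1 : Real.exp (1 / 2) * Real.exp (1 / 2) = Real.exp 1 := by
    rw [← Real.exp_add]
    norm_num
  have h2 := Real.exp_one_lt_d9
  have h3 := Real.exp_pos (1 / 2)
  nlinarith

private theorem ZUp_ell {t : ℝ} (ht : 1 ≤ |t|) : 1 < ell 1 t := by
  have h2 := Real.exp_one_lt_d9
  unfold ell
  rw [Real.lt_log_iff_exp_lt (by push_cast; linarith)]
  push_cast
  linarith

/-- `n ^ (-Re z) ≤ 2 / n` -/
private theorem ZUp_pt {t : ℝ} (ht : 1 ≤ |t|) {n : ℕ} (hn : 1 ≤ n) (hnt : (n : ℝ) ≤ |t| + 2)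
    {x : ℝ} (hx : 1 - 1 / (2 * ell 1 t) ≤ x) : (n : ℝ) ^ (-x) ≤ 2 * (n : ℝ)⁻¹ := by
  have hl := ZUp_ell ht
  have hn' : (1 : ℝ) ≤ n := by exact_mod_cast hn
  have hn0 : (0 : ℝ) < n := by linarith
  have h1 : Real.log n ≤ ell 1 t := by
    unfold ell
    refine Real.log_le_log hn0 ?_
    push_cast
    linarith
  have h2 : 0 ≤ Real.log n := Real.log_nonneg hn'
  have h3 : 1 / (2 * ell 1 t) * Real.log n ≤ 1 / 2 := by
    rw [one_div_mul_eq_div, div_le_div_iff₀ (by linarith) (by norm_num)]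
    linarith
  have h4 : Real.log n * -x ≤ 1 / 2 + -Real.log n := by nlinarith
  rw [Real.rpow_def_of_pos hn0]
  refine (Real.exp_le_exp.2 h4).trans ?_
  rw [Real.exp_add, Real.exp_neg, Real.exp_log hn0]
  exact mul_le_mul_of_nonneg_right ZUp_exp_half (by positivity)

private theorem ZUp_F_le {s : ℂ} (h1 : 1 < s.re) (h2 : s.re ≤ 2) (ht : 1 ≤ |s.im|) {z : ℂ}
    (hz : ‖z - s‖ ≤ 1 / (2 * ell 1 s.im)) :
    ‖ZUp_F ⌊|s.im| + 2⌋₊ z‖ ≤ 28 * ell 1 s.im := by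
  have hl := ZUp_ell ht
  obtain ⟨X, hX⟩ : ∃ X : ℕ, X = ⌊|s.im| + 2⌋₊ := ⟨_, rfl⟩
  have hX3 : 3 ≤ X := by
    rw [hX]
    refine Nat.le_floor ?_
    push_cast
    linarith
  have hXr : (3 : ℝ) ≤ X := by exact_mod_cast hX3
  have hXle : (X : ℝ) ≤ |s.im| + 2 := by
    rw [hX]
    exact Nat.floor_le (by linarith)
  have hXlt : |s.im| + 2 < X + 1 := by
    rw [hX]
    exact Nat.lt_floor_add_one _
  rw [← hX]
  have hr : 1 / (2 * ell 1 s.im) ≤ 1 / 2 := by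
    rw [div_le_div_iff₀ (by linarith) (by norm_num)]
    linarith
  have hre : |z.re - s.re| ≤ 1 / (2 * ell 1 s.im) := by
    have := abs_re_le_norm (z - s)
    rw [sub_re] at this
    exact this.trans hz
  have him : |z.im - s.im| ≤ 1 / 2 := by
    have := abs_im_le_norm (z - s)
    rw [sub_im] at this
    exact (this.trans hz).trans hr
  have hx : 1 - 1 / (2 * ell 1 s.im) ≤ z.re := by
    have := (abs_le.1 hre).1
    linarith
  have hx2 : 1 / 2 ≤ z.re := by linarith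
  have hx3 : z.re ≤ 5 / 2 := by
    have := (abs_le.1 hre).2
    linarith
  have hzim : |s.im| - 1 / 2 ≤ |z.im| := by
    have h3 : |s.im| ≤ |z.im| + |z.im - s.im| := by
      have h4 : s.im = z.im - (z.im - s.im) := by ring
      calc |s.im| = |z.im - (z.im - s.im)| := by rw [← h4]
        _ ≤ _ := abs_sub _ _
    linarith
  have hzim' : |z.im| ≤ |s.im| + 1 / 2 := by
    have h3 : |z.im| ≤ |s.im| + |z.im - s.im| := by
      have h4 : z.im = s.im + (z.im - s.im) := by ring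
      calc |z.im| = |s.im + (z.im - s.im)| := by rw [← h4]
        _ ≤ _ := abs_add_le _ _
    linarith
  have hz1 : z ≠ 1 := by
    rintro rfl
    rw [one_im, abs_zero] at hzim
    linarith
  have hnz : ‖z‖ ≤ 4 * (X - 1) := by
    have h3 := norm_le_abs_re_add_abs_im z
    have h4 : |z.re| ≤ 5 / 2 := abs_le.2 ⟨by linarith, hx3⟩
    linarith
  -- first part
  have hA : ‖∑ n ∈ Icc 1 X, (n : ℂ) ^ (-z)‖ ≤ 4 * ell 1 s.im := by
    have h3 : ∀ n ∈ Icc 1 X, ‖(n : ℂ) ^ (-z)‖ ≤ 2 * (n : ℝ)⁻¹ := by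
      intro n hn
      obtain ⟨hn1, hn2⟩ := Finset.mem_Icc.1 hn
      rw [norm_natCast_cpow_of_pos (by omega)]
      refine ZUp_pt ht hn1 ?_ hx
      have : (n : ℝ) ≤ X := by exact_mod_cast hn2
      linarith
    refine (norm_sum_le_of_le _ h3).trans ?_
    rw [← Finset.mul_sum]
    have h4 : ∑ n ∈ Icc 1 X, (n : ℝ)⁻¹ ≤ 1 + Real.log X := by
      have h5 := harmonic_le_one_add_log X
      rw [harmonic_eq_sum_Icc] at h5
      push_cast at h5
      exact h5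
    have h5 : Real.log X ≤ ell 1 s.im := by
      unfold ell
      refine Real.log_le_log (by linarith) ?_
      push_cast
      linarith
    linarith
  -- the pole term
  have hXz : (X : ℝ) ^ (-z.re) ≤ 2 * (X : ℝ)⁻¹ := ZUp_pt ht (by omega) hXle hx
  have hB : ‖(X : ℂ) ^ (1 - z) / (z - 1)‖ ≤ 4 := by
    rw [norm_div, norm_natCast_cpow_of_pos (by omega)]
    have h3 : (1 - z).re = 1 + -z.re := by simp [sub_eq_add_neg]
    rw [h3, Real.rpow_add (by linarith), Real.rpow_one]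
    have h4 : (X : ℝ) * (X : ℝ) ^ (-z.re) ≤ 2 := by
      have h5 := mul_le_mul_of_nonneg_left hXz (by linarith : (0 : ℝ) ≤ X)
      have h6 : (X : ℝ) * (2 * (X : ℝ)⁻¹) = 2 := by
        field_simp
      linarith
    have h5 : 1 / 2 ≤ ‖z - 1‖ := by
      have := abs_im_le_norm (z - 1)
      rw [sub_im, one_im, sub_zero] at this
      linarith
    rw [div_le_iff₀ (by linarith)]
    linarith
  -- the tail
  have hC : ‖∑' k : ℕ, ZUp_e ((X : ℝ) + 1 + k) z‖ ≤ 20 := by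
    refine (ZUp_e_tsum (by omega) hx2 hz1).trans ?_
    have h3 : (X : ℝ) ^ (1 / 2 - z.re) = Real.sqrt X * (X : ℝ) ^ (-z.re) := by
      rw [Real.sqrt_eq_rpow, ← Real.rpow_add (by linarith)]
      congr 1
    rw [h3]
    obtain ⟨p, hp⟩ : ∃ p, p = Real.sqrt X := ⟨_, rfl⟩
    obtain ⟨q, hq⟩ : ∃ q, q = Real.sqrt ((X : ℝ) - 1) := ⟨_, rfl⟩
    have hp0 : 0 < p := hp ▸ Real.sqrt_pos.2 (by linarith)
    have hq0 : 0 < q := hq ▸ Real.sqrt_pos.2 (by linarith)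
    have hp2 : p * p = X := hp ▸ Real.mul_self_sqrt (by linarith)
    have hq2 : q * q = X - 1 := hq ▸ Real.mul_self_sqrt (by linarith)
    have hqp : q ≤ p := by rw [hp, hq]; exact Real.sqrt_le_sqrt (by linarith)
    rw [← hp, ← hq]
    have h4 : p * (X : ℝ) ^ (-z.re) ≤ 2 / p := by
      have h5 := mul_le_mul_of_nonneg_left hXz hp0.le
      refine h5.trans (le_of_eq ?_)
      rw [← hp2]
      field_simp
    have h5 : 2 / p ≤ 2 / q := div_le_div_of_nonneg_left (by norm_num) hq0 hqp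
    calc ‖z‖ * (p * (X : ℝ) ^ (-z.re)) * (2 / q) ≤ (4 * (q * q)) * (2 / q) * (2 / q) := by
          refine mul_le_mul_of_nonneg_right ?_ (by positivity)
          refine mul_le_mul (by rw [hq2]; exact hnz) (h4.trans h5) ?_ (by positivity)
          exact mul_nonneg hp0.le (Real.rpow_nonneg (by linarith) _)
      _ = 16 := by field_simp; norm_num
      _ ≤ 20 := by norm_num
  unfold ZUp_F
  refine (norm_add₃_le).trans ?_
  linarith

private theorem ZUp_F_diff {X : ℕ} (hX : 2 ≤ X) {s : ℂ} (h1 : 1 < s.re) (ht : 1 ≤ |s.im|) :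
    DifferentiableOn ℂ (ZUp_F X) (Metric.ball s (1 / 2)) := by
  have hX' : (2 : ℝ) ≤ X := by exact_mod_cast hX
  have hb : ∀ z ∈ Metric.ball s (1 / 2), 1 / 2 ≤ z.re ∧ z ≠ 1 ∧ ‖z‖ ≤ ‖s‖ + 1 := by
    intro z hz
    rw [mem_ball_iff_norm] at hz
    have hre : |z.re - s.re| ≤ 1 / 2 := by
      have := abs_re_le_norm (z - s)
      rw [sub_re] at this
      linarith
    have him : |z.im - s.im| ≤ 1 / 2 := by
      have := abs_im_le_norm (z - s)
      rw [sub_im] at this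
      linarith
    refine ⟨?_, ?_, ?_⟩
    · have := (abs_le.1 hre).1
      linarith
    · rintro rfl
      rw [one_im, zero_sub, abs_neg] at him
      linarith
    · have h3 : z = s + (z - s) := by ring
      calc ‖z‖ = ‖s + (z - s)‖ := by rw [← h3]
        _ ≤ ‖s‖ + ‖z - s‖ := norm_add_le _ _
        _ ≤ ‖s‖ + 1 := by linarith
  unfold ZUp_F
  refine DifferentiableOn.add (DifferentiableOn.add ?_ ?_) ?_
  · refine DifferentiableOn.fun_sum fun n hn => ?_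
    have hn0 : (n : ℂ) ≠ 0 := by
      have := (Finset.mem_Icc.1 hn).1
      exact_mod_cast (by omega : n ≠ 0)
    exact fun z _ => ((differentiableAt_id.neg).const_cpow (Or.inl hn0)).differentiableWithinAt
  · intro z hz
    have hX0 : (X : ℂ) ≠ 0 := by exact_mod_cast (by omega : X ≠ 0)
    refine (DifferentiableAt.div ?_ ?_ ?_).differentiableWithinAt
    · exact ((differentiableAt_const _).sub differentiableAt_id).const_cpow (Or.inl hX0)
    · exact differentiableAt_id.sub (differentiableAt_const _)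
    · exact sub_ne_zero.2 (hb z hz).2.1
  · refine differentiableOn_tsum_of_summable_norm
      (u := fun k : ℕ => (‖s‖ + 1) * ((X : ℝ) + k) ^ (-(3 / 2) : ℝ))
      ((ZUp_summable32 hX).mul_left _) ?_ Metric.isOpen_ball ?_
    · intro k z hz
      have hk : (0 : ℝ) ≤ k := Nat.cast_nonneg k
      exact (ZUp_e_diff (by linarith) (hb z hz).2.1).differentiableWithinAt
    · intro k z hz
      obtain ⟨hz1, hz2, hz3⟩ := hb z hz
      have hk : (0 : ℝ) ≤ k := Nat.cast_nonneg k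
      refine (ZUp_e_le' hX hz1 hz2 k).trans ?_
      refine mul_le_mul_of_nonneg_right ?_ (Real.rpow_nonneg (by linarith) _)
      have h4 : (X : ℝ) ^ (1 / 2 - z.re) ≤ 1 :=
        Real.rpow_le_one_of_one_le_of_nonpos (by linarith) (by linarith)
      have h5 : 0 ≤ (X : ℝ) ^ (1 / 2 - z.re) := Real.rpow_nonneg (by linarith) _
      nlinarith [norm_nonneg z]

theorem ZUp : ∃ C : ℝ, 1 ≤ C ∧ ∀ (i : ℕ) (s : ℂ), 1 < s.re → s.re ≤ 2 → 1 ≤ |s.im| →
    ‖LSeries (fun n => ((Real.log n : ℝ) : ℂ) ^ i) s‖ ≤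
      C * i.factorial * (2 * ell 1 s.im) ^ i * ell 1 s.im := by
  refine ⟨28, by norm_num, fun i s h1 h2 ht => ?_⟩
  have hl := ZUp_ell ht
  have hX3 : 2 ≤ ⌊|s.im| + 2⌋₊ := by
    refine Nat.le_floor ?_
    push_cast
    linarith
  have hr : 1 / (2 * ell 1 s.im) ≤ 1 / 2 := by
    rw [div_le_div_iff₀ (by linarith) (by norm_num)]
    linarith
  have hr0 : 0 < 1 / (2 * ell 1 s.im) := by positivity
  have h3 : LSeries (fun n => ((Real.log n : ℝ) : ℂ) ^ i) s =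
      (-1) ^ i * iteratedDeriv i (ZUp_F ⌊|s.im| + 2⌋₊) s := by
    have h4 : LSeries (1 : ℕ → ℂ) =ᶠ[nhds s] ZUp_F ⌊|s.im| + 2⌋₊ := by
      have h5 : {z : ℂ | 1 < z.re} ∈ nhds s :=
        (isOpen_lt continuous_const continuous_re).mem_nhds h1
      filter_upwards [h5] with z hz
      exact ZUp_F_eq hX3 hz
    rw [← h4.iteratedDeriv_eq, LSeries_iteratedDeriv, ZUp_logMul, ← mul_assoc, ← pow_add,
      Even.neg_one_pow ⟨i, rfl⟩, one_mul]
    rw [LSeries.abscissaOfAbsConv_one]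
    exact_mod_cast h1
  rw [h3, norm_mul, norm_pow, norm_neg, norm_one, one_pow, one_mul]
  have hsub : Metric.closedBall s (1 / (2 * ell 1 s.im)) ⊆ Metric.ball s (1 / 2) := by
    refine Metric.closedBall_subset_ball ?_
    rw [div_lt_div_iff₀ (by linarith) (by norm_num)]
    linarith
  have hd := ZUp_F_diff hX3 h1 ht
  have h5 := Complex.norm_iteratedDeriv_le_of_forall_mem_sphere_norm_le i hr0
    (hd.diffContOnCl_ball hsub) (C := 28 * ell 1 s.im) fun z hz =>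
      ZUp_F_le h1 h2 ht (le_of_eq (mem_sphere_iff_norm.1 hz))
  refine h5.trans (le_of_eq ?_)
  rw [div_eq_mul_inv, ← inv_pow, one_div, inv_inv]
  ring

end BVM
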